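import Pool.Agent.H56.Mono.Sard

open MeasureTheory Measure Module
open scoped InnerProductSpace RealInnerProductSpace NNReal ENNReal

namespace H56Mono

/-- Comparison of Hausdorff measures of two images. -/
theorem hausdorff_le_of_edist_le {X Y Z : Type*} [EMetricSpace Y] [MeasurableSpace Y]
    [BorelSpace Y] [EMetricSpace Z] [MeasurableSpace Z] [BorelSpace Z] (p : X → Y) (q : X → Z)
    (W : Set X) (κ : ℝ≥0) (h : ∀ x ∈ W, ∀ y ∈ W, edist (p x) (p y) ≤ κ * edist (q x) (q y))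
    (d : ℕ) : μH[(d : ℝ)] (p '' W) ≤ (κ : ℝ≥0∞) ^ d * μH[(d : ℝ)] (q '' W) := by
  classical
  rcases W.eq_empty_or_nonempty with rfl | ⟨x0, hx0⟩
  · simp
  let φ : Z → Y := fun z => if hz : ∃ x ∈ W, q x = z then p hz.choose else p x0
  have hφ : ∀ x ∈ W, φ (q x) = p x := by
    intro x hx
    have hz : ∃ x' ∈ W, q x' = q x := ⟨x, hx, rfl⟩
    simp only [φ, dif_pos hz]
    have h1 := hz.choose_spec
    have h2 := h _ h1.1 x hx
    rw [h1.2, edist_self, mul_zero] at h2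
    exact edist_le_zero.1 h2
  have hl : LipschitzOnWith κ φ (q '' W) := by
    rintro _ ⟨x, hx, rfl⟩ _ ⟨y, hy, rfl⟩
    rw [hφ x hx, hφ y hy]
    exact h x hx y hy
  have h3 := hl.hausdorffMeasure_image_le (d := (d : ℝ)) (by positivity)
  rw [Set.image_image] at h3
  have h4 : (fun x => φ (q x)) '' W = p '' W := Set.image_congr fun x hx => hφ x hx
  rw [h4] at h3
  simpa using h3

section
variable {E : Type*} [NormedAddCommGroup E] [InnerProductSpace ℝ E]
  [FiniteDimensional ℝ E] [MeasurableSpace E] [BorelSpace E] {d : ℕ}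

theorem finrank_cast : (finrank ℝ (EuclideanSpace ℝ (Fin d)) : ℝ) = (d : ℝ) := by simp

/-- one nearly linear piece -/
theorem area_piece (A B : E →ₗ[ℝ] E) (a b : ℝ)
    (ha : 0 ≤ a) (hb : 0 ≤ b) (g : EuclideanSpace ℝ (Fin d) → E)
    (L : EuclideanSpace ℝ (Fin d) →L[ℝ] E)
    (hJ : a * (A ∘ₗ L.toLinearMap).normDet + b * (B ∘ₗ L.toLinearMap).normDet ≤
      L.toLinearMap.normDet)
    (ε : ℝ) (hε : 0 < ε) (hε1 : ε < 1) (W : Set (EuclideanSpace ℝ (Fin d)))
    (h0 : ∀ x ∈ W, ∀ y ∈ W, ‖g x - g y - L (x - y)‖ ≤ ε * ‖L (x - y)‖)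
    (hA : ∀ x ∈ W, ∀ y ∈ W, ‖A (g x - g y - L (x - y))‖ ≤ ε * ‖A (L (x - y))‖)
    (hB : ∀ x ∈ W, ∀ y ∈ W, ‖B (g x - g y - L (x - y))‖ ≤ ε * ‖B (L (x - y))‖) :
    ENNReal.ofReal a * μH[(d : ℝ)] (A '' (g '' W)) +
      ENNReal.ofReal b * μH[(d : ℝ)] (B '' (g '' W)) ≤
      ENNReal.ofReal ((1 + ε) * (1 - ε)⁻¹) ^ d * μH[(d : ℝ)] (g '' W) := by
  have up : ∀ C : E →ₗ[ℝ] E,
      (∀ x ∈ W, ∀ y ∈ W, ‖C (g x - g y - L (x - y))‖ ≤ ε * ‖C (L (x - y))‖) →
      μH[(d : ℝ)] (C '' (g '' W)) ≤ ENNReal.ofReal (1 + ε) ^ d *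
        (ENNReal.ofReal (C ∘ₗ L.toLinearMap).normDet * μH[(d : ℝ)] W) := by
    intro C hC
    have h1 := hausdorff_le_of_edist_le (fun x => C (g x)) (C ∘ₗ L.toLinearMap) W
      (1 + ε).toNNReal (by
        intro x hx y hy
        rw [edist_dist, edist_dist, dist_eq_norm, dist_eq_norm]
        have h2 := hC x hx y hy
        have h3 : C (g x) - C (g y) = C (g x - g y - L (x - y)) + C (L (x - y)) := by
          rw [← map_add, ← map_sub]; congr 1; abel
        have h4 : ‖C (g x) - C (g y)‖ ≤ (1 + ε) * ‖C (L (x - y))‖ := by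
          rw [h3]
          refine (norm_add_le _ _).trans ?_
          linarith
        have h5 : (C ∘ₗ L.toLinearMap) x - (C ∘ₗ L.toLinearMap) y = C (L (x - y)) := by
          simp
        rw [h5]
        calc ENNReal.ofReal ‖C (g x) - C (g y)‖ ≤ ENNReal.ofReal ((1 + ε) * ‖C (L (x - y))‖) :=
              ENNReal.ofReal_le_ofReal h4
          _ = _ := by rw [ENNReal.ofReal_mul (by linarith)]; rfl) d
    rw [Set.image_image]
    refine h1.trans ?_
    have h6 := (C ∘ₗ L.toLinearMap).hausdorffMeasure_image W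
    rw [finrank_cast] at h6
    rw [h6]
    rfl
  have low : ENNReal.ofReal L.toLinearMap.normDet * μH[(d : ℝ)] W ≤
      ENNReal.ofReal ((1 - ε)⁻¹) ^ d * μH[(d : ℝ)] (g '' W) := by
    have h1 := hausdorff_le_of_edist_le L g W ((1 - ε)⁻¹).toNNReal (by
        intro x hx y hy
        rw [edist_dist, edist_dist, dist_eq_norm, dist_eq_norm]
        have h2 := h0 x hx y hy
        have h5 : L x - L y = L (x - y) := by simp
        have h4 : ‖L x - L y‖ ≤ (1 - ε)⁻¹ * ‖g x - g y‖ := by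
          rw [h5]
          have h6 : ‖L (x - y)‖ ≤ ‖g x - g y‖ + ‖g x - g y - L (x - y)‖ := by
            have := norm_sub_le (g x - g y) (g x - g y - L (x - y))
            simpa using this
          have h7 : (1 - ε) * ‖L (x - y)‖ ≤ ‖g x - g y‖ := by linarith
          rw [inv_mul_eq_div, le_div_iff₀ (by linarith)]
          linarith
        calc ENNReal.ofReal ‖L x - L y‖ ≤ ENNReal.ofReal ((1 - ε)⁻¹ * ‖g x - g y‖) :=
              ENNReal.ofReal_le_ofReal h4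
          _ = _ := by
            rw [ENNReal.ofReal_mul (inv_nonneg.2 (by linarith))]; rfl) d
    have h6 := L.toLinearMap.hausdorffMeasure_image W
    rw [finrank_cast] at h6
    rw [← h6]
    exact h1
  have uA := up A hA
  have uB := up B hB
  calc ENNReal.ofReal a * μH[(d : ℝ)] (A '' (g '' W)) +
      ENNReal.ofReal b * μH[(d : ℝ)] (B '' (g '' W))
      ≤ ENNReal.ofReal a * (ENNReal.ofReal (1 + ε) ^ d *
        (ENNReal.ofReal (A ∘ₗ L.toLinearMap).normDet * μH[(d : ℝ)] W)) +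
        ENNReal.ofReal b * (ENNReal.ofReal (1 + ε) ^ d *
        (ENNReal.ofReal (B ∘ₗ L.toLinearMap).normDet * μH[(d : ℝ)] W)) := by gcongr
    _ = ENNReal.ofReal (1 + ε) ^ d * (ENNReal.ofReal (a * (A ∘ₗ L.toLinearMap).normDet +
          b * (B ∘ₗ L.toLinearMap).normDet) * μH[(d : ℝ)] W) := by
        rw [ENNReal.ofReal_add (mul_nonneg ha (LinearMap.normDet_nonneg _))
          (mul_nonneg hb (LinearMap.normDet_nonneg _)), ENNReal.ofReal_mul ha,
          ENNReal.ofReal_mul hb]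
        ring
    _ ≤ ENNReal.ofReal (1 + ε) ^ d * (ENNReal.ofReal (L.toLinearMap.normDet) *
          μH[(d : ℝ)] W) := by
        gcongr
    _ ≤ ENNReal.ofReal (1 + ε) ^ d * (ENNReal.ofReal ((1 - ε)⁻¹) ^ d *
          μH[(d : ℝ)] (g '' W)) := by gcongr
    _ = ENNReal.ofReal ((1 + ε) * (1 - ε)⁻¹) ^ d * μH[(d : ℝ)] (g '' W) := by
        rw [ENNReal.ofReal_mul (by linarith), mul_pow, mul_assoc]

/-- choice of the precision -/
theorem exists_delta (A B : E →ₗ[ℝ] E) (hA : Function.Injective A) (hB : Function.Injective B)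
    (ε : ℝ) (hε : 0 < ε) (L : EuclideanSpace ℝ (Fin d) →L[ℝ] E) (hL : Function.Injective L) :
    ∃ δ : ℝ≥0, δ ≠ 0 ∧ ∀ (u : E) (w : EuclideanSpace ℝ (Fin d)), ‖u‖ ≤ δ * ‖w‖ →
      ‖u‖ ≤ ε * ‖L w‖ ∧ ‖A u‖ ≤ ε * ‖A (L w)‖ ∧ ‖B u‖ ≤ ε * ‖B (L w)‖ := by
  have one : ∀ C : E →ₗ[ℝ] E, Function.Injective C → ∃ δ : ℝ, 0 < δ ∧
      ∀ (u : E) (w : EuclideanSpace ℝ (Fin d)), ‖u‖ ≤ δ * ‖w‖ → ‖C u‖ ≤ ε * ‖C (L w)‖ := by
    intro C hC
    have hinj : Function.Injective (C ∘ₗ L.toLinearMap) := hC.comp hL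
    obtain ⟨K, hK, hanti⟩ := LinearMap.exists_antilipschitzWith (C ∘ₗ L.toLinearMap)
      (LinearMap.ker_eq_bot.2 hinj)
    let C' : E →L[ℝ] E := C.toContinuousLinearMap
    refine ⟨ε / ((K : ℝ) * (‖C'‖ + 1)), by positivity, ?_⟩
    intro u w h
    have h1 : ‖w‖ ≤ K * ‖C (L w)‖ := by
      have := hanti.le_mul_norm (map_zero _) w
      simpa using this
    have h2 : ‖C u‖ ≤ ‖C'‖ * ‖u‖ := C'.le_opNorm u
    have h3 : ‖C'‖ * ‖u‖ ≤ (‖C'‖ + 1) * ‖u‖ := by
      have := norm_nonneg u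
      nlinarith
    calc ‖C u‖ ≤ (‖C'‖ + 1) * ‖u‖ := h2.trans h3
      _ ≤ (‖C'‖ + 1) * (ε / ((K : ℝ) * (‖C'‖ + 1)) * ‖w‖) := by gcongr
      _ ≤ (‖C'‖ + 1) * (ε / ((K : ℝ) * (‖C'‖ + 1)) * (K * ‖C (L w)‖)) := by gcongr
      _ = ε * ‖C (L w)‖ := by
        have hK' : (K : ℝ) ≠ 0 := by exact_mod_cast hK.ne'
        have : ‖C'‖ + 1 ≠ 0 := by positivity
        field_simp
  obtain ⟨δ0, h0, h0'⟩ := one LinearMap.id Function.injective_id
  obtain ⟨δ1, h1, h1'⟩ := one A hA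
  obtain ⟨δ2, h2, h2'⟩ := one B hB
  refine ⟨(min δ0 (min δ1 δ2)).toNNReal, ?_, ?_⟩
  · simp [h0, h1, h2]
  · intro u w h
    have hm : 0 < min δ0 (min δ1 δ2) := lt_min h0 (lt_min h1 h2)
    rw [Real.coe_toNNReal _ hm.le] at h
    have hw := norm_nonneg w
    refine ⟨?_, ?_, ?_⟩
    · have := h0' u w (h.trans (mul_le_mul_of_nonneg_right (min_le_left _ _) hw))
      simpa using this
    · exact h1' u w (h.trans (mul_le_mul_of_nonneg_right
        ((min_le_right _ _).trans (min_le_left _ _)) hw))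
    · exact h2' u w (h.trans (mul_le_mul_of_nonneg_right
        ((min_le_right _ _).trans (min_le_right _ _)) hw))

theorem hausdorff_nondiff (g : EuclideanSpace ℝ (Fin d) → E) (K : ℝ≥0)
    (hg : LipschitzWith K g) : μH[(d : ℝ)] (g '' {x | ¬ DifferentiableAt ℝ g x}) = 0 := by
  have h1 : ∀ᵐ x ∂(μH[(finrank ℝ (EuclideanSpace ℝ (Fin d)) : ℝ)] :
      Measure (EuclideanSpace ℝ (Fin d))), DifferentiableAt ℝ g x := hg.ae_differentiableAt
  rw [ae_iff, finrank_cast] at h1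
  have h2 := hg.hausdorffMeasure_image_le (d := (d : ℝ)) (by positivity)
    {x | ¬ DifferentiableAt ℝ g x}
  rw [h1, mul_zero] at h2
  exact le_antisymm h2 bot_le

theorem area_single_eps (A B : E →ₗ[ℝ] E) (hA : Function.Injective A)
    (hB : Function.Injective B) (a b : ℝ)
    (ha : 0 ≤ a) (hb : 0 ≤ b)
    (hJ : ∀ L : EuclideanSpace ℝ (Fin d) →ₗ[ℝ] E, Function.Injective L →
      a * (A ∘ₗ L).normDet + b * (B ∘ₗ L).normDet ≤ L.normDet)
    (g : EuclideanSpace ℝ (Fin d) → E) (K : ℝ≥0) (hg : LipschitzWith K g)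
    (S : Set E) (hS : MeasurableSet S) (hSg : S ⊆ Set.range g) (ε : ℝ) (hε : 0 < ε)
    (hε1 : ε < 1) :
    ENNReal.ofReal a * μH[(d : ℝ)] (A '' S) + ENNReal.ofReal b * μH[(d : ℝ)] (B '' S) ≤
      ENNReal.ofReal ((1 + ε) * (1 - ε)⁻¹) ^ d * μH[(d : ℝ)] S := by
  classical
  set I : Set (EuclideanSpace ℝ (Fin d)) :=
    {x | DifferentiableAt ℝ g x ∧ Function.Injective (fderiv ℝ g x)} with hI
  have hnull : μH[(d : ℝ)] (g '' Iᶜ) = 0 := by
    have hsub : g '' Iᶜ ⊆ (g '' {x | ¬ DifferentiableAt ℝ g x}) ∪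
        (g '' {x | DifferentiableAt ℝ g x ∧ ¬ Function.Injective (fderiv ℝ g x)}) := by
      rintro _ ⟨x, hx, rfl⟩
      by_cases h : DifferentiableAt ℝ g x
      · right
        refine ⟨x, ⟨h, fun h2 => hx ⟨h, h2⟩⟩, rfl⟩
      · left
        exact ⟨x, h, rfl⟩
    exact measure_mono_null hsub (measure_union_null (hausdorff_nondiff g K hg)
      (hausdorff_image_noninj g K hg))
  have hnullC : ∀ (C : E →ₗ[ℝ] E) (T : Set E), T ⊆ g '' Iᶜ → μH[(d : ℝ)] (C '' T) = 0 := by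
    intro C T hT
    have hT0 : μH[(d : ℝ)] T = 0 := measure_mono_null hT hnull
    have h2 := C.toContinuousLinearMap.lipschitz.hausdorffMeasure_image_le (d := (d : ℝ))
      (by positivity) T
    rw [hT0, mul_zero] at h2
    exact le_antisymm h2 bot_le
  -- precision function
  have hr : ∀ L : EuclideanSpace ℝ (Fin d) →L[ℝ] E, ∃ δ : ℝ≥0, δ ≠ 0 ∧
      (Function.Injective L → ∀ (u : E) (w : EuclideanSpace ℝ (Fin d)), ‖u‖ ≤ δ * ‖w‖ →
      ‖u‖ ≤ ε * ‖L w‖ ∧ ‖A u‖ ≤ ε * ‖A (L w)‖ ∧ ‖B u‖ ≤ ε * ‖B (L w)‖) := by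
    intro L
    by_cases hL : Function.Injective L
    · obtain ⟨δ, h1, h2⟩ := exists_delta A B hA hB ε hε L hL
      exact ⟨δ, h1, fun _ => h2⟩
    · exact ⟨1, one_ne_zero, fun h => absurd h hL⟩
  choose r hr0 hr1 using hr
  obtain ⟨t, L, -, -, hcov, happ, hLI⟩ :=
    exists_partition_approximatesLinearOn_of_hasFDerivWithinAt g I (fderiv ℝ g)
      (fun x hx => hx.1.hasFDerivAt.hasFDerivWithinAt) r (fun L => hr0 L)
  let V : ℕ → Set (EuclideanSpace ℝ (Fin d)) := fun n => closure (I ∩ t n)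
  have happV : ∀ n, ∀ x ∈ V n, ∀ y ∈ V n, ‖g x - g y - L n (x - y)‖ ≤ r (L n) * ‖x - y‖ := by
    intro n x hx y hy
    have hcont : Continuous fun p : EuclideanSpace ℝ (Fin d) × EuclideanSpace ℝ (Fin d) =>
        (r (L n) : ℝ) * ‖p.1 - p.2‖ - ‖g p.1 - g p.2 - L n (p.1 - p.2)‖ := by
      have hgc := hg.continuous
      fun_prop
    have hcl : IsClosed {p : EuclideanSpace ℝ (Fin d) × EuclideanSpace ℝ (Fin d) |
        0 ≤ (r (L n) : ℝ) * ‖p.1 - p.2‖ - ‖g p.1 - g p.2 - L n (p.1 - p.2)‖} :=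
      isClosed_le continuous_const hcont
    have hsub : (I ∩ t n) ×ˢ (I ∩ t n) ⊆
        {p : EuclideanSpace ℝ (Fin d) × EuclideanSpace ℝ (Fin d) |
        0 ≤ (r (L n) : ℝ) * ‖p.1 - p.2‖ - ‖g p.1 - g p.2 - L n (p.1 - p.2)‖} := by
      rintro ⟨p, q⟩ ⟨hp, hq⟩
      have := happ n p hp q hq
      simp only [Set.mem_ofPred_eq]
      linarith
    have h2 := closure_minimal hsub hcl
    rw [closure_prod_eq] at h2
    have h3 := h2 (Set.mk_mem_prod hx hy)
    simp only [Set.mem_ofPred_eq] at h3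
    linarith
  let Y : ℕ → Set E := fun n => g '' V n
  have hYm : ∀ n, MeasurableSet (Y n) := by
    intro n
    have : Y n = ⋃ k : ℕ, g '' (V n ∩ Metric.closedBall 0 k) := by
      rw [← Set.image_iUnion, ← Set.inter_iUnion, Metric.iUnion_closedBall_nat, Set.inter_univ]
    rw [this]
    refine MeasurableSet.iUnion fun k => ?_
    exact (((isCompact_closedBall (0 : EuclideanSpace ℝ (Fin d)) k).inter_left
      isClosed_closure).image hg.continuous).isClosed.measurableSet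
  let Sn : ℕ → Set E := fun n => S ∩ disjointed Y n
  have hSnm : ∀ n, MeasurableSet (Sn n) := fun n => hS.inter (MeasurableSet.disjointed hYm n)
  have hSnd : Pairwise (Function.onFun Disjoint Sn) := by
    intro i j hij
    exact (disjoint_disjointed Y hij).mono Set.inter_subset_right Set.inter_subset_right
  have hSnU : (⋃ n, Sn n) = S ∩ ⋃ n, Y n := by
    rw [← Set.inter_iUnion, iUnion_disjointed]
  have hIY : g '' I ⊆ ⋃ n, Y n := by
    rintro _ ⟨x, hx, rfl⟩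
    obtain ⟨n, hn⟩ := Set.mem_iUnion.1 (hcov hx)
    exact Set.mem_iUnion.2 ⟨n, ⟨x, subset_closure ⟨hx, hn⟩, rfl⟩⟩
  have hrest : S \ ⋃ n, Y n ⊆ g '' Iᶜ := by
    rintro y ⟨hy, hyn⟩
    obtain ⟨x, rfl⟩ := hSg hy
    refine ⟨x, ?_, rfl⟩
    intro hx
    exact hyn (hIY ⟨x, hx, rfl⟩)
  -- pieces
  have piece : ∀ n, ENNReal.ofReal a * μH[(d : ℝ)] (A '' Sn n) +
      ENNReal.ofReal b * μH[(d : ℝ)] (B '' Sn n) ≤
      ENNReal.ofReal ((1 + ε) * (1 - ε)⁻¹) ^ d * μH[(d : ℝ)] (Sn n) := by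
    intro n
    rcases I.eq_empty_or_nonempty with hIe | hIne
    · have hVe : V n = ∅ := by simp [V, hIe]
      have hYe : Y n = ∅ := by simp [Y, hVe]
      have : Sn n = ∅ := by
        apply Set.eq_empty_of_subset_empty
        intro z hz
        have := disjointed_subset Y n hz.2
        rw [hYe] at this
        exact this
      simp [this]
    · obtain ⟨y0, hy0, hLy⟩ := hLI hIne n
      have hLinj : Function.Injective (L n) := by rw [hLy]; exact hy0.2
      have hWS : g '' (V n ∩ g ⁻¹' Sn n) = Sn n := by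
        rw [Set.image_inter_preimage]
        apply Set.inter_eq_right.2
        intro z hz
        exact disjointed_subset Y n hz.2
      have key := area_piece A B a b ha hb g (L n) (hJ (L n).toLinearMap hLinj) ε hε hε1
        (V n ∩ g ⁻¹' Sn n)
        (fun x hx y hy => (hr1 (L n) hLinj _ _ (happV n x hx.1 y hy.1)).1)
        (fun x hx y hy => (hr1 (L n) hLinj _ _ (happV n x hx.1 y hy.1)).2.1)
        (fun x hx y hy => (hr1 (L n) hLinj _ _ (happV n x hx.1 y hy.1)).2.2)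
      rw [hWS] at key
      exact key
  have sub : ∀ C : E →ₗ[ℝ] E, μH[(d : ℝ)] (C '' S) ≤ ∑' n, μH[(d : ℝ)] (C '' Sn n) := by
    intro C
    have h1 : C '' S ⊆ (C '' (S \ ⋃ n, Y n)) ∪ ⋃ n, C '' Sn n := by
      have h0 : (⋃ n, C '' Sn n) = C '' (S ∩ ⋃ n, Y n) := by
        rw [← Set.image_iUnion, hSnU]
      rw [h0, ← Set.image_union]
      apply Set.image_mono
      intro z hz
      by_cases h : z ∈ ⋃ n, Y n
      · right; exact ⟨hz, h⟩
      · left; exact ⟨hz, h⟩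
    refine (measure_mono h1).trans ((measure_union_le _ _).trans ?_)
    rw [hnullC C _ hrest, zero_add]
    exact measure_iUnion_le _
  calc ENNReal.ofReal a * μH[(d : ℝ)] (A '' S) + ENNReal.ofReal b * μH[(d : ℝ)] (B '' S)
      ≤ ENNReal.ofReal a * (∑' n, μH[(d : ℝ)] (A '' Sn n)) +
        ENNReal.ofReal b * (∑' n, μH[(d : ℝ)] (B '' Sn n)) := by
        gcongr
        · exact sub A
        · exact sub B
    _ = ∑' n, (ENNReal.ofReal a * μH[(d : ℝ)] (A '' Sn n) +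
        ENNReal.ofReal b * μH[(d : ℝ)] (B '' Sn n)) := by
        rw [← ENNReal.tsum_mul_left, ← ENNReal.tsum_mul_left, ENNReal.tsum_add]
    _ ≤ ∑' n, ENNReal.ofReal ((1 + ε) * (1 - ε)⁻¹) ^ d * μH[(d : ℝ)] (Sn n) :=
        ENNReal.tsum_le_tsum piece
    _ = ENNReal.ofReal ((1 + ε) * (1 - ε)⁻¹) ^ d * ∑' n, μH[(d : ℝ)] (Sn n) :=
        ENNReal.tsum_mul_left
    _ = ENNReal.ofReal ((1 + ε) * (1 - ε)⁻¹) ^ d * μH[(d : ℝ)] (⋃ n, Sn n) := by
        rw [measure_iUnion hSnd hSnm]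
    _ ≤ ENNReal.ofReal ((1 + ε) * (1 - ε)⁻¹) ^ d * μH[(d : ℝ)] S := by
        gcongr
        rw [hSnU]
        exact Set.inter_subset_left

theorem area_single (A B : E →ₗ[ℝ] E) (hA : Function.Injective A)
    (hB : Function.Injective B) (a b : ℝ)
    (ha : 0 ≤ a) (hb : 0 ≤ b)
    (hJ : ∀ L : EuclideanSpace ℝ (Fin d) →ₗ[ℝ] E, Function.Injective L →
      a * (A ∘ₗ L).normDet + b * (B ∘ₗ L).normDet ≤ L.normDet)
    (g : EuclideanSpace ℝ (Fin d) → E) (K : ℝ≥0) (hg : LipschitzWith K g)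
    (S : Set E) (hS : MeasurableSet S) (hSg : S ⊆ Set.range g) :
    ENNReal.ofReal a * μH[(d : ℝ)] (A '' S) + ENNReal.ofReal b * μH[(d : ℝ)] (B '' S) ≤
      μH[(d : ℝ)] S := by
  have h1 : Filter.Tendsto (fun k : ℕ => ENNReal.ofReal ((1 + 1 / ((k : ℝ) + 2)) *
      (1 - 1 / ((k : ℝ) + 2))⁻¹) ^ d * μH[(d : ℝ)] S) Filter.atTop
      (nhds (ENNReal.ofReal ((1 + 0) * (1 - 0)⁻¹) ^ d * μH[(d : ℝ)] S)) := by
    have h0 : Filter.Tendsto (fun k : ℕ => 1 / ((k : ℝ) + 2)) Filter.atTop (nhds 0) := by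
      have h := tendsto_one_div_add_atTop_nhds_zero_nat (𝕜 := ℝ)
      have h2 := h.comp (Filter.tendsto_add_atTop_nat 1)
      refine h2.congr fun k => ?_
      simp only [Function.comp_apply]
      push_cast
      ring
    have h2 : Filter.Tendsto (fun k : ℕ => ENNReal.ofReal ((1 + 1 / ((k : ℝ) + 2)) *
      (1 - 1 / ((k : ℝ) + 2))⁻¹) ^ d) Filter.atTop
      (nhds (ENNReal.ofReal ((1 + 0) * (1 - 0)⁻¹) ^ d)) := by
      refine ENNReal.Tendsto.pow ?_
      refine ENNReal.tendsto_ofReal ?_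
      refine (tendsto_const_nhds.add h0).mul ?_
      refine (tendsto_const_nhds.sub h0).inv₀ (by norm_num)
    refine ENNReal.Tendsto.mul_const h2 ?_
    left
    simp
  have h2 : ENNReal.ofReal ((1 + 0) * (1 - 0)⁻¹) ^ d * μH[(d : ℝ)] S = μH[(d : ℝ)] S := by
    simp
  rw [h2] at h1
  refine ge_of_tendsto' h1 fun k => ?_
  have hk : (0 : ℝ) < (k : ℝ) + 2 := by positivity
  exact area_single_eps A B hA hB a b ha hb hJ g K hg S hS hSg _ (by positivity) (by
    rw [div_lt_one hk]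
    have : (0 : ℝ) ≤ k := Nat.cast_nonneg k
    linarith)

end

theorem area_avg {E : Type*} [NormedAddCommGroup E] [InnerProductSpace ℝ E]
    [FiniteDimensional ℝ E] [MeasurableSpace E] [BorelSpace E] {d : ℕ} {ι : Type*} [Finite ι]
    (A B : E →ₗ[ℝ] E) (hA : Function.Injective A) (hB : Function.Injective B) (a b : ℝ)
    (ha : 0 ≤ a) (hb : 0 ≤ b)
    (hJ : ∀ L : EuclideanSpace ℝ (Fin d) →ₗ[ℝ] E, Function.Injective L →
      a * (A ∘ₗ L).normDet + b * (B ∘ₗ L).normDet ≤ L.normDet)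
    (g : ι → EuclideanSpace ℝ (Fin d) → E) (hg : ∀ i, ∃ K : ℝ≥0, LipschitzWith K (g i))
    (S : Set E) (hS : MeasurableSet S) (hSg : S ⊆ ⋃ i, Set.range (g i)) :
    ENNReal.ofReal a * μH[(d : ℝ)] (A '' S) + ENNReal.ofReal b * μH[(d : ℝ)] (B '' S) ≤
      μH[(d : ℝ)] S := by
  classical
  have := Fintype.ofFinite ι
  have main : ∀ s : Finset ι, ∀ S : Set E, MeasurableSet S → S ⊆ ⋃ i ∈ s, Set.range (g i) →
      ENNReal.ofReal a * μH[(d : ℝ)] (A '' S) + ENNReal.ofReal b * μH[(d : ℝ)] (B '' S) ≤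
      μH[(d : ℝ)] S := by
    intro s
    induction s using Finset.induction_on with
    | empty =>
      intro S _ hS
      have : S = ∅ := by
        apply Set.eq_empty_of_subset_empty
        simpa using hS
      simp [this]
    | insert i s hi ih =>
      intro S hSm hS
      obtain ⟨K, hK⟩ := hg i
      have hR : MeasurableSet (Set.range (g i)) := by
        have : Set.range (g i) = ⋃ k : ℕ, g i '' (Metric.closedBall 0 k) := by
          rw [← Set.image_iUnion, Metric.iUnion_closedBall_nat, Set.image_univ]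
        rw [this]
        refine MeasurableSet.iUnion fun k => ?_
        exact ((isCompact_closedBall (0 : EuclideanSpace ℝ (Fin d)) k).image
          hK.continuous).isClosed.measurableSet
      have h1 := area_single A B hA hB a b ha hb hJ (g i) K hK (S ∩ Set.range (g i))
        (hSm.inter hR) Set.inter_subset_right
      have h2 := ih (S \ Set.range (g i)) (hSm.diff hR) (by
        rintro x ⟨hx, hxi⟩
        have := hS hx
        simp only [Finset.mem_insert, Set.iUnion_iUnion_eq_or_left, Set.mem_union] at this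
        rcases this with h | h
        · exact absurd h hxi
        · exact h)
      have h3 : ∀ C : E →ₗ[ℝ] E, μH[(d : ℝ)] (C '' S) ≤
          μH[(d : ℝ)] (C '' (S ∩ Set.range (g i))) + μH[(d : ℝ)] (C '' (S \ Set.range (g i))) := by
        intro C
        rw [← Set.inter_union_sdiff S (Set.range (g i)), Set.image_union]
        refine (measure_union_le _ _).trans ?_
        rw [Set.inter_union_sdiff]
      calc ENNReal.ofReal a * μH[(d : ℝ)] (A '' S) + ENNReal.ofReal b * μH[(d : ℝ)] (B '' S)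
          ≤ ENNReal.ofReal a * (μH[(d : ℝ)] (A '' (S ∩ Set.range (g i))) +
              μH[(d : ℝ)] (A '' (S \ Set.range (g i)))) +
            ENNReal.ofReal b * (μH[(d : ℝ)] (B '' (S ∩ Set.range (g i))) +
              μH[(d : ℝ)] (B '' (S \ Set.range (g i)))) := by
            gcongr
            · exact h3 A
            · exact h3 B
        _ = (ENNReal.ofReal a * μH[(d : ℝ)] (A '' (S ∩ Set.range (g i))) +
              ENNReal.ofReal b * μH[(d : ℝ)] (B '' (S ∩ Set.range (g i)))) +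
            (ENNReal.ofReal a * μH[(d : ℝ)] (A '' (S \ Set.range (g i))) +
              ENNReal.ofReal b * μH[(d : ℝ)] (B '' (S \ Set.range (g i)))) := by ring
        _ ≤ μH[(d : ℝ)] (S ∩ Set.range (g i)) + μH[(d : ℝ)] (S \ Set.range (g i)) :=
            add_le_add h1 h2
        _ = μH[(d : ℝ)] S := measure_inter_add_sdiff _ hR
  exact main Finset.univ S hS (by simpa using hSg)

end H56Mono
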