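import Mathlib

open MeasureTheory Measure Module
open scoped InnerProductSpace RealInnerProductSpace

namespace H56Mono

/-- Cauchy-Schwarz for a positive semidefinite matrix. -/
theorem posSemidef_cs {ι : Type*} [Fintype ι] (N : Matrix ι ι ℝ) (hN : N.PosSemidef)
    (x y : ι → ℝ) :
    (x ⬝ᵥ (N.mulVec y)) ^ 2 ≤ (x ⬝ᵥ (N.mulVec x)) * (y ⬝ᵥ (N.mulVec y)) := by
  have hsym : ∀ u w : ι → ℝ, u ⬝ᵥ (N.mulVec w) = w ⬝ᵥ (N.mulVec u) := by
    intro u w
    have h1 : N.transpose = N := by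
      have := hN.1
      simpa [Matrix.IsHermitian, Matrix.conjTranspose_eq_transpose_of_trivial] using this
    calc u ⬝ᵥ (N.mulVec w) = (Matrix.vecMul u N) ⬝ᵥ w := Matrix.dotProduct_mulVec _ _ _
      _ = (N.transpose.mulVec u) ⬝ᵥ w := by rw [Matrix.mulVec_transpose]
      _ = w ⬝ᵥ (N.mulVec u) := by rw [h1, dotProduct_comm]
  have key : ∀ t : ℝ, 0 ≤ (y ⬝ᵥ (N.mulVec y)) * (t * t) + (2 * (x ⬝ᵥ (N.mulVec y))) * t
      + x ⬝ᵥ (N.mulVec x) := by
    intro t
    have h0 := hN.dotProduct_mulVec_nonneg (x + t • y)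
    have h1 : star (x + t • y) ⬝ᵥ (N.mulVec (x + t • y)) =
        (y ⬝ᵥ (N.mulVec y)) * (t * t) + (2 * (x ⬝ᵥ (N.mulVec y))) * t
      + x ⬝ᵥ (N.mulVec x) := by
      have hs : star (x + t • y) = x + t • y := by
        ext i; simp
      rw [hs, Matrix.mulVec_add, Matrix.mulVec_smul, dotProduct_add, add_dotProduct,
        add_dotProduct, dotProduct_smul, dotProduct_smul, smul_dotProduct, smul_dotProduct,
        hsym y x]
      simp only [smul_eq_mul]
      ring
    rw [h1] at h0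
    exact h0
  have := discrim_le_zero key
  unfold discrim at this
  nlinarith [this]

theorem det_gram_perturb {E : Type*} [NormedAddCommGroup E] [InnerProductSpace ℝ E]
    {ι : Type*} [Fintype ι] [DecidableEq ι] (v : ι → E)
    (hv : LinearIndependent ℝ v) (l l' : E →ₗ[ℝ] ℝ) :
    ∃ c : ℝ, ∀ (T : E →ₗ[ℝ] E) (h : ℝ),
      (∀ z w, ⟪T z, T w⟫ = ⟪z, w⟫ + h * (l z * l' w + l' z * l w)) →
      (Matrix.gram ℝ (fun i => T (v i))).det ≤ (Matrix.gram ℝ v).det * (1 + 2 * c * h) := by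
  classical
  set M := Matrix.gram ℝ v with hM
  have hpd : M.PosDef := Matrix.posDef_gram_of_linearIndependent hv
  have hdet : 0 < M.det := hpd.det_pos
  have hunit : IsUnit M.det := (ne_of_gt hdet).isUnit
  have hinv : (M⁻¹).PosSemidef := hpd.inv.posSemidef
  set a : ι → ℝ := fun i => l (v i) with ha
  set b : ι → ℝ := fun i => l' (v i) with hb
  refine ⟨b ⬝ᵥ (M⁻¹.mulVec a), ?_⟩
  intro T h hT
  have hcs := posSemidef_cs M⁻¹ hinv b a
  have hsym : a ⬝ᵥ (M⁻¹.mulVec b) = b ⬝ᵥ (M⁻¹.mulVec a) := by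
    have h1 : (M⁻¹).transpose = M⁻¹ := by
      have := hinv.1
      simpa [Matrix.IsHermitian, Matrix.conjTranspose_eq_transpose_of_trivial] using this
    calc a ⬝ᵥ (M⁻¹.mulVec b) = (Matrix.vecMul a M⁻¹) ⬝ᵥ b := Matrix.dotProduct_mulVec _ _ _
      _ = (M⁻¹.transpose.mulVec a) ⬝ᵥ b := by rw [Matrix.mulVec_transpose]
      _ = b ⬝ᵥ (M⁻¹.mulVec a) := by rw [h1, dotProduct_comm]
  let U : Matrix ι (Fin 2) ℝ := Matrix.of fun i j => if j = 0 then a i else b i
  let V : Matrix (Fin 2) ι ℝ := Matrix.of fun j i => if j = 0 then b i else a i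
  have hG : Matrix.gram ℝ (fun i => T (v i)) = M * (1 + (h • (M⁻¹ * U)) * V) := by
    rw [mul_add, mul_one, Matrix.smul_mul, Matrix.mul_smul, ← Matrix.mul_assoc,
      ← Matrix.mul_assoc, Matrix.mul_nonsing_inv _ hunit, Matrix.one_mul]
    ext i j
    rw [Matrix.gram_apply, hT, Matrix.add_apply, Matrix.smul_apply, Matrix.mul_apply]
    simp [U, V, hM, ha, hb, Fin.sum_univ_two]
  rw [hG, Matrix.det_mul, Matrix.det_one_add_mul_comm]
  apply mul_le_mul_of_nonneg_left _ hdet.le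
  have h2 : V * (h • (M⁻¹ * U)) = h • (V * M⁻¹ * U) := by
    rw [Matrix.mul_smul, Matrix.mul_assoc]
  have entry : ∀ p q, (V * M⁻¹ * U) p q = (fun i => V p i) ⬝ᵥ (M⁻¹.mulVec (fun i => U i q)) := by
    intro p q
    rw [Matrix.mul_assoc, Matrix.mul_apply]
    simp only [dotProduct, Matrix.mulVec, Matrix.mul_apply]
  rw [h2, Matrix.det_fin_two]
  simp only [Matrix.add_apply, Matrix.smul_apply, entry, smul_eq_mul]
  have hV0 : (fun i => V 0 i) = b := by ext i; simp [V]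
  have hV1 : (fun i => V 1 i) = a := by ext i; simp [V]
  have hU0 : (fun i => U i 0) = a := by ext i; simp [U]
  have hU1 : (fun i => U i 1) = b := by ext i; simp [U]
  rw [hV0, hV1, hU0, hU1, hsym]
  simp only [Matrix.one_apply_eq]
  have h01 : (1 : Matrix (Fin 2) (Fin 2) ℝ) 0 1 = 0 := by simp
  have h10 : (1 : Matrix (Fin 2) (Fin 2) ℝ) 1 0 = 0 := by simp
  rw [h01, h10]
  nlinarith [mul_nonneg (sq_nonneg h) (sub_nonneg.2 hcs)]

theorem normDet_avg {E U : Type*} [NormedAddCommGroup E] [InnerProductSpace ℝ E]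
    [FiniteDimensional ℝ E] [NormedAddCommGroup U] [InnerProductSpace ℝ U]
    [FiniteDimensional ℝ U] (l l' : E →ₗ[ℝ] ℝ) (A B : E →ₗ[ℝ] E) (x y a b : ℝ)
    (ha : 0 ≤ a) (hb : 0 ≤ b) (hab : a + b = 1) (hxy : a * x + b * y = 0)
    (hA : ∀ z w, ⟪A z, A w⟫ = ⟪z, w⟫ + x * (l z * l' w + l' z * l w))
    (hB : ∀ z w, ⟪B z, B w⟫ = ⟪z, w⟫ + y * (l z * l' w + l' z * l w))
    (L : U →ₗ[ℝ] E) (hL : Function.Injective L) :
    a * (A ∘ₗ L).normDet + b * (B ∘ₗ L).normDet ≤ L.normDet := by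
  classical
  let u := stdOrthonormalBasis ℝ U
  have hli : LinearIndependent ℝ (fun i => L (u i)) := by
    have := u.toBasis.linearIndependent
    have h2 := this.map' L (LinearMap.ker_eq_bot.2 hL)
    have h3 : (fun i => L (u i)) = ⇑L ∘ ⇑u.toBasis := by
      funext i; simp
    rw [h3]
    exact h2
  obtain ⟨c, hc⟩ := det_gram_perturb (fun i => L (u i)) hli l l'
  have h0 : L.normDet ^ 2 = (Matrix.gram ℝ (fun i => L (u i))).det := by
    have := L.normDet_sq_eq_det_gram u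
    simpa using this
  have h1 : (A ∘ₗ L).normDet ^ 2 = (Matrix.gram ℝ (fun i => A (L (u i)))).det := by
    have := (A ∘ₗ L).normDet_sq_eq_det_gram u
    simpa using this
  have h2 : (B ∘ₗ L).normDet ^ 2 = (Matrix.gram ℝ (fun i => B (L (u i)))).det := by
    have := (B ∘ₗ L).normDet_sq_eq_det_gram u
    simpa using this
  have hcA := hc A x hA
  have hcB := hc B y hB
  rw [← h0, ← h1] at hcA
  rw [← h0, ← h2] at hcB
  have hnn := L.normDet_nonneg
  have hAn := (A ∘ₗ L).normDet_nonneg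
  have hBn := (B ∘ₗ L).normDet_nonneg
  have hpos : 0 < L.normDet := by
    rcases hnn.lt_or_eq with h | h
    · exact h
    · exfalso
      have h3 := (LinearMap.normDet_eq_zero_iff_ker_ne_bot (f := L)).1 h.symm
      exact h3 (LinearMap.ker_eq_bot.2 hL)
  set D := L.normDet with hD
  -- sqrt bound
  have key : ∀ (N t : ℝ), 0 ≤ N → N ^ 2 ≤ D ^ 2 * (1 + 2 * c * t) → N ≤ D * (1 + c * t) := by
    intro N t hN h
    have h4 : 0 ≤ 1 + 2 * c * t := by
      by_contra hcon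
      push Not at hcon
      nlinarith [sq_nonneg N, mul_pos hpos hpos]
    have h5 : 0 ≤ 1 + c * t := by linarith
    have h6 : N ^ 2 ≤ (D * (1 + c * t)) ^ 2 := by
      refine h.trans ?_
      rw [mul_pow]
      apply mul_le_mul_of_nonneg_left _ (sq_nonneg D)
      nlinarith [sq_nonneg (c * t)]
    exact le_of_sq_le_sq h6 (mul_nonneg hpos.le h5)
  have kA := key _ _ hAn hcA
  have kB := key _ _ hBn hcB
  calc a * (A ∘ₗ L).normDet + b * (B ∘ₗ L).normDet
      ≤ a * (D * (1 + c * x)) + b * (D * (1 + c * y)) := by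
        gcongr
    _ = D * ((a + b) + c * (a * x + b * y)) := by ring
    _ = D := by rw [hab, hxy]; ring

end H56Mono
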