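import Pool.Agent.H56.Mono.Defs
import Pool.Agent.H56.Mono.Det
import Pool.Agent.H56.Mono.Area

open MeasureTheory Measure Module
open scoped InnerProductSpace RealInnerProductSpace NNReal ENNReal

namespace H56Mono

open scoped MatrixOrder ComplexOrder Matrix.Norms.L2Operator in
theorem exists_factor {k : Type*} [Fintype k] [DecidableEq k] (G : Matrix k k ℝ)
    (hG : G.PosSemidef) : ∃ N : Matrix k k ℝ, G = N.conjTranspose * N := by
  obtain ⟨B, hB⟩ := CStarAlgebra.nonneg_iff_eq_star_mul_self.mp hG.nonneg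
  exact ⟨B, by rw [hB, Matrix.star_eq_conjTranspose]⟩

/-- A positive semidefinite symmetric form on `R^n` is of the form `<T z, T w>`. -/
theorem exists_form {n : ℕ} (B : Eu n →ₗ[ℝ] Eu n →ₗ[ℝ] ℝ) (hsym : ∀ z w, B z w = B w z)
    (hpos : ∀ z, 0 ≤ B z z) : ∃ T : Eu n →ₗ[ℝ] Eu n, ∀ z w, ⟪T z, T w⟫ = B z w := by
  classical
  let e : Fin n → Eu n := fun i => EuclideanSpace.basisFun (Fin n) ℝ i
  have hz : ∀ z : Eu n, z = ∑ i, z i • e i := by
    intro z
    have := (EuclideanSpace.basisFun (Fin n) ℝ).sum_repr z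
    simp only [EuclideanSpace.basisFun_repr] at this
    exact this.symm
  have hB : ∀ z w : Eu n, B z w = ∑ i, ∑ j, z i * w j * B (e i) (e j) := by
    intro z w
    conv_lhs => rw [hz z, hz w]
    simp only [_root_.map_sum, _root_.map_smul, LinearMap.sum_apply, LinearMap.smul_apply,
      smul_eq_mul, Finset.mul_sum]
    rw [Finset.sum_comm]
    refine Finset.sum_congr rfl fun i _ => Finset.sum_congr rfl fun j _ => ?_
    ring
  let G : Matrix (Fin n) (Fin n) ℝ := Matrix.of fun i j => B (e i) (e j)
  have hG : G.PosSemidef := by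
    refine Matrix.PosSemidef.of_dotProduct_mulVec_nonneg ?_ ?_
    · ext i j
      simp [G, hsym (e j) (e i)]
    · intro x
      have h1 := hpos (WithLp.toLp 2 x)
      rw [hB] at h1
      have h2 : star x ⬝ᵥ (G.mulVec x) = ∑ i, ∑ j, x i * x j * B (e i) (e j) := by
        simp only [dotProduct, Matrix.mulVec, G, Matrix.of_apply, Pi.star_apply, star_trivial,
          Finset.mul_sum]
        refine Finset.sum_congr rfl fun i _ => Finset.sum_congr rfl fun j _ => ?_
        ring
      rw [h2]
      exact h1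
  obtain ⟨N, hN⟩ := exists_factor G hG
  refine ⟨Matrix.toEuclideanLin N, ?_⟩
  intro z w
  rw [hB z w]
  have hT : ∀ (u : Eu n) (i : Fin n), (Matrix.toEuclideanLin N u) i = ∑ j, N i j * u j := by
    intro u i
    simp [Matrix.toEuclideanLin, Matrix.toLin'_apply, Matrix.mulVec, dotProduct]
  rw [PiLp.inner_apply]
  have hGN : ∀ i j, B (e i) (e j) = ∑ k, N k i * N k j := by
    intro i j
    have : G i j = (N.conjTranspose * N) i j := by rw [hN]
    simpa [G, Matrix.mul_apply] using this
  simp only [hT, hGN]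
  have h1 : ∀ k : Fin n, inner ℝ (∑ j, N k j * z j) (∑ j, N k j * w j) =
      ∑ i, ∑ j, z i * w j * (N k i * N k j) := by
    intro k
    simp only [RCLike.inner_apply, conj_trivial]
    rw [mul_comm, Finset.sum_mul_sum]
    refine Finset.sum_congr rfl fun i _ => Finset.sum_congr rfl fun j _ => ?_
    ring
  rw [Finset.sum_congr rfl fun k _ => h1 k]
  rw [Finset.sum_comm]
  refine Finset.sum_congr rfl fun i _ => ?_
  rw [Finset.sum_comm]
  refine Finset.sum_congr rfl fun j _ => ?_
  rw [Finset.mul_sum]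

/-- Parametrisation of a `d`-plane. -/
theorem exists_param {n d : ℕ} (P : Submodule ℝ (Eu n)) (hP : finrank ℝ P = d) :
    ∃ g : EuclideanSpace ℝ (Fin d) →ₗᵢ[ℝ] Eu n, Set.range g = (P : Set (Eu n)) := by
  let b := (stdOrthonormalBasis ℝ P).reindex (finCongr hP)
  refine ⟨P.subtypeₗᵢ.comp b.repr.symm.toLinearIsometry, ?_⟩
  ext x
  constructor
  · rintro ⟨y, rfl⟩
    simp
  · intro hx
    exact ⟨b.repr ⟨x, hx⟩, by simp⟩

theorem hausdorff_ball_lt_top {d : ℕ} (c : EuclideanSpace ℝ (Fin d)) (r : ℝ) :
    μH[(d : ℝ)] (Metric.closedBall c r) < ⊤ := by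
  have h : (finrank ℝ (EuclideanSpace ℝ (Fin d)) : ℝ) = (d : ℝ) := by simp
  have h2 : (μH[(finrank ℝ (EuclideanSpace ℝ (Fin d)) : ℝ)] : Measure (EuclideanSpace ℝ (Fin d)))
      (Metric.closedBall c r) < ⊤ := (isCompact_closedBall c r).measure_lt_top
  rwa [h] at h2

theorem plane_ball_lt_top {n d : ℕ} (P : Submodule ℝ (Eu n)) (hP : finrank ℝ P = d)
    (c : Eu n) (r : ℝ) : μH[(d : ℝ)] ((P : Set (Eu n)) ∩ Metric.closedBall c r) < ⊤ := by
  obtain ⟨g, hg⟩ := exists_param P hP
  have hsub : (P : Set (Eu n)) ∩ Metric.closedBall c r ⊆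
      g '' (Metric.closedBall (0 : EuclideanSpace ℝ (Fin d)) (‖c‖ + r)) := by
    rintro x ⟨hx, hxr⟩
    rw [← hg] at hx
    obtain ⟨y, rfl⟩ := hx
    refine ⟨y, ?_, rfl⟩
    rw [Metric.mem_closedBall, dist_zero_right]
    have h1 : ‖g y‖ = ‖y‖ := g.norm_map y
    have h2 : dist (g y) c ≤ r := hxr
    rw [dist_eq_norm] at h2
    calc ‖y‖ = ‖g y‖ := h1.symm
      _ = ‖c + (g y - c)‖ := by congr 1; abel
      _ ≤ ‖c‖ + ‖g y - c‖ := norm_add_le _ _
      _ ≤ ‖c‖ + r := by linarith
  refine (measure_mono hsub).trans_lt ?_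
  rw [g.isometry.hausdorffMeasure_image (Or.inl (by positivity))]
  exact hausdorff_ball_lt_top _ _

/-- If `A` is isometric on each of finitely many subspaces and injective, then it does not
decrease the Hausdorff measure of subsets of the union. -/
theorem iso_le {n : ℕ} {ι : Type*} (P : ι → Submodule ℝ (Eu n)) (A : Eu n →ₗ[ℝ] Eu n)
    (hA : Function.Injective A) (hiso : ∀ i, ∀ z ∈ P i, ‖A z‖ = ‖z‖) (d : ℕ)
    (s : Finset ι) : ∀ W : Set (Eu n), W ⊆ ⋃ i ∈ s, (P i : Set (Eu n)) →
      μH[(d : ℝ)] W ≤ μH[(d : ℝ)] (A '' W) := by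
  classical
  induction s using Finset.induction_on with
  | empty =>
    intro W hW
    have : W = ∅ := by
      apply Set.eq_empty_of_subset_empty
      simpa using hW
    simp [this]
  | insert i s hi ih =>
    intro W hW
    have h1 : μH[(d : ℝ)] (W ∩ P i) ≤ μH[(d : ℝ)] (A '' (W ∩ P i)) := by
      have hl : LipschitzOnWith 1 (Function.invFun A) (A '' (W ∩ P i)) := by
        rintro _ ⟨x, hx, rfl⟩ _ ⟨y, hy, rfl⟩
        rw [Function.leftInverse_invFun hA x, Function.leftInverse_invFun hA y]
        have h2 : ‖A (x - y)‖ = ‖x - y‖ := hiso i _ ((P i).sub_mem hx.2 hy.2)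
        rw [map_sub] at h2
        rw [edist_eq_enorm_sub, edist_eq_enorm_sub, enorm_eq_iff_norm_eq.2 h2]
        simp
      have h3 := hl.hausdorffMeasure_image_le (d := (d : ℝ)) (by positivity)
      have h4 : Function.invFun A '' (A '' (W ∩ P i)) = W ∩ P i := by
        rw [Set.image_image]
        simp [Function.leftInverse_invFun hA _]
      rw [h4] at h3
      simpa using h3
    have h2 : μH[(d : ℝ)] (W \ P i) ≤ μH[(d : ℝ)] (A '' (W \ P i)) := by
      apply ih
      rintro x ⟨hx, hxi⟩
      have := hW hx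
      simp only [Finset.mem_insert, Set.iUnion_iUnion_eq_or_left, Set.mem_union] at this
      rcases this with h | h
      · exact absurd h hxi
      · exact h
    have hcl : MeasurableSet (A '' (P i : Set (Eu n))) := by
      have : A '' (P i : Set (Eu n)) = ((P i).map A : Submodule ℝ (Eu n)) := by simp
      rw [this]
      exact (Submodule.closed_of_finiteDimensional _).measurableSet
    calc μH[(d : ℝ)] W ≤ μH[(d : ℝ)] (W ∩ P i) + μH[(d : ℝ)] (W \ P i) :=
          measure_le_inter_add_sdiff _ _ _
      _ ≤ μH[(d : ℝ)] (A '' (W ∩ P i)) + μH[(d : ℝ)] (A '' (W \ P i)) := add_le_add h1 h2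
      _ = μH[(d : ℝ)] (A '' W ∩ A '' P i) + μH[(d : ℝ)] (A '' W \ A '' P i) := by
          rw [Set.image_inter hA, Set.image_sdiff hA]
      _ = μH[(d : ℝ)] (A '' W) := measure_inter_add_sdiff _ hcl

/-- Conjugation of a deformation by a linear isomorphism. -/
theorem IsDeformation.conj {n : ℕ} {f : Eu n → Eu n} (hf : IsDeformation f)
    (e : Eu n ≃L[ℝ] Eu n) : IsDeformation (fun x => e (f (e.symm x))) := by
  obtain ⟨⟨K, hK⟩, c, r, h1, h2⟩ := hf
  refine ⟨⟨_, e.lipschitz.comp (hK.comp e.symm.lipschitz)⟩, ?_⟩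
  obtain ⟨R, hR⟩ := ((isCompact_closedBall c r).image e.continuous).isBounded.subset_closedBall 0
  refine ⟨0, R, ?_, ?_⟩
  · intro x hx
    have hx' : e.symm x ∉ Metric.closedBall c r := by
      intro h
      exact hx (hR ⟨_, h, by simp⟩)
    simp only
    rw [h1 _ hx']
    simp
  · intro x hx
    by_cases h : e.symm x ∈ Metric.closedBall c r
    · exact hR ⟨_, h2 _ h, rfl⟩
    · simp only
      rw [h1 _ h]
      simpa using hx

theorem measurable_image {n : ℕ} {f : Eu n → Eu n} (hf : Continuous f) {S : Set (Eu n)}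
    (hS : IsClosed S) : MeasurableSet (f '' S) := by
  have : f '' S = ⋃ k : ℕ, f '' (S ∩ Metric.closedBall 0 k) := by
    rw [← Set.image_iUnion, ← Set.inter_iUnion, Metric.iUnion_closedBall_nat, Set.inter_univ]
  rw [this]
  refine MeasurableSet.iUnion fun k => ?_
  exact (((isCompact_closedBall (0 : Eu n) k).inter_left hS).image hf).isClosed.measurableSet

theorem one_step {n d : ℕ} {ι : Type*} [Finite ι]
    (P : ι → Submodule ℝ (Eu n)) (hP : ∀ i, finrank ℝ (P i) = d)
    (l l' : Eu n →ₗ[ℝ] ℝ) (hl : ∀ i, ∀ z ∈ P i, l z * l' z = 0)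
    (A B : Eu n →ₗ[ℝ] Eu n) (x y a b : ℝ)
    (ha : 0 ≤ a) (hb : 0 ≤ b) (hab : a + b = 1) (hxy : a * x + b * y = 0)
    (hA : ∀ z w, ⟪A z, A w⟫ = ⟪z, w⟫ + x * (l z * l' w + l' z * l w))
    (hB : ∀ z w, ⟪B z, B w⟫ = ⟪z, w⟫ + y * (l z * l' w + l' z * l w))
    (hAi : Function.Injective A) (hBi : Function.Injective B)
    (minA : AlmgrenMinimal d (⋃ i, (((P i).map A : Submodule ℝ (Eu n)) : Set (Eu n))))
    (minB : AlmgrenMinimal d (⋃ i, (((P i).map B : Submodule ℝ (Eu n)) : Set (Eu n)))) :
    AlmgrenMinimal d (⋃ i, (P i : Set (Eu n))) := by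
  classical
  have := Fintype.ofFinite ι
  have hcl : IsClosed (⋃ i, (P i : Set (Eu n))) :=
    isClosed_iUnion_of_finite fun i => Submodule.closed_of_finiteDimensional _
  refine ⟨hcl, ?_, ?_⟩
  · intro c r
    rw [Set.iUnion_inter]
    refine (measure_iUnion_fintype_le _ _).trans_lt ?_
    exact ENNReal.sum_lt_top.2 fun i _ => plane_ball_lt_top _ (hP i) c r
  · intro f hf
    set S : Set (Eu n) := ⋃ i, (P i : Set (Eu n)) with hS
    -- the common argument for `A` and `B`
    have main : ∀ (C : Eu n →ₗ[ℝ] Eu n) (t : ℝ), Function.Injective C →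
        (∀ z w, ⟪C z, C w⟫ = ⟪z, w⟫ + t * (l z * l' w + l' z * l w)) →
        AlmgrenMinimal d (⋃ i, (((P i).map C : Submodule ℝ (Eu n)) : Set (Eu n))) →
        μH[(d : ℝ)] (S \ f '' S) ≤ μH[(d : ℝ)] (C '' (f '' S \ S)) := by
      intro C t hCi hC minC
      have hiso : ∀ i, ∀ z ∈ P i, ‖C z‖ = ‖z‖ := by
        intro i z hz
        have h1 := hC z z
        have h2 := hl i z hz
        have h3 : ‖C z‖ ^ 2 = ‖z‖ ^ 2 := by
          rw [← real_inner_self_eq_norm_sq, ← real_inner_self_eq_norm_sq, h1]
          have : l z * l' z + l' z * l z = 0 := by rw [mul_comm (l' z)]; linarith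
          rw [this]; ring
        exact (sq_eq_sq₀ (norm_nonneg _) (norm_nonneg _)).1 h3
      have h1 : μH[(d : ℝ)] (S \ f '' S) ≤ μH[(d : ℝ)] (C '' (S \ f '' S)) := by
        refine iso_le P C hCi hiso d Finset.univ _ ?_
        intro z hz
        simpa [hS] using hz.1
      have hker : LinearMap.ker C = ⊥ := LinearMap.ker_eq_bot.2 hCi
      let e : Eu n ≃L[ℝ] Eu n :=
        (LinearEquiv.ofInjectiveEndo C hCi).toContinuousLinearEquiv
      have he : ∀ z, e z = C z := fun z => rfl
      have hCS : C '' S = ⋃ i, (((P i).map C : Submodule ℝ (Eu n)) : Set (Eu n)) := by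
        rw [hS, Set.image_iUnion]
        simp
      have hCF : C '' (f '' S) = (fun x => e (f (e.symm x))) '' (C '' S) := by
        rw [Set.image_image, Set.image_image]
        refine Set.image_congr fun z _ => ?_
        have hz : e.symm (C z) = z := by rw [← he z]; simp
        rw [hz, he]
      have h2 := minC.2.2 _ (hf.conj e)
      rw [← hCS, ← hCF, ← Set.image_sdiff hCi, ← Set.image_sdiff hCi] at h2
      exact h1.trans h2
    have mA := main A x hAi hA minA
    have mB := main B y hBi hB minB
    obtain ⟨K, hK⟩ := hf.1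
    choose g hg using fun i => exists_param (P i) (hP i)
    have hFm : MeasurableSet (f '' S \ S) :=
      (measurable_image hK.continuous hcl).diff hcl.measurableSet
    have area := area_avg (d := d) A B hAi hBi a b ha hb
      (fun L hL => normDet_avg l l' A B x y a b ha hb hab hxy hA hB L hL)
      (fun i z => f (g i z)) (fun i => ⟨K * 1, hK.comp (g i).isometry.lipschitz⟩)
      (f '' S \ S) hFm (by
        rintro _ ⟨⟨z, hz, rfl⟩, -⟩
        rw [hS] at hz
        obtain ⟨i, hi⟩ := Set.mem_iUnion.1 hz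
        rw [← hg i] at hi
        obtain ⟨u, rfl⟩ := hi
        exact Set.mem_iUnion.2 ⟨i, ⟨u, rfl⟩⟩)
    calc μH[(d : ℝ)] (S \ f '' S)
        = (ENNReal.ofReal a + ENNReal.ofReal b) * μH[(d : ℝ)] (S \ f '' S) := by
          rw [← ENNReal.ofReal_add ha hb, hab]; simp
      _ = ENNReal.ofReal a * μH[(d : ℝ)] (S \ f '' S) +
          ENNReal.ofReal b * μH[(d : ℝ)] (S \ f '' S) := by rw [add_mul]
      _ ≤ ENNReal.ofReal a * μH[(d : ℝ)] (A '' (f '' S \ S)) +
          ENNReal.ofReal b * μH[(d : ℝ)] (B '' (f '' S \ S)) := by gcongr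
      _ ≤ μH[(d : ℝ)] (f '' S \ S) := area

/-- Existence of `T` with the perturbed form. -/
theorem exists_T {n : ℕ} {κ : Type*} [Fintype κ] (l l' : κ → Eu n →ₗ[ℝ] ℝ) (t : κ → ℝ)
    (hpos : ∀ z : Eu n, 0 ≤ ⟪z, z⟫ + 2 * ∑ k, t k * (l k z * l' k z)) :
    ∃ T : Eu n →ₗ[ℝ] Eu n, ∀ z w, ⟪T z, T w⟫ = ⟪z, w⟫ +
        ∑ k, t k * (l k z * l' k w + l' k z * l k w) := by
  classical
  let B : Eu n →ₗ[ℝ] Eu n →ₗ[ℝ] ℝ := innerₗ (Eu n) +
    ∑ k, t k • ((l k).smulRight (l' k) + (l' k).smulRight (l k))
  have hB : ∀ z w, B z w = ⟪z, w⟫ + ∑ k, t k * (l k z * l' k w + l' k z * l k w) := by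
    intro z w
    simp [B, LinearMap.sum_apply, mul_add]
  obtain ⟨T, hT⟩ := exists_form B (by
      intro z w
      rw [hB, hB, real_inner_comm]
      congr 1
      refine Finset.sum_congr rfl fun k _ => ?_
      ring) (by
      intro z
      rw [hB]
      refine (hpos z).trans (le_of_eq ?_)
      rw [Finset.mul_sum]
      congr 1
      refine Finset.sum_congr rfl fun k _ => ?_
      ring)
  exact ⟨T, fun z w => by rw [hT, hB]⟩

theorem box {n d : ℕ} {ι κ : Type*} [Finite ι] [Fintype κ]
    (P : ι → Submodule ℝ (Eu n)) (hP : ∀ i, finrank ℝ (P i) = d)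
    (l l' : κ → Eu n →ₗ[ℝ] ℝ) (hl : ∀ k i, ∀ z ∈ P i, l k z * l' k z = 0)
    (x0 c : κ → ℝ) (hx0 : ∀ k, |x0 k| ≤ c k)
    (hpos : ∀ x : κ → ℝ, (∀ k, |x k| ≤ c k) → ∀ z : Eu n, z ≠ 0 →
      0 < ⟪z, z⟫ + 2 * ∑ k, (x k - x0 k) * (l k z * l' k z))
    (hmin : ∀ x : κ → ℝ, (∀ k, |x k| = c k) → ∀ T : Eu n →ₗ[ℝ] Eu n,
      (∀ z w, ⟪T z, T w⟫ = ⟪z, w⟫ +
        ∑ k, (x k - x0 k) * (l k z * l' k w + l' k z * l k w)) →
      AlmgrenMinimal d (⋃ i, (((P i).map T : Submodule ℝ (Eu n)) : Set (Eu n)))) :
    AlmgrenMinimal d (⋃ i, (P i : Set (Eu n))) := by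
  classical
  -- injectivity of the maps `T`
  have hinj : ∀ x : κ → ℝ, (∀ k, |x k| ≤ c k) → ∀ T : Eu n →ₗ[ℝ] Eu n,
      (∀ z w, ⟪T z, T w⟫ = ⟪z, w⟫ +
        ∑ k, (x k - x0 k) * (l k z * l' k w + l' k z * l k w)) → Function.Injective T := by
    intro x hx T hT
    rw [injective_iff_map_eq_zero]
    intro z hz
    by_contra hne
    have h1 := hpos x hx z hne
    have h2 := hT z z
    rw [hz, inner_zero_left] at h2
    have h3 : ∑ k, (x k - x0 k) * (l k z * l' k z + l' k z * l k z) =
        2 * ∑ k, (x k - x0 k) * (l k z * l' k z) := by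
      rw [Finset.mul_sum]
      refine Finset.sum_congr rfl fun k _ => ?_
      ring
    rw [h3] at h2
    linarith
  have hex : ∀ x : κ → ℝ, (∀ k, |x k| ≤ c k) → ∃ T : Eu n →ₗ[ℝ] Eu n, ∀ z w, ⟪T z, T w⟫ =
      ⟪z, w⟫ + ∑ k, (x k - x0 k) * (l k z * l' k w + l' k z * l k w) := by
    intro x hx
    refine exists_T l l' (fun k => x k - x0 k) ?_
    intro z
    by_cases hz : z = 0
    · subst hz; simp
    · exact (hpos x hx z hz).le
  have main : ∀ s : Finset κ, ∀ x : κ → ℝ, (∀ k, |x k| ≤ c k) → (∀ k, k ∉ s → |x k| = c k) →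
      ∀ T : Eu n →ₗ[ℝ] Eu n, (∀ z w, ⟪T z, T w⟫ = ⟪z, w⟫ +
        ∑ k, (x k - x0 k) * (l k z * l' k w + l' k z * l k w)) →
      AlmgrenMinimal d (⋃ i, (((P i).map T : Submodule ℝ (Eu n)) : Set (Eu n))) := by
    intro s
    induction s using Finset.induction_on with
    | empty =>
      intro x _ hx T hT
      exact hmin x (fun k => hx k (by simp)) T hT
    | insert k s hk ih =>
      intro x hx hxs T hT
      have hck : 0 ≤ c k := (abs_nonneg _).trans (hx k)
      rcases hck.eq_or_lt with h0 | h0
      · refine ih x hx ?_ T hT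
        intro j hj
        by_cases hjk : j = k
        · subst hjk
          have := hx j
          rw [← h0] at this ⊢
          exact le_antisymm this (abs_nonneg _)
        · exact hxs j (by simp [hjk, hj])
      · -- the two neighbours
        have hxk := abs_le.1 (hx k)
        have nb : ∀ u : ℝ, |u| = c k → ∃ S : Eu n →ₗ[ℝ] Eu n, Function.Injective S ∧
            (∀ z w, ⟪S z, S w⟫ = ⟪z, w⟫ +
              ∑ j, (x j - x0 j) * (l j z * l' j w + l' j z * l j w) +
              (u - x k) * (l k z * l' k w + l' k z * l k w)) ∧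
            AlmgrenMinimal d (⋃ i, (((P i).map S : Submodule ℝ (Eu n)) : Set (Eu n))) := by
          intro u hu
          have hx' : ∀ j, |Function.update x k u j| ≤ c j := by
            intro j
            by_cases hjk : j = k
            · subst hjk; simp [hu]
            · simp [hjk, hx j]
          obtain ⟨S, hS⟩ := hex _ hx'
          refine ⟨S, hinj _ hx' S hS, ?_, ?_⟩
          · intro z w
            rw [hS z w, add_assoc]
            congr 1
            rw [← Finset.add_sum_erase _ _ (Finset.mem_univ k),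
              ← Finset.add_sum_erase Finset.univ
                (fun j => (x j - x0 j) * (l j z * l' j w + l' j z * l j w)) (Finset.mem_univ k)]
            have h1 : ∑ j ∈ Finset.univ.erase k, (Function.update x k u j - x0 j) *
                (l j z * l' j w + l' j z * l j w) = ∑ j ∈ Finset.univ.erase k,
                (x j - x0 j) * (l j z * l' j w + l' j z * l j w) := by
              refine Finset.sum_congr rfl fun j hj => ?_
              rw [Function.update_of_ne (Finset.ne_of_mem_erase hj)]
            rw [h1]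
            simp only [Function.update_self]
            ring
          · refine ih _ hx' ?_ S hS
            intro j hj
            by_cases hjk : j = k
            · subst hjk; simp [hu]
            · simp only [Function.update_of_ne hjk]
              exact hxs j (by simp [hjk, hj])
        obtain ⟨Sp, hSpi, hSp, minp⟩ := nb (c k) (abs_of_pos h0)
        obtain ⟨Sm, hSmi, hSm, minm⟩ := nb (-c k) (by rw [abs_neg, abs_of_pos h0])
        have hTi := hinj x hx T hT
        let e : Eu n ≃ₗ[ℝ] Eu n := LinearEquiv.ofInjectiveEndo T hTi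
        have he : ∀ z, e z = T z := fun z => rfl
        have hes : ∀ z, T (e.symm z) = z := fun z => by rw [← he]; simp
        have hmm : ∀ S : Eu n →ₗ[ℝ] Eu n, ∀ i, ((P i).map T).map (S ∘ₗ e.symm.toLinearMap) =
            (P i).map S := by
          intro S i
          rw [← Submodule.map_comp]
          congr 1
          ext1 z
          have : e.symm (T z) = z := by rw [← he]; simp
          simp [this]
        refine one_step (fun i => (P i).map T) ?_ (l k ∘ₗ e.symm.toLinearMap)
          (l' k ∘ₗ e.symm.toLinearMap) ?_ (Sp ∘ₗ e.symm.toLinearMap) (Sm ∘ₗ e.symm.toLinearMap)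
          (c k - x k) (- c k - x k) ((c k + x k) / (2 * c k)) ((c k - x k) / (2 * c k))
          ?_ ?_ ?_ ?_ ?_ ?_ ?_ ?_ ?_ ?_
        · intro i
          rw [← hP i]
          exact (Submodule.equivMapOfInjective T hTi (P i)).finrank_eq.symm
        · rintro i _ ⟨z, hz, rfl⟩
          have : e.symm (T z) = z := by rw [← he]; simp
          simpa [this] using hl k i z hz
        · exact div_nonneg (by linarith [hxk.1]) (by linarith)
        · exact div_nonneg (by linarith [hxk.2]) (by linarith)
        · field_simp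
          ring
        · field_simp
          ring
        · intro z w
          have h1 := hSp (e.symm z) (e.symm w)
          have h2 := hT (e.symm z) (e.symm w)
          rw [hes, hes] at h2
          simp only [LinearMap.comp_apply, LinearEquiv.coe_coe]
          rw [h1, h2]
        · intro z w
          have h1 := hSm (e.symm z) (e.symm w)
          have h2 := hT (e.symm z) (e.symm w)
          rw [hes, hes] at h2
          simp only [LinearMap.comp_apply, LinearEquiv.coe_coe]
          rw [h1, h2]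
        · exact hSpi.comp e.symm.injective
        · exact hSmi.comp e.symm.injective
        · simp only [hmm]
          exact minp
        · simp only [hmm]
          exact minm
  have := main Finset.univ x0 hx0 (fun k hk => absurd (Finset.mem_univ k) hk) LinearMap.id
    (by intro z w; simp)
  simpa using this

/-- The measure form of the box induction. -/
theorem box_measure {n d : ℕ} {ι κ : Type*} [Finite ι] [Fintype κ]
    (l l' : κ → Eu n →ₗ[ℝ] ℝ) (x0 c : κ → ℝ) (hx0 : ∀ k, |x0 k| ≤ c k)
    (hpos : ∀ x : κ → ℝ, (∀ k, |x k| ≤ c k) → ∀ z : Eu n, z ≠ 0 →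
      0 < ⟪z, z⟫ + 2 * ∑ k, (x k - x0 k) * (l k z * l' k z))
    (g : ι → EuclideanSpace ℝ (Fin d) → Eu n) (hg : ∀ i, ∃ K : ℝ≥0, LipschitzWith K (g i))
    (X : Set (Eu n)) (hX : MeasurableSet X) (hXg : X ⊆ ⋃ i, Set.range (g i)) (M : ℝ≥0∞)
    (hM : ∀ x : κ → ℝ, (∀ k, |x k| = c k) → ∀ T : Eu n →ₗ[ℝ] Eu n,
      (∀ z w, ⟪T z, T w⟫ = ⟪z, w⟫ +
        ∑ k, (x k - x0 k) * (l k z * l' k w + l' k z * l k w)) →
      M ≤ μH[(d : ℝ)] (T '' X)) :
    M ≤ μH[(d : ℝ)] X := by
  classical
  have hinj : ∀ x : κ → ℝ, (∀ k, |x k| ≤ c k) → ∀ T : Eu n →ₗ[ℝ] Eu n,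
      (∀ z w, ⟪T z, T w⟫ = ⟪z, w⟫ +
        ∑ k, (x k - x0 k) * (l k z * l' k w + l' k z * l k w)) → Function.Injective T := by
    intro x hx T hT
    rw [injective_iff_map_eq_zero]
    intro z hz
    by_contra hne
    have h1 := hpos x hx z hne
    have h2 := hT z z
    rw [hz, inner_zero_left] at h2
    have h3 : ∑ k, (x k - x0 k) * (l k z * l' k z + l' k z * l k z) =
        2 * ∑ k, (x k - x0 k) * (l k z * l' k z) := by
      rw [Finset.mul_sum]
      refine Finset.sum_congr rfl fun k _ => ?_
      ring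
    rw [h3] at h2
    linarith
  have hex : ∀ x : κ → ℝ, (∀ k, |x k| ≤ c k) → ∃ T : Eu n →ₗ[ℝ] Eu n, ∀ z w, ⟪T z, T w⟫ =
      ⟪z, w⟫ + ∑ k, (x k - x0 k) * (l k z * l' k w + l' k z * l k w) := by
    intro x hx
    refine exists_T l l' (fun k => x k - x0 k) ?_
    intro z
    by_cases hz : z = 0
    · subst hz; simp
    · exact (hpos x hx z hz).le
  have main : ∀ s : Finset κ, ∀ x : κ → ℝ, (∀ k, |x k| ≤ c k) → (∀ k, k ∉ s → |x k| = c k) →
      ∀ T : Eu n →ₗ[ℝ] Eu n, (∀ z w, ⟪T z, T w⟫ = ⟪z, w⟫ +
        ∑ k, (x k - x0 k) * (l k z * l' k w + l' k z * l k w)) →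
      M ≤ μH[(d : ℝ)] (T '' X) := by
    intro s
    induction s using Finset.induction_on with
    | empty =>
      intro x _ hx T hT
      exact hM x (fun k => hx k (by simp)) T hT
    | insert k s hk ih =>
      intro x hx hxs T hT
      have hck : 0 ≤ c k := (abs_nonneg _).trans (hx k)
      rcases hck.eq_or_lt with h0 | h0
      · refine ih x hx ?_ T hT
        intro j hj
        by_cases hjk : j = k
        · subst hjk
          have := hx j
          rw [← h0] at this ⊢
          exact le_antisymm this (abs_nonneg _)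
        · exact hxs j (by simp [hjk, hj])
      · have hxk := abs_le.1 (hx k)
        have nb : ∀ u : ℝ, |u| = c k → ∃ S : Eu n →ₗ[ℝ] Eu n, Function.Injective S ∧
            (∀ z w, ⟪S z, S w⟫ = ⟪z, w⟫ +
              ∑ j, (x j - x0 j) * (l j z * l' j w + l' j z * l j w) +
              (u - x k) * (l k z * l' k w + l' k z * l k w)) ∧
            M ≤ μH[(d : ℝ)] (S '' X) := by
          intro u hu
          have hx' : ∀ j, |Function.update x k u j| ≤ c j := by
            intro j
            by_cases hjk : j = k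
            · subst hjk; simp [hu]
            · simp [hjk, hx j]
          obtain ⟨S, hS⟩ := hex _ hx'
          refine ⟨S, hinj _ hx' S hS, ?_, ?_⟩
          · intro z w
            rw [hS z w, add_assoc]
            congr 1
            rw [← Finset.add_sum_erase _ _ (Finset.mem_univ k),
              ← Finset.add_sum_erase Finset.univ
                (fun j => (x j - x0 j) * (l j z * l' j w + l' j z * l j w)) (Finset.mem_univ k)]
            have h1 : ∑ j ∈ Finset.univ.erase k, (Function.update x k u j - x0 j) *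
                (l j z * l' j w + l' j z * l j w) = ∑ j ∈ Finset.univ.erase k,
                (x j - x0 j) * (l j z * l' j w + l' j z * l j w) := by
              refine Finset.sum_congr rfl fun j hj => ?_
              rw [Function.update_of_ne (Finset.ne_of_mem_erase hj)]
            rw [h1]
            simp only [Function.update_self]
            ring
          · refine ih _ hx' ?_ S hS
            intro j hj
            by_cases hjk : j = k
            · subst hjk; simp [hu]
            · simp only [Function.update_of_ne hjk]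
              exact hxs j (by simp [hjk, hj])
        obtain ⟨Sp, hSpi, hSp, minp⟩ := nb (c k) (abs_of_pos h0)
        obtain ⟨Sm, hSmi, hSm, minm⟩ := nb (-c k) (by rw [abs_neg, abs_of_pos h0])
        have hTi := hinj x hx T hT
        let e : Eu n ≃ₗ[ℝ] Eu n := LinearEquiv.ofInjectiveEndo T hTi
        have he : ∀ z, e z = T z := fun z => rfl
        have hes : ∀ z, T (e.symm z) = z := fun z => by rw [← he]; simp
        have hse : ∀ z, e.symm (T z) = z := fun z => by rw [← he]; simp
        set A : Eu n →ₗ[ℝ] Eu n := Sp ∘ₗ e.symm.toLinearMap with hAdef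
        set B : Eu n →ₗ[ℝ] Eu n := Sm ∘ₗ e.symm.toLinearMap with hBdef
        have hAi : Function.Injective A := hSpi.comp e.symm.injective
        have hBi : Function.Injective B := hSmi.comp e.symm.injective
        have ha : 0 ≤ (c k + x k) / (2 * c k) := div_nonneg (by linarith [hxk.1]) (by linarith)
        have hb : 0 ≤ (c k - x k) / (2 * c k) := div_nonneg (by linarith [hxk.2]) (by linarith)
        have hab : (c k + x k) / (2 * c k) + (c k - x k) / (2 * c k) = 1 := by
          field_simp
          ring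
        have hAB : ∀ L : EuclideanSpace ℝ (Fin d) →ₗ[ℝ] Eu n, Function.Injective L →
            (c k + x k) / (2 * c k) * (A ∘ₗ L).normDet + (c k - x k) / (2 * c k) *
              (B ∘ₗ L).normDet ≤ L.normDet := by
          intro L hL
          refine normDet_avg (l k ∘ₗ e.symm.toLinearMap) (l' k ∘ₗ e.symm.toLinearMap) A B
            (c k - x k) (- c k - x k) _ _ ha hb hab ?_ ?_ ?_ L hL
          · field_simp
            ring
          · intro z w
            have h1 := hSp (e.symm z) (e.symm w)
            have h2 := hT (e.symm z) (e.symm w)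
            rw [hes, hes] at h2
            simp only [hAdef, LinearMap.comp_apply, LinearEquiv.coe_coe]
            rw [h1, h2]
          · intro z w
            have h1 := hSm (e.symm z) (e.symm w)
            have h2 := hT (e.symm z) (e.symm w)
            rw [hes, hes] at h2
            simp only [hBdef, LinearMap.comp_apply, LinearEquiv.coe_coe]
            rw [h1, h2]
        have hTc : Continuous T := T.continuous_of_finiteDimensional
        have hTX : MeasurableSet (T '' X) :=
          hX.image_of_continuousOn_injOn hTc.continuousOn hTi.injOn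
        have key := area_avg (d := d) A B hAi hBi _ _ ha hb hAB
          (fun i z => T (g i z)) (fun i => by
            obtain ⟨K, hK⟩ := hg i
            exact ⟨_, (LinearMap.toContinuousLinearMap T).lipschitz.comp hK⟩)
          (T '' X) hTX (by
            rintro _ ⟨z, hz, rfl⟩
            obtain ⟨i, u, rfl⟩ := Set.mem_iUnion.1 (hXg hz)
            exact Set.mem_iUnion.2 ⟨i, ⟨u, rfl⟩⟩)
        have hAT : A '' (T '' X) = Sp '' X := by
          rw [Set.image_image]
          refine Set.image_congr fun z _ => ?_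
          simp [hAdef, hse]
        have hBT : B '' (T '' X) = Sm '' X := by
          rw [Set.image_image]
          refine Set.image_congr fun z _ => ?_
          simp [hBdef, hse]
        rw [hAT, hBT] at key
        calc M = (ENNReal.ofReal ((c k + x k) / (2 * c k)) +
              ENNReal.ofReal ((c k - x k) / (2 * c k))) * M := by
              rw [← ENNReal.ofReal_add ha hb, hab]; simp
          _ = ENNReal.ofReal ((c k + x k) / (2 * c k)) * M +
              ENNReal.ofReal ((c k - x k) / (2 * c k)) * M := by rw [add_mul]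
          _ ≤ ENNReal.ofReal ((c k + x k) / (2 * c k)) * μH[(d : ℝ)] (Sp '' X) +
              ENNReal.ofReal ((c k - x k) / (2 * c k)) * μH[(d : ℝ)] (Sm '' X) := by gcongr
          _ ≤ μH[(d : ℝ)] (T '' X) := key
  have := main Finset.univ x0 hx0 (fun k hk => absurd (Finset.mem_univ k) hk) LinearMap.id
    (by intro z w; simp)
  simpa using this

end H56Mono
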