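import Pool.Agent.H56.Mono.Defs

/-!
Two `d`-planes that cross along a `(d-1)`-plane are not Almgren minimal.
-/

open MeasureTheory Measure Module
open scoped InnerProductSpace RealInnerProductSpace NNReal ENNReal

namespace H56Mono

namespace Codim

variable {n : ℕ}

/-- The model strip `G × ℝ → R^n`, `(y, t) ↦ y + t q`. -/
noncomputable def J (G : Submodule ℝ (Eu n)) (q : Eu n) : WithLp 2 (G × ℝ) →ₗ[ℝ] Eu n where
  toFun z := (z.fst : Eu n) + z.snd • q
  map_add' x y := by simp [add_smul]; abel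
  map_smul' c x := by simp [smul_smul]

theorem J_norm (G : Submodule ℝ (Eu n)) (q : Eu n) (hq : ‖q‖ = 1) (hq' : q ∈ Gᗮ)
    (z : WithLp 2 (G × ℝ)) : ‖J G q z‖ = ‖z‖ := by
  have h1 : ⟪(z.fst : Eu n), z.snd • q⟫ = 0 := by
    rw [real_inner_smul_right, Submodule.inner_right_of_mem_orthogonal z.fst.2 hq', mul_zero]
  have h2 : ‖J G q z‖ ^ 2 = ‖z‖ ^ 2 := by
    rw [WithLp.prod_norm_sq_eq_of_L2]
    change ‖(z.fst : Eu n) + z.snd • q‖ ^ 2 = _
    rw [norm_add_sq_real, h1, norm_smul, hq]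
    simp
  exact (pow_left_inj₀ (norm_nonneg _) (norm_nonneg _) two_ne_zero).mp h2

theorem J_isometry (G : Submodule ℝ (Eu n)) (q : Eu n) (hq : ‖q‖ = 1) (hq' : q ∈ Gᗮ) :
    Isometry (J G q) :=
  AddMonoidHomClass.isometry_of_norm (J G q) (J_norm G q hq hq')

theorem finrank_model (G : Submodule ℝ (Eu n)) : finrank ℝ (WithLp 2 (G × ℝ)) = finrank ℝ G + 1 := by
  rw [LinearEquiv.finrank_eq (WithLp.linearEquiv 2 ℝ (G × ℝ)), Module.finrank_prod,
    Module.finrank_self]

/-- The measure of a strip. -/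
theorem strip_measure (G : Submodule ℝ (Eu n)) (d : ℕ) (hd : finrank ℝ G + 1 = d) :
    ∃ c : ℝ≥0, c ≠ 0 ∧ ∀ (q a : Eu n), ‖q‖ = 1 → q ∈ Gᗮ → ∀ (A : Set G) (I : Set ℝ),
      MeasurableSet A → MeasurableSet I →
      μH[(d : ℝ)] ((fun z : G × ℝ => a + ((z.1 : Eu n) + z.2 • q)) '' (A ×ˢ I)) =
        c * (volume A * volume I) := by
  have hfr : finrank ℝ (WithLp 2 (G × ℝ)) = d := by rw [finrank_model, hd]
  have hH : IsAddHaarMeasure (μH[(d : ℝ)] : Measure (WithLp 2 (G × ℝ))) := by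
    rw [← hfr]; infer_instance
  refine ⟨addHaarScalarFactor (μH[(d : ℝ)] : Measure (WithLp 2 (G × ℝ))) volume, ?_, ?_⟩
  · exact (addHaarScalarFactor_pos_of_isAddHaarMeasure _ _).ne'
  · intro q a hq hq' A I hA hI
    have h1 : (fun z : G × ℝ => a + ((z.1 : Eu n) + z.2 • q)) '' (A ×ˢ I) =
        (fun z => a + J G q z) '' ((WithLp.ofLp : WithLp 2 (G × ℝ) → G × ℝ) ⁻¹' (A ×ˢ I)) := by
      ext x
      constructor
      · rintro ⟨z, hz, rfl⟩
        exact ⟨WithLp.toLp 2 z, hz, rfl⟩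
      · rintro ⟨z, hz, rfl⟩
        exact ⟨WithLp.ofLp z, hz, rfl⟩
    have h2 : Isometry (fun z => a + J G q z) :=
      (IsometryEquiv.addLeft a).isometry.comp (J_isometry G q hq hq')
    rw [h1, h2.hausdorffMeasure_image (Or.inl (Nat.cast_nonneg d))]
    conv_lhs => rw [isAddLeftInvariant_eq_smul (μH[(d : ℝ)] : Measure (WithLp 2 (G × ℝ))) volume]
    rw [Measure.smul_apply, (WithLp.volume_preserving_ofLp G ℝ).measure_preimage
      (hA.prod hI).nullMeasurableSet]
    rw [Measure.volume_eq_prod, Measure.prod_prod]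
    rfl

/-- The measure of a strip over a segment. -/
theorem seg_measure (G : Submodule ℝ (Eu n)) (d : ℕ) (c : ℝ≥0)
    (hc : ∀ (q a : Eu n), ‖q‖ = 1 → q ∈ Gᗮ → ∀ (A : Set G) (I : Set ℝ),
      MeasurableSet A → MeasurableSet I →
      μH[(d : ℝ)] ((fun z : G × ℝ => a + ((z.1 : Eu n) + z.2 • q)) '' (A ×ˢ I)) =
        c * (volume A * volume I))
    (x y : Eu n) (hy : y ∈ Gᗮ) (hy0 : y ≠ 0) (A : Set G) (hA : MeasurableSet A) :
    μH[(d : ℝ)] ((fun z : G × ℝ => (z.1 : Eu n) + (x + z.2 • y)) '' (A ×ˢ Set.Icc 0 1)) =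
      c * (volume A * ENNReal.ofReal ‖y‖) := by
  have hn : 0 < ‖y‖ := norm_pos_iff.mpr hy0
  have hq : ‖(‖y‖⁻¹ • y)‖ = 1 := by
    rw [norm_smul, norm_inv, norm_norm, inv_mul_cancel₀ hn.ne']
  have h := hc (‖y‖⁻¹ • y) x hq (Submodule.smul_mem _ _ hy) A (Set.Icc 0 ‖y‖) hA measurableSet_Icc
  rw [Real.volume_Icc, sub_zero] at h
  rw [← h]
  congr 1
  ext v
  constructor
  · rintro ⟨⟨g, t⟩, ⟨hg, ht⟩, rfl⟩
    refine ⟨(g, t * ‖y‖), ⟨hg, ?_⟩, ?_⟩
    · exact ⟨mul_nonneg ht.1 hn.le, by nlinarith [ht.2]⟩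
    · simp only
      rw [smul_smul, mul_assoc, mul_inv_cancel₀ hn.ne', mul_one]
      abel
  · rintro ⟨⟨g, t⟩, ⟨hg, ht⟩, rfl⟩
    refine ⟨(g, t * ‖y‖⁻¹), ⟨hg, ?_⟩, ?_⟩
    · refine ⟨mul_nonneg ht.1 (inv_nonneg.mpr hn.le), ?_⟩
      rw [← div_eq_mul_inv, div_le_one hn]
      exact ht.2
    · simp only
      rw [smul_smul]
      abel

/-! ### The zipping map -/

/-- The tent function. -/
noncomputable def tent (t : ℝ) : ℝ := max 0 (min (2 * t) (2 - 2 * t))

theorem tent_nonneg (t : ℝ) : 0 ≤ tent t := le_max_left _ _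

theorem tent_le_one (t : ℝ) : tent t ≤ 1 := by
  unfold tent
  rcases le_total t (1 / 2) with h | h
  · exact max_le zero_le_one (le_trans (min_le_left _ _) (by linarith))
  · exact max_le zero_le_one (le_trans (min_le_right _ _) (by linarith))

theorem tent_of_nonpos {t : ℝ} (h : t ≤ 0) : tent t = 0 :=
  max_eq_left (le_trans (min_le_left _ _) (by linarith))

theorem tent_of_one_le {t : ℝ} (h : 1 ≤ t) : tent t = 0 :=
  max_eq_left (le_trans (min_le_right _ _) (by linarith))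

theorem tent_zero : tent 0 = 0 := tent_of_nonpos le_rfl

theorem tent_left {t : ℝ} (h0 : 0 ≤ t) (h : t ≤ 1 / 2) : tent t = 2 * t := by
  unfold tent
  rw [min_eq_left (by linarith), max_eq_right (by linarith)]

theorem tent_right {t : ℝ} (h0 : 1 / 2 ≤ t) (h : t ≤ 1) : tent t = 2 - 2 * t := by
  unfold tent
  rw [min_eq_right (by linarith), max_eq_right (by linarith)]

theorem tent_le_two_mul {t : ℝ} (h0 : 0 ≤ t) : tent t ≤ 2 * t := by
  unfold tent
  exact max_le (by linarith) (min_le_left _ _)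

theorem tent_pos {t : ℝ} (h0 : 0 < t) (h : t < 1) : 0 < tent t := by
  unfold tent
  exact lt_max_of_lt_right (lt_min (by linarith) (by linarith))

theorem tent_lip (s t : ℝ) : |tent s - tent t| ≤ 2 * |s - t| := by
  unfold tent
  refine le_trans (abs_max_sub_max_le_max _ _ _ _) ?_
  rw [sub_self, abs_zero]
  refine max_le (by positivity) ?_
  refine le_trans (abs_min_sub_min_le_max _ _ _ _) ?_
  refine max_le ?_ ?_
  · rw [← mul_sub, abs_mul, abs_two]
  · rw [show 2 - 2 * s - (2 - 2 * t) = -(2 * (s - t)) by ring, abs_neg, abs_mul, abs_two]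

/-- The cutoff. -/
noncomputable def cut (m : ℝ) (x : Eu n) : ℝ := max 0 (min 1 (m + 2 - ‖x‖))

theorem cut_nonneg (m : ℝ) (x : Eu n) : 0 ≤ cut m x := le_max_left _ _

theorem cut_le_one (m : ℝ) (x : Eu n) : cut m x ≤ 1 :=
  max_le zero_le_one (min_le_left _ _)

theorem cut_eq_one {m : ℝ} {x : Eu n} (h : ‖x‖ ≤ m + 1) : cut m x = 1 := by
  unfold cut
  rw [min_eq_left (by linarith), max_eq_right zero_le_one]

theorem cut_eq_zero {m : ℝ} {x : Eu n} (h : m + 2 ≤ ‖x‖) : cut m x = 0 := by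
  unfold cut
  exact max_eq_left (le_trans (min_le_right _ _) (by linarith))

theorem cut_lip (m : ℝ) (x y : Eu n) : |cut m x - cut m y| ≤ ‖x - y‖ := by
  unfold cut
  refine le_trans (abs_max_sub_max_le_max _ _ _ _) ?_
  rw [sub_self, abs_zero]
  refine max_le (norm_nonneg _) ?_
  refine le_trans (abs_min_sub_min_le_max _ _ _ _) ?_
  rw [sub_self, abs_zero]
  refine max_le (norm_nonneg _) ?_
  rw [show m + 2 - ‖x‖ - (m + 2 - ‖y‖) = -(‖x‖ - ‖y‖) by ring, abs_neg]
  exact abs_norm_sub_norm_le x y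

/-- Dual functional: `1` on `u`, `0` on `w`. -/
noncomputable def co (u w x : Eu n) : ℝ := (1 - ⟪u, w⟫ ^ 2)⁻¹ * ⟪u - ⟪u, w⟫ • w, x⟫

/-- The zipping map. -/
noncomputable def zip (u w : Eu n) (m : ℝ) (x : Eu n) : Eu n :=
  x + (cut m x * ((tent (co w u x) - tent (co u w x)) / 4)) • (u - w)

theorem zip_symm (u w : Eu n) (m : ℝ) : zip w u m = zip u w m := by
  funext x
  unfold zip
  rw [← neg_sub u w, smul_neg, ← neg_smul]
  congr 2
  ring

/-- The configuration. -/
structure Conf (G : Submodule ℝ (Eu n)) (u w : Eu n) : Prop where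
  nu : ‖u‖ = 1
  nw : ‖w‖ = 1
  ou : u ∈ Gᗮ
  ow : w ∈ Gᗮ
  c0 : 0 ≤ ⟪u, w⟫
  c1 : ⟪u, w⟫ < 1

theorem Conf.symm {G : Submodule ℝ (Eu n)} {u w : Eu n} (h : Conf G u w) : Conf G w u :=
  ⟨h.nw, h.nu, h.ow, h.ou, by rw [real_inner_comm]; exact h.c0,
    by rw [real_inner_comm]; exact h.c1⟩

section

variable {G : Submodule ℝ (Eu n)} {u w : Eu n}

theorem Conf.pos (h : Conf G u w) : 0 < 1 - ⟪u, w⟫ ^ 2 := by
  have := h.c0
  have := h.c1
  nlinarith

theorem co_add (u w x y : Eu n) : co u w (x + y) = co u w x + co u w y := by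
  unfold co
  rw [inner_add_right, mul_add]

theorem co_smul (u w : Eu n) (t : ℝ) (x : Eu n) : co u w (t • x) = t * co u w x := by
  unfold co
  rw [real_inner_smul_right]
  ring

theorem co_sub (u w x y : Eu n) : co u w (x - y) = co u w x - co u w y := by
  unfold co
  rw [inner_sub_right, mul_sub]

theorem Conf.co_self (h : Conf G u w) : co u w u = 1 := by
  unfold co
  rw [inner_sub_left, real_inner_smul_left, real_inner_self_eq_norm_sq, h.nu,
    real_inner_comm u w]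
  have := h.pos
  rw [show (1 : ℝ) ^ 2 - ⟪u, w⟫ * ⟪u, w⟫ = 1 - ⟪u, w⟫ ^ 2 by ring]
  exact inv_mul_cancel₀ this.ne'

theorem Conf.co_other (h : Conf G u w) : co u w w = 0 := by
  unfold co
  rw [inner_sub_left, real_inner_smul_left, real_inner_self_eq_norm_sq, h.nw]
  ring

theorem Conf.co_G (h : Conf G u w) (y : Eu n) (hy : y ∈ G) : co u w y = 0 := by
  unfold co
  rw [inner_sub_left, real_inner_smul_left,
    Submodule.inner_left_of_mem_orthogonal hy h.ou, Submodule.inner_left_of_mem_orthogonal hy h.ow]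
  ring

theorem co_lip (u w : Eu n) : ∃ L : ℝ, 0 ≤ L ∧ ∀ x y, |co u w x - co u w y| ≤ L * ‖x - y‖ := by
  refine ⟨|(1 - ⟪u, w⟫ ^ 2)⁻¹| * ‖u - ⟪u, w⟫ • w‖, by positivity, ?_⟩
  intro x y
  rw [← co_sub]
  unfold co
  rw [abs_mul, mul_assoc]
  exact mul_le_mul_of_nonneg_left (abs_real_inner_le_norm _ _) (abs_nonneg _)

/-- The zipping maps are Lipschitz, uniformly in `m`. -/
theorem zip_lip (u w : Eu n) : ∃ K : ℝ≥0, ∀ m, LipschitzWith K (zip u w m) := by
  obtain ⟨L1, hL1, h1⟩ := co_lip u w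
  obtain ⟨L2, hL2, h2⟩ := co_lip w u
  set C : ℝ := 1 + (1 + (L1 + L2)) * ‖u - w‖ with hC
  have hC0 : 0 ≤ C := by positivity
  refine ⟨⟨C, hC0⟩, fun m => LipschitzWith.of_dist_le_mul fun x y => ?_⟩
  rw [dist_eq_norm, dist_eq_norm]
  change _ ≤ C * ‖x - y‖
  set p : Eu n → ℝ := fun x => (tent (co w u x) - tent (co u w x)) / 4 with hp
  have hp1 : ∀ x, |p x| ≤ 1 := by
    intro x
    have := tent_nonneg (co w u x)
    have := tent_nonneg (co u w x)
    have := tent_le_one (co w u x)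
    have := tent_le_one (co u w x)
    rw [abs_le]
    constructor <;> simp only [hp] <;> linarith
  have hpl : |p x - p y| ≤ (L1 + L2) * ‖x - y‖ := by
    have e1 : |tent (co w u x) - tent (co w u y)| ≤ 2 * (L2 * ‖x - y‖) :=
      (tent_lip _ _).trans (mul_le_mul_of_nonneg_left (h2 x y) zero_le_two)
    have e2 : |tent (co u w x) - tent (co u w y)| ≤ 2 * (L1 * ‖x - y‖) :=
      (tent_lip _ _).trans (mul_le_mul_of_nonneg_left (h1 x y) zero_le_two)
    have h3 : 0 ≤ (L1 + L2) * ‖x - y‖ := by positivity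
    rw [abs_le] at e1 e2 ⊢
    constructor <;> simp only [hp] <;> linarith [e1.1, e1.2, e2.1, e2.2]
  have key : |cut m x * p x - cut m y * p y| ≤ (1 + (L1 + L2)) * ‖x - y‖ := by
    have e : cut m x * p x - cut m y * p y = cut m x * (p x - p y) + (cut m x - cut m y) * p y := by
      ring
    rw [e]
    refine (abs_add_le _ _).trans ?_
    rw [abs_mul, abs_mul, abs_of_nonneg (cut_nonneg m x)]
    have e1 : cut m x * |p x - p y| ≤ 1 * ((L1 + L2) * ‖x - y‖) :=
      mul_le_mul (cut_le_one m x) hpl (abs_nonneg _) zero_le_one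
    have e2 : |cut m x - cut m y| * |p y| ≤ ‖x - y‖ * 1 :=
      mul_le_mul (cut_lip m x y) (hp1 y) (abs_nonneg _) (norm_nonneg _)
    linarith
  have e : zip u w m x - zip u w m y = (x - y) + (cut m x * p x - cut m y * p y) • (u - w) := by
    unfold zip
    rw [sub_smul]
    abel
  rw [e]
  refine (norm_add_le _ _).trans ?_
  rw [norm_smul, Real.norm_eq_abs]
  have := mul_le_mul_of_nonneg_right key (norm_nonneg (u - w))
  rw [hC]
  linarith

/-- The zipping maps are deformations. -/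
theorem zip_deformation (u w : Eu n) (m : ℝ) : IsDeformation (zip u w m) := by
  obtain ⟨K, hK⟩ := zip_lip u w
  refine ⟨⟨K, hK m⟩, 0, m + 2 + ‖u - w‖, ?_, ?_⟩
  · intro x hx
    rw [mem_closedBall_zero_iff, not_le] at hx
    have : m + 2 ≤ ‖x‖ := by linarith [norm_nonneg (u - w)]
    unfold zip
    rw [cut_eq_zero this]
    simp
  · intro x hx
    rw [mem_closedBall_zero_iff] at hx ⊢
    by_cases h : m + 2 ≤ ‖x‖
    · unfold zip
      rw [cut_eq_zero h]
      simpa using hx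
    · unfold zip
      refine (norm_add_le _ _).trans ?_
      rw [norm_smul]
      have h1 : ‖cut m x * ((tent (co w u x) - tent (co u w x)) / 4)‖ ≤ 1 := by
        rw [norm_mul, Real.norm_eq_abs, Real.norm_eq_abs, abs_of_nonneg (cut_nonneg m x)]
        have : |(tent (co w u x) - tent (co u w x)) / 4| ≤ 1 := by
          have := tent_nonneg (co w u x)
          have := tent_nonneg (co u w x)
          have := tent_le_one (co w u x)
          have := tent_le_one (co u w x)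
          rw [abs_le]
          constructor <;> linarith
        calc cut m x * |(tent (co w u x) - tent (co u w x)) / 4| ≤ 1 * 1 :=
              mul_le_mul (cut_le_one m x) this (abs_nonneg _) zero_le_one
          _ = 1 := one_mul 1
      have h2 := mul_le_mul_of_nonneg_right h1 (norm_nonneg (u - w))
      linarith [not_le.mp h]

/-- The zipping map on the first plane. -/
theorem zip_apply (h : Conf G u w) (m : ℝ) (y : Eu n) (hy : y ∈ G) (t : ℝ) :
    zip u w m (y + t • u) = y + (t - cut m (y + t • u) * tent t / 4) • u +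
      (cut m (y + t • u) * tent t / 4) • w := by
  unfold zip
  have e1 : co w u (y + t • u) = 0 := by
    rw [co_add, co_smul, h.symm.co_G y hy, h.symm.co_other]; ring
  have e2 : co u w (y + t • u) = t := by
    rw [co_add, co_smul, h.co_G y hy, h.co_self]; ring
  rw [e1, e2, tent_zero]
  module

theorem co_point (h : Conf G u w) (y : Eu n) (hy : y ∈ G) (s t : ℝ) :
    co u w (y + s • u + t • w) = s := by
  rw [co_add, co_add, co_smul, co_smul, h.co_G y hy, h.co_self, h.co_other]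
  ring

theorem co_point' (h : Conf G u w) (y : Eu n) (hy : y ∈ G) (s t : ℝ) :
    co w u (y + s • u + t • w) = t := by
  rw [co_add, co_add, co_smul, co_smul, h.symm.co_G y hy, h.symm.co_self, h.symm.co_other]
  ring

theorem norm_le_of_mem (h : Conf G u w) (y : Eu n) (hy : y ∈ G) (t : ℝ) : ‖y‖ ≤ ‖y + t • u‖ := by
  have h1 : ⟪y, t • u⟫ = 0 := by
    rw [real_inner_smul_right, Submodule.inner_right_of_mem_orthogonal hy h.ou, mul_zero]
  have h2 : ‖y‖ ^ 2 ≤ ‖y + t • u‖ ^ 2 := by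
    rw [norm_add_sq_real, h1]
    nlinarith [sq_nonneg ‖t • u‖]
  exact (pow_le_pow_iff_left₀ (norm_nonneg _) (norm_nonneg _) two_ne_zero).mp h2

/-- The open arm is missed. -/
theorem arm_missed (h : Conf G u w) (m : ℝ) (y : Eu n) (hy : y ∈ G) (hym : ‖y‖ ≤ m) (t : ℝ)
    (h0 : 0 < t) (h1 : t < 1) (x : Eu n)
    (hx : (∃ y' ∈ G, ∃ t' : ℝ, x = y' + t' • u) ∨ (∃ y' ∈ G, ∃ t' : ℝ, x = y' + t' • w)) :
    zip u w m x ≠ y + t • u := by
  intro hcon
  have hb : co u w (y + t • u) = t := by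
    have := co_point h y hy t 0
    rwa [zero_smul, add_zero] at this
  have hb' : co w u (y + t • u) = 0 := by
    have := co_point' h y hy t 0
    rwa [zero_smul, add_zero] at this
  rcases hx with ⟨y', hy', t', rfl⟩ | ⟨y', hy', t', rfl⟩
  · rw [zip_apply h m y' hy' t'] at hcon
    have e1 := congrArg (co u w) hcon
    have e2 := congrArg (co w u) hcon
    rw [co_point h y' hy', hb] at e1
    rw [co_point' h y' hy', hb'] at e2
    rw [e2, sub_zero] at e1
    subst e1
    rw [e2] at hcon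
    have hyy : y' = y := by
      simpa using hcon
    subst hyy
    have h3 : ‖y' + t' • u‖ ≤ m + 1 := by
      refine (norm_add_le _ _).trans ?_
      rw [norm_smul, h.nu, Real.norm_eq_abs, abs_of_pos h0]
      linarith
    rw [cut_eq_one h3] at e2
    have := tent_pos h0 h1
    linarith
  · rw [← zip_symm, zip_apply h.symm m y' hy' t'] at hcon
    have e1 := congrArg (co u w) hcon
    have e2 := congrArg (co w u) hcon
    rw [co_point' h.symm y' hy', hb] at e1
    rw [co_point h.symm y' hy', hb'] at e2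
    have h5 : t' = t := by linarith
    subst h5
    have h6 := tent_le_two_mul h0.le
    have h7 := cut_le_one m (y' + t' • w)
    have h8 := cut_nonneg m (y' + t' • w)
    have h9 := tent_nonneg t'
    nlinarith

/-- The image of a point of the first plane. -/
theorem image_cases (h : Conf G u w) (m : ℝ) (y : Eu n) (hy : y ∈ G) (t : ℝ)
    (hne : zip u w m (y + t • u) ≠ y + t • u) :
    0 < t ∧ t < 1 ∧ ‖y‖ < m + 2 ∧ (‖y‖ ≤ m →
      (∃ s ∈ Set.Icc (0 : ℝ) 1, zip u w m (y + t • u) = y + (0 + s • ((1 / 4 : ℝ) • (u + w)))) ∨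
      (∃ s ∈ Set.Icc (0 : ℝ) 1, zip u w m (y + t • u) = y + ((1 / 4 : ℝ) • (u + w) +
        s • (u - (1 / 4 : ℝ) • (u + w))))) := by
  have hz := zip_apply h m y hy t
  have h0 : 0 < t := by
    by_contra hcon
    apply hne
    rw [hz, tent_of_nonpos (not_lt.mp hcon)]
    simp
  have h1 : t < 1 := by
    by_contra hcon
    apply hne
    rw [hz, tent_of_one_le (not_lt.mp hcon)]
    simp
  have h2 : ‖y‖ < m + 2 := by
    by_contra hcon
    apply hne
    have : m + 2 ≤ ‖y + t • u‖ := (not_lt.mp hcon).trans (norm_le_of_mem h y hy t)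
    rw [hz, cut_eq_zero this]
    simp
  refine ⟨h0, h1, h2, fun hym => ?_⟩
  have h3 : ‖y + t • u‖ ≤ m + 1 := by
    refine (norm_add_le _ _).trans ?_
    rw [norm_smul, h.nu, Real.norm_eq_abs, abs_of_pos h0]
    linarith
  rw [cut_eq_one h3] at hz
  rcases le_total t (1 / 2) with ht | ht
  · left
    refine ⟨2 * t, ⟨by linarith, by linarith⟩, ?_⟩
    rw [hz, tent_left h0.le ht]
    module
  · right
    refine ⟨2 * t - 1, ⟨by linarith, by linarith⟩, ?_⟩
    rw [hz, tent_right ht h1.le]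
    module

theorem le_amgm (r A : ℝ) (hA : 0 < A) : r ≤ (r ^ 2 + A ^ 2) / (2 * A) := by
  rw [le_div_iff₀ (by linarith)]
  nlinarith [sq_nonneg (r - A)]

theorem norm_p_le (h : Conf G u w) : ‖(1 / 4 : ℝ) • (u + w)‖ ≤ (1 + ⟪u, w⟫) / 6 + 3 / 16 := by
  have e : ‖(1 / 4 : ℝ) • (u + w)‖ ^ 2 = (1 + ⟪u, w⟫) / 8 := by
    rw [norm_smul, mul_pow, norm_add_sq_real, h.nu, h.nw]
    norm_num
    ring
  refine (le_amgm _ (3 / 8) (by norm_num)).trans ?_
  rw [e]
  apply le_of_eq
  ring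

theorem norm_up_le (h : Conf G u w) :
    ‖u - (1 / 4 : ℝ) • (u + w)‖ ≤ (5 - 3 * ⟪u, w⟫) * 5 / 64 + 2 / 5 := by
  have e : ‖u - (1 / 4 : ℝ) • (u + w)‖ ^ 2 = (5 - 3 * ⟪u, w⟫) / 8 := by
    have e1 : u - (1 / 4 : ℝ) • (u + w) = (1 / 4 : ℝ) • ((3 : ℝ) • u - w) := by module
    rw [e1, norm_smul, mul_pow, norm_sub_sq_real, norm_smul, real_inner_smul_left, h.nu, h.nw]
    norm_num
    ring
  refine (le_amgm _ (4 / 5) (by norm_num)).trans ?_
  rw [e]
  apply le_of_eq
  ring

theorem len_lt (h : Conf G u w) : ‖(1 / 4 : ℝ) • (u + w)‖ + ‖u - (1 / 4 : ℝ) • (u + w)‖ +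
    ‖w - (1 / 4 : ℝ) • (u + w)‖ < 2 := by
  have h1 := norm_p_le h
  have h2 := norm_up_le h
  have h3 := norm_up_le h.symm
  rw [add_comm w u, real_inner_comm] at h3
  have := h.c0
  linarith

theorem p_ne (h : Conf G u w) : (1 / 4 : ℝ) • (u + w) ≠ 0 := by
  intro hcon
  have := congrArg (co u w) hcon
  rw [co_smul, co_add, h.co_self, h.co_other] at this
  have h0 : co u w 0 = 0 := by simp [co]
  rw [h0] at this
  norm_num at this

theorem up_ne (h : Conf G u w) : u - (1 / 4 : ℝ) • (u + w) ≠ 0 := by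
  intro hcon
  have := congrArg (co u w) hcon
  rw [co_sub, co_smul, co_add, h.co_self, h.co_other] at this
  have h0 : co u w 0 = 0 := by simp [co]
  rw [h0] at this
  norm_num at this

/-- The main inequality for the zipping map of radius `m`. -/
theorem main_ineq (h : Conf G u w) (P Q : Submodule ℝ (Eu n))
    (hP : ∀ x, x ∈ P ↔ ∃ y ∈ G, ∃ t : ℝ, x = y + t • u)
    (hQ : ∀ x, x ∈ Q ↔ ∃ y ∈ G, ∃ t : ℝ, x = y + t • w) (d : ℕ)
    (hmin : AlmgrenMinimal d ((P : Set (Eu n)) ∪ (Q : Set (Eu n)))) (c : ℝ≥0)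
    (hc : ∀ (q a : Eu n), ‖q‖ = 1 → q ∈ Gᗮ → ∀ (A : Set G) (I : Set ℝ),
      MeasurableSet A → MeasurableSet I →
      μH[(d : ℝ)] ((fun z : G × ℝ => a + ((z.1 : Eu n) + z.2 • q)) '' (A ×ˢ I)) =
        c * (volume A * volume I))
    (K : ℝ≥0) (m : ℝ) (hK : LipschitzWith K (zip u w m)) :
    (c : ℝ≥0∞) * volume (Metric.closedBall (0 : G) m) +
      c * volume (Metric.closedBall (0 : G) m) ≤
    (c * (volume (Metric.closedBall (0 : G) m) * ENNReal.ofReal ‖(1 / 4 : ℝ) • (u + w)‖) +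
      c * (volume (Metric.closedBall (0 : G) m) *
        ENNReal.ofReal ‖u - (1 / 4 : ℝ) • (u + w)‖) +
      c * (volume (Metric.closedBall (0 : G) m) *
        ENNReal.ofReal ‖w - (1 / 4 : ℝ) • (u + w)‖)) +
      ((K : ℝ≥0∞) ^ (d : ℝ) * (c * volume (Metric.closedBall (0 : G) (m + 2) \
        Metric.closedBall (0 : G) m)) + (K : ℝ≥0∞) ^ (d : ℝ) *
          (c * volume (Metric.closedBall (0 : G) (m + 2) \ Metric.closedBall (0 : G) m))) := by
  have hmeas : MeasurableSet (P : Set (Eu n)) := P.closed_of_finiteDimensional.measurableSet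
  have hB : MeasurableSet (Metric.closedBall (0 : G) m) := Metric.isClosed_closedBall.measurableSet
  have hS : MeasurableSet (Metric.closedBall (0 : G) (m + 2) \ Metric.closedBall (0 : G) m) :=
    Metric.isClosed_closedBall.measurableSet.diff hB
  set B := Metric.closedBall (0 : G) m with hBdef
  set Sh := Metric.closedBall (0 : G) (m + 2) \ B with hShdef
  set S : Set (Eu n) := (P : Set (Eu n)) ∪ (Q : Set (Eu n)) with hSdef
  have hp1 : (1 / 4 : ℝ) • (u + w) ∈ Gᗮ := Submodule.smul_mem _ _ (Submodule.add_mem _ h.ou h.ow)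
  have hmem : ∀ x, x ∈ S → (∃ y' ∈ G, ∃ t' : ℝ, x = y' + t' • u) ∨
      (∃ y' ∈ G, ∃ t' : ℝ, x = y' + t' • w) := by
    intro x hx
    rcases hx with hx | hx
    · exact Or.inl ((hP x).mp hx)
    · exact Or.inr ((hQ x).mp hx)
  -- lower bound
  have hlow : (c : ℝ≥0∞) * volume B + c * volume B ≤ μH[(d : ℝ)] (S \ zip u w m '' S) := by
    have hI : volume (Set.Ioo (0 : ℝ) 1) = 1 := by simp
    have h1 := hc u 0 h.nu h.ou B (Set.Ioo 0 1) hB measurableSet_Ioo
    have h2 := hc w 0 h.nw h.ow B (Set.Ioo 0 1) hB measurableSet_Ioo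
    rw [hI, mul_one] at h1 h2
    rw [← measure_inter_add_sdiff (S \ zip u w m '' S) hmeas]
    refine add_le_add ?_ ?_
    · rw [← h1]
      apply measure_mono
      rintro _ ⟨⟨y, t⟩, ⟨hy, ht⟩, rfl⟩
      have hyB : ‖(y : Eu n)‖ ≤ m := by
        have := mem_closedBall_zero_iff.mp hy
        simpa using this
      have hxP : (0 : Eu n) + ((y : Eu n) + t • u) ∈ P := (hP _).mpr ⟨y, y.2, t, by rw [zero_add]⟩
      refine ⟨⟨Or.inl hxP, ?_⟩, hxP⟩
      rintro ⟨x, hx, hxe⟩
      refine arm_missed h m y y.2 hyB t ht.1 ht.2 x (hmem x hx) ?_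
      rw [hxe]
      simp
    · rw [← h2]
      apply measure_mono
      rintro _ ⟨⟨y, t⟩, ⟨hy, ht⟩, rfl⟩
      have hyB : ‖(y : Eu n)‖ ≤ m := by
        have := mem_closedBall_zero_iff.mp hy
        simpa using this
      have hxQ : (0 : Eu n) + ((y : Eu n) + t • w) ∈ Q := (hQ _).mpr ⟨y, y.2, t, by rw [zero_add]⟩
      refine ⟨⟨Or.inr hxQ, ?_⟩, ?_⟩
      · rintro ⟨x, hx, hxe⟩
        refine arm_missed h.symm m y y.2 hyB t ht.1 ht.2 x (hmem x hx).symm ?_
        rw [zip_symm, hxe]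
        simp
      · intro hxP
        obtain ⟨y', hy', t', he⟩ := (hP _).mp hxP
        have h3 := congrArg (co w u) he
        have h4 : co w u (0 + ((y : Eu n) + t • w)) = t := by
          have := co_point h.symm y y.2 t 0
          rw [zero_smul, add_zero] at this
          rw [zero_add]
          exact this
        have h5 : co w u (y' + t' • u) = 0 := by
          have := co_point' h y' hy' t' 0
          rwa [zero_smul, add_zero] at this
        rw [h4, h5] at h3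
        exact absurd h3 ht.1.ne'
  -- upper bound
  have hup : μH[(d : ℝ)] (zip u w m '' S \ S) ≤
      (c * (volume B * ENNReal.ofReal ‖(1 / 4 : ℝ) • (u + w)‖) +
      c * (volume B * ENNReal.ofReal ‖u - (1 / 4 : ℝ) • (u + w)‖) +
      c * (volume B * ENNReal.ofReal ‖w - (1 / 4 : ℝ) • (u + w)‖)) +
      ((K : ℝ≥0∞) ^ (d : ℝ) * (c * volume Sh) + (K : ℝ≥0∞) ^ (d : ℝ) * (c * volume Sh)) := by
    have hI : volume (Set.Icc (0 : ℝ) 1) = 1 := by simp
    have h1 := hc u 0 h.nu h.ou Sh (Set.Icc 0 1) hS measurableSet_Icc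
    have h2 := hc w 0 h.nw h.ow Sh (Set.Icc 0 1) hS measurableSet_Icc
    rw [hI, mul_one] at h1 h2
    have h3 := (hK.hausdorffMeasure_image_le (Nat.cast_nonneg d)
      ((fun z : G × ℝ => (0 : Eu n) + ((z.1 : Eu n) + z.2 • u)) '' (Sh ×ˢ Set.Icc 0 1)))
    have h4 := (hK.hausdorffMeasure_image_le (Nat.cast_nonneg d)
      ((fun z : G × ℝ => (0 : Eu n) + ((z.1 : Eu n) + z.2 • w)) '' (Sh ×ˢ Set.Icc 0 1)))
    rw [h1] at h3
    rw [h2] at h4
    have h5 := seg_measure G d c hc 0 _ hp1 (p_ne h) B hB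
    have h6 := seg_measure G d c hc ((1 / 4 : ℝ) • (u + w)) _ (Submodule.sub_mem _ h.ou hp1)
      (up_ne h) B hB
    have h7 := seg_measure G d c hc ((1 / 4 : ℝ) • (u + w)) _ (Submodule.sub_mem _ h.ow hp1)
        (by have := up_ne h.symm; rwa [add_comm w u] at this) B hB
    refine le_trans (measure_mono ?_) (le_trans (measure_union_le _ _) (add_le_add
      (le_trans (measure_union_le _ _) (add_le_add
        (le_trans (measure_union_le _ _) (add_le_add h5.le h6.le)) h7.le))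
      (le_trans (measure_union_le _ _) (add_le_add h3 h4))))
    rintro _ ⟨⟨x, hx, rfl⟩, hnot⟩
    have hne : zip u w m x ≠ x := by
      intro he
      apply hnot
      rw [he]
      exact hx
    rcases hmem x hx with ⟨y, hy, t, rfl⟩ | ⟨y, hy, t, rfl⟩
    · obtain ⟨ht0, ht1, hy2, hcase⟩ := image_cases h m y hy t hne
      by_cases hym : ‖y‖ ≤ m
      · have hyB : (⟨y, hy⟩ : G) ∈ B := by
          rw [hBdef, mem_closedBall_zero_iff]
          exact hym
        left
        left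
        rcases hcase hym with ⟨s, hs, he⟩ | ⟨s, hs, he⟩
        · left
          exact ⟨(⟨y, hy⟩, s), ⟨hyB, hs⟩, he.symm⟩
        · right
          exact ⟨(⟨y, hy⟩, s), ⟨hyB, hs⟩, he.symm⟩
      · right
        left
        refine ⟨y + t • u, ⟨(⟨y, hy⟩, t), ⟨⟨?_, ?_⟩, ⟨ht0.le, ht1.le⟩⟩, by simp⟩, rfl⟩
        · rw [mem_closedBall_zero_iff]
          exact hy2.le
        · intro hyB
          rw [hBdef, mem_closedBall_zero_iff] at hyB
          exact hym hyB
    · rw [← zip_symm] at hne ⊢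
      obtain ⟨ht0, ht1, hy2, hcase⟩ := image_cases h.symm m y hy t hne
      rw [add_comm w u] at hcase
      by_cases hym : ‖y‖ ≤ m
      · have hyB : (⟨y, hy⟩ : G) ∈ B := by
          rw [hBdef, mem_closedBall_zero_iff]
          exact hym
        left
        rcases hcase hym with ⟨s, hs, he⟩ | ⟨s, hs, he⟩
        · left
          left
          exact ⟨(⟨y, hy⟩, s), ⟨hyB, hs⟩, he.symm⟩
        · right
          exact ⟨(⟨y, hy⟩, s), ⟨hyB, hs⟩, he.symm⟩
      · right
        right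
        rw [zip_symm]
        refine ⟨y + t • w, ⟨(⟨y, hy⟩, t), ⟨⟨?_, ?_⟩, ⟨ht0.le, ht1.le⟩⟩, by simp⟩, rfl⟩
        · rw [mem_closedBall_zero_iff]
          exact hy2.le
        · intro hyB
          rw [hBdef, mem_closedBall_zero_iff] at hyB
          exact hym hyB
  exact hlow.trans ((hmin.2.2 _ (zip_deformation u w m)).trans hup)

theorem core (h : Conf G u w) (P Q : Submodule ℝ (Eu n))
    (hP : ∀ x, x ∈ P ↔ ∃ y ∈ G, ∃ t : ℝ, x = y + t • u)
    (hQ : ∀ x, x ∈ Q ↔ ∃ y ∈ G, ∃ t : ℝ, x = y + t • w) (d : ℕ) (hd : finrank ℝ G + 1 = d) :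
    ¬ AlmgrenMinimal d ((P : Set (Eu n)) ∪ (Q : Set (Eu n))) := by
  intro hmin
  obtain ⟨c, hc0, hc⟩ := strip_measure G d hd
  obtain ⟨K, hK⟩ := zip_lip u w
  set s := finrank ℝ G with hs
  have hb0 : volume (Metric.ball (0 : G) 1) ≠ 0 :=
    (Metric.measure_ball_pos volume (0 : G) zero_lt_one).ne'
  have hbt : volume (Metric.ball (0 : G) 1) ≠ ⊤ := measure_ball_lt_top.ne
  set b : ℝ := (volume (Metric.ball (0 : G) 1)).toReal with hb
  have hbp : 0 < b := ENNReal.toReal_pos hb0 hbt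
  have hbe : volume (Metric.ball (0 : G) 1) = ENNReal.ofReal b := (ENNReal.ofReal_toReal hbt).symm
  have hcp : 0 < (c : ℝ) := lt_of_le_of_ne c.2 (fun h => hc0 (by ext; exact h.symm))
  set p1 := ‖(1 / 4 : ℝ) • (u + w)‖ with hp1
  set p2 := ‖u - (1 / 4 : ℝ) • (u + w)‖ with hp2
  set p3 := ‖w - (1 / 4 : ℝ) • (u + w)‖ with hp3
  have hlen : p1 + p2 + p3 < 2 := len_lt h
  set κ : ℝ := (K : ℝ) ^ (d : ℝ) with hκ
  have hκ0 : 0 ≤ κ := Real.rpow_nonneg (NNReal.coe_nonneg K) _
  have key : ∀ m : ℝ, 0 < m →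
      2 * m ^ s ≤ m ^ s * (p1 + p2 + p3) + 2 * κ * ((m + 2) ^ s - m ^ s) := by
    intro m hm
    have hmm : m ^ s ≤ (m + 2) ^ s := pow_le_pow_left₀ hm.le (by linarith) s
    have hms : 0 < m ^ s := pow_pos hm s
    have h1 := main_ineq h P Q hP hQ d hmin c hc K m (hK m)
    have hB : volume (Metric.closedBall (0 : G) m) = ENNReal.ofReal (m ^ s * b) := by
      rw [Measure.addHaar_closedBall volume (0 : G) hm.le, hbe, ← ENNReal.ofReal_mul hms.le]
    have hB2 : volume (Metric.closedBall (0 : G) (m + 2)) = ENNReal.ofReal ((m + 2) ^ s * b) := by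
      rw [Measure.addHaar_closedBall volume (0 : G) (by linarith), hbe,
        ← ENNReal.ofReal_mul (by positivity)]
    have hSh : volume (Metric.closedBall (0 : G) (m + 2) \ Metric.closedBall (0 : G) m) =
        ENNReal.ofReal (((m + 2) ^ s - m ^ s) * b) := by
      rw [measure_sdiff (Metric.closedBall_subset_closedBall (by linarith))
        Metric.isClosed_closedBall.measurableSet.nullMeasurableSet measure_closedBall_lt_top.ne,
        hB, hB2, ← ENNReal.ofReal_sub _ (by positivity), sub_mul]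
    have hce : (c : ℝ≥0∞) = ENNReal.ofReal (c : ℝ) := by simp
    have hKe : (K : ℝ≥0∞) ^ (d : ℝ) = ENNReal.ofReal κ := by
      rw [hκ, ← ENNReal.ofReal_rpow_of_nonneg (NNReal.coe_nonneg K) (Nat.cast_nonneg d)]
      simp
    have hd0 : 0 ≤ ((m + 2) ^ s - m ^ s) * b := mul_nonneg (by linarith) hbp.le
    rw [hB, hSh, hce, hKe] at h1
    simp only [← ENNReal.ofReal_mul hcp.le, ← ENNReal.ofReal_mul hκ0,
      ← ENNReal.ofReal_mul (mul_nonneg hms.le hbp.le)] at h1
    have q1 : 0 ≤ (c : ℝ) * (m ^ s * b) := by positivity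
    have q2 : 0 ≤ (c : ℝ) * (m ^ s * b * p1) := by positivity
    have q3 : 0 ≤ (c : ℝ) * (m ^ s * b * p2) := by positivity
    have q4 : 0 ≤ (c : ℝ) * (m ^ s * b * p3) := by positivity
    have q5 : 0 ≤ κ * ((c : ℝ) * (((m + 2) ^ s - m ^ s) * b)) :=
      mul_nonneg hκ0 (mul_nonneg hcp.le hd0)
    rw [← ENNReal.ofReal_add q1 q1, ← ENNReal.ofReal_add q2 q3,
      ← ENNReal.ofReal_add (add_nonneg q2 q3) q4, ← ENNReal.ofReal_add q5 q5,
      ← ENNReal.ofReal_add (add_nonneg (add_nonneg q2 q3) q4) (add_nonneg q5 q5),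
      ENNReal.ofReal_le_ofReal_iff (add_nonneg (add_nonneg (add_nonneg q2 q3) q4)
        (add_nonneg q5 q5))] at h1
    have h2 : (c * b) * (2 * m ^ s) ≤
        (c * b) * (m ^ s * (p1 + p2 + p3) + 2 * κ * ((m + 2) ^ s - m ^ s)) := by
      linarith
    exact le_of_mul_le_mul_left h2 (mul_pos hcp hbp)
  have lim : Filter.Tendsto (fun m : ℝ => (p1 + p2 + p3) + 2 * κ * ((1 + 2 / m) ^ s - 1))
      Filter.atTop (nhds ((p1 + p2 + p3) + 2 * κ * ((1 + 0) ^ s - 1))) := by
    refine Filter.Tendsto.const_add _ (Filter.Tendsto.const_mul _ (Filter.Tendsto.sub_const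
      (Filter.Tendsto.pow (Filter.Tendsto.const_add _ ?_) s) 1))
    exact Filter.Tendsto.div_atTop tendsto_const_nhds Filter.tendsto_id
  have hge : (2 : ℝ) ≤ (p1 + p2 + p3) + 2 * κ * ((1 + 0) ^ s - 1) := by
    refine ge_of_tendsto lim ?_
    filter_upwards [Filter.eventually_gt_atTop (0 : ℝ)] with m hm
    have h1 := key m hm
    have hms : 0 < m ^ s := pow_pos hm s
    have e : (m + 2) ^ s = (1 + 2 / m) ^ s * m ^ s := by
      rw [← mul_pow]
      congr 1
      field_simp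
    rw [e] at h1
    have h2 : m ^ s * 2 ≤ m ^ s * ((p1 + p2 + p3) + 2 * κ * ((1 + 2 / m) ^ s - 1)) := by
      linarith
    exact le_of_mul_le_mul_left h2 hms
  rw [add_zero, one_pow, sub_self, mul_zero, add_zero] at hge
  linarith

/-- A unit vector that spans the orthogonal complement of `G` in `P`. -/
theorem exists_unit (G P : Submodule ℝ (Eu n)) (hGP : G ≤ P)
    (hd : finrank ℝ G + 1 = finrank ℝ P) : ∃ u : Eu n, ‖u‖ = 1 ∧ u ∈ Gᗮ ∧ u ∈ P ∧
      ∀ x, x ∈ P ↔ ∃ y ∈ G, ∃ t : ℝ, x = y + t • u := by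
  have h1 := Submodule.finrank_add_inf_finrank_orthogonal hGP
  have h2 : finrank ℝ (Gᗮ ⊓ P : Submodule ℝ (Eu n)) = 1 := by omega
  obtain ⟨v, hv0, hv⟩ := finrank_eq_one_iff'.mp h2
  have hvn : 0 < ‖(v : Eu n)‖ := norm_pos_iff.mpr (fun h => hv0 (Subtype.ext h))
  have hvG : (v : Eu n) ∈ Gᗮ := v.2.1
  have hvP : (v : Eu n) ∈ P := v.2.2
  refine ⟨‖(v : Eu n)‖⁻¹ • (v : Eu n), ?_, Submodule.smul_mem _ _ hvG, Submodule.smul_mem _ _ hvP,
    ?_⟩
  · rw [norm_smul, norm_inv, norm_norm, inv_mul_cancel₀ hvn.ne']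
  · intro x
    constructor
    · intro hx
      have hxG : x - G.starProjection x ∈ Gᗮ := Submodule.sub_starProjection_mem_orthogonal x
      have hpG : G.starProjection x ∈ G := Submodule.starProjection_apply_mem G x
      obtain ⟨t, ht⟩ := hv ⟨x - G.starProjection x, hxG, P.sub_mem hx (hGP hpG)⟩
      have ht' : t • (v : Eu n) = x - G.starProjection x := congrArg Subtype.val ht
      refine ⟨G.starProjection x, hpG, t * ‖(v : Eu n)‖, ?_⟩
      rw [smul_smul, mul_assoc, mul_inv_cancel₀ hvn.ne', mul_one, ht']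
      abel
    · rintro ⟨y, hy, t, rfl⟩
      exact P.add_mem (hGP hy) (P.smul_mem _ (P.smul_mem _ hvP))

end

end Codim

/-- Two `d`-planes crossing along a `(d-1)`-plane are not Almgren minimal. -/
theorem not_minimal_codim_one {n d : ℕ} (P Q : Submodule ℝ (Eu n)) (hP : finrank ℝ P = d)
    (hQ : finrank ℝ Q = d) (hPQ : finrank ℝ (P ⊓ Q : Submodule ℝ (Eu n)) + 1 = d) :
    ¬ AlmgrenMinimal d ((P : Set (Eu n)) ∪ (Q : Set (Eu n))) := by
  set G : Submodule ℝ (Eu n) := P ⊓ Q with hG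
  obtain ⟨u, hu1, huG, huP, hu⟩ := Codim.exists_unit G P inf_le_left (by omega)
  obtain ⟨w, hw1, hwG, hwQ, hw⟩ := Codim.exists_unit G Q inf_le_right (by omega)
  have hne : ∀ w' : Eu n, w' ∈ Q → u ≠ w' := by
    intro w' hw' he
    have h1 : u ∈ G := ⟨huP, he ▸ hw'⟩
    have h2 : ⟪u, u⟫ = 0 := Submodule.inner_right_of_mem_orthogonal h1 huG
    have h3 : u = 0 := inner_self_eq_zero.mp h2
    rw [h3, norm_zero] at hu1
    exact zero_ne_one hu1
  have hlt : ∀ w' : Eu n, w' ∈ Q → ‖w'‖ = 1 → ⟪u, w'⟫ < 1 := by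
    intro w' hw' hw1'
    have h1 : ⟪u, w'⟫ ≤ 1 := by
      have := real_inner_le_norm u w'
      rwa [hu1, hw1', one_mul] at this
    refine lt_of_le_of_ne h1 fun he => hne w' hw' ?_
    exact (inner_eq_one_iff_of_norm_eq_one hu1 hw1').mp he
  rcases le_total 0 ⟪u, w⟫ with hc | hc
  · exact Codim.core ⟨hu1, hw1, huG, hwG, hc, hlt w hwQ hw1⟩ P Q hu hw d hPQ
  · refine Codim.core (w := -w) ⟨hu1, by rw [norm_neg, hw1], huG, Submodule.neg_mem _ hwG,
      by rw [inner_neg_right]; linarith, hlt (-w) (Q.neg_mem hwQ) (by rw [norm_neg, hw1])⟩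
      P Q hu ?_ d hPQ
    intro x
    rw [hw x]
    constructor
    · rintro ⟨y, hy, t, rfl⟩
      exact ⟨y, hy, -t, by simp⟩
    · rintro ⟨y, hy, t, rfl⟩
      exact ⟨y, hy, -t, by simp⟩

end H56Mono
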