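import Mathlib

/-!
Monotonicity of Almgren minimal angles for unions of `d`-planes: definitions.
-/

open MeasureTheory Measure
open scoped InnerProductSpace RealInnerProductSpace

namespace H56Mono

/-- Euclidean space `R^n`. -/
abbrev Eu (n : ℕ) : Type := EuclideanSpace ℝ (Fin n)

/-- An Almgren deformation: a Lipschitz map which is the identity outside some closed ball and
maps this ball into itself. -/
def IsDeformation {X : Type*} [PseudoMetricSpace X] (f : X → X) : Prop :=
  (∃ K : NNReal, LipschitzWith K f) ∧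
    ∃ (c : X) (r : ℝ), (∀ x, x ∉ Metric.closedBall c r → f x = x) ∧
      ∀ x ∈ Metric.closedBall c r, f x ∈ Metric.closedBall c r

/-- `S` is Almgren minimal (of dimension `d`): closed, locally of finite `H^d` measure, and
`H^d (S minus F) ≤ H^d (F minus S)` for every Almgren competitor `F = f(S)`. -/
def AlmgrenMinimal {X : Type*} [MetricSpace X] [MeasurableSpace X] [BorelSpace X]
    (d : ℕ) (S : Set X) : Prop :=
  IsClosed S ∧ (∀ (c : X) (r : ℝ), μH[(d : ℝ)] (S ∩ Metric.closedBall c r) < ⊤) ∧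
    ∀ f : X → X, IsDeformation f → μH[(d : ℝ)] (S \ f '' S) ≤ μH[(d : ℝ)] (f '' S \ S)

/-- `P` and `Q` are `d`-planes with characteristic angles `a_1, ..., a_d`: there are orthonormal
bases `e`, `f` of `P`, `Q` with `<e_k, f_l> = delta_kl cos a_k`. -/
def HasAngles {n d : ℕ} (P Q : Submodule ℝ (Eu n)) (a : Fin d → ℝ) : Prop :=
  ∃ e f : Fin d → Eu n, Orthonormal ℝ e ∧ Orthonormal ℝ f ∧
    Submodule.span ℝ (Set.range e) = P ∧ Submodule.span ℝ (Set.range f) = Q ∧
    ∀ k l, ⟪e k, f l⟫ = if k = l then Real.cos (a k) else 0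

/-- Families of angles `0 ≤ a^{ij}_1 ≤ ... ≤ a^{ij}_d ≤ pi/2`, `i < j` (entries with `j ≤ i` are
irrelevant). -/
def IsAngleFamily {m d : ℕ} (a : Fin m → Fin m → Fin d → ℝ) : Prop :=
  ∀ i j, i < j → Monotone (a i j) ∧ ∀ k, 0 ≤ a i j k ∧ a i j k ≤ Real.pi / 2

/-- The planes `P_1, ..., P_m` are `d`-dimensional and have the characteristic angles `a`. -/
def Realizes {n m d : ℕ} (P : Fin m → Submodule ℝ (Eu n)) (a : Fin m → Fin m → Fin d → ℝ) :
    Prop :=
  (∀ i, Module.finrank ℝ (P i) = d) ∧ ∀ i j, i < j → HasAngles (P i) (P j) (a i j)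

/-- `a` is an Almgren minimal angle in `R^n`. -/
def AlmgrenMinimalAngle (n : ℕ) {m d : ℕ} (a : Fin m → Fin m → Fin d → ℝ) : Prop :=
  IsAngleFamily a ∧ (∃ P : Fin m → Submodule ℝ (Eu n), Realizes P a) ∧
    ∀ P : Fin m → Submodule ℝ (Eu n), Realizes P a →
      AlmgrenMinimal d (⋃ i, (P i : Set (Eu n)))

/-- The `m × m` matrix with `1` on the diagonal and `- cos a^{ij}_1` off the diagonal. -/
noncomputable def flexMatrix {m d : ℕ} (hd : 0 < d) (a : Fin m → Fin m → Fin d → ℝ) :
    Matrix (Fin m) (Fin m) ℝ :=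
  Matrix.of fun i j => if i = j then 1 else - Real.cos (a (min i j) (max i j) ⟨0, hd⟩)

end H56Mono
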