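import Pool.Agent.H56.Mono.Defs

/-!
# MP_bd2026_an: existence of planes with prescribed characteristic angles
-/

set_option autoImplicit false

open MeasureTheory Measure Module
open scoped InnerProductSpace RealInnerProductSpace NNReal ENNReal

namespace H56Mono

/-- scalar products of the `k`-th basis vectors -/
noncomputable def h72_g {m d : ℕ} (b : Fin m → Fin m → Fin d → ℝ) (i j : Fin m) (k : Fin d) : ℝ :=
  if i = j then 1 else Real.cos (b (min i j) (max i j) k)

/-- the Gram matrix -/
noncomputable def h72_G {m d : ℕ} (b : Fin m → Fin m → Fin d → ℝ) :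
    Matrix (Fin m × Fin d) (Fin m × Fin d) ℝ :=
  Matrix.of fun p q => if p.2 = q.2 then h72_g b p.1 q.1 p.2 else 0

theorem h72_g_symm {m d : ℕ} (b : Fin m → Fin m → Fin d → ℝ) (i j : Fin m) (k : Fin d) :
    h72_g b i j k = h72_g b j i k := by
  unfold h72_g
  by_cases h : i = j
  · rw [if_pos h, if_pos h.symm]
  · rw [if_neg h, if_neg (Ne.symm h), min_comm, max_comm]

theorem h72_G_herm {m d : ℕ} (b : Fin m → Fin m → Fin d → ℝ) : (h72_G b).IsHermitian := by
  ext p q
  rw [Matrix.conjTranspose_apply]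
  simp only [h72_G, Matrix.of_apply, star_trivial]
  by_cases h : p.2 = q.2
  · rw [if_pos h, if_pos h.symm, h72_g_symm, h]
  · rw [if_neg h, if_neg (Ne.symm h)]

theorem h72_G_quad {m d : ℕ} (b : Fin m → Fin m → Fin d → ℝ) (z : Fin m × Fin d → ℝ) :
    star z ⬝ᵥ (h72_G b).mulVec z =
      ∑ k : Fin d, ∑ i : Fin m, ∑ j : Fin m, h72_g b i j k * (z (i, k) * z (j, k)) := by
  have h1 : ∀ p : Fin m × Fin d, (h72_G b).mulVec z p = ∑ j : Fin m, h72_g b p.1 j p.2 * z (j, p.2) := by
    intro p
    simp only [Matrix.mulVec, dotProduct, h72_G, Matrix.of_apply]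
    rw [Fintype.sum_prod_type]
    apply Finset.sum_congr rfl
    intro j _
    simp only [ite_mul, zero_mul]
    rw [Finset.sum_ite_eq]
    simp
  simp only [dotProduct, h1, star_trivial, Pi.star_apply]
  rw [Fintype.sum_prod_type, Finset.sum_comm]
  apply Finset.sum_congr rfl
  intro k _
  apply Finset.sum_congr rfl
  intro i _
  rw [Finset.mul_sum]
  apply Finset.sum_congr rfl
  intro j _
  ring

theorem h72_G_pos {m d : ℕ} (hd : 0 < d) (a b : Fin m → Fin m → Fin d → ℝ)
    (ha : IsAngleFamily a) (hb : IsAngleFamily b) (hab : ∀ i j, i < j → ∀ k, a i j k ≤ b i j k)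
    (hflex : (flexMatrix hd a).PosSemidef) : (h72_G b).PosSemidef := by
  apply Matrix.PosSemidef.of_dotProduct_mulVec_nonneg (h72_G_herm b)
  intro z
  rw [h72_G_quad]
  apply Finset.sum_nonneg
  intro k _
  have h1 := hflex.dotProduct_mulVec_nonneg (fun i => |z (i, k)|)
  refine le_trans h1 ?_
  simp only [dotProduct, Matrix.mulVec, Pi.star_apply, star_trivial]
  apply Finset.sum_le_sum
  intro i _
  rw [Finset.mul_sum]
  apply Finset.sum_le_sum
  intro j _
  have hzz : 0 ≤ |z (i, k)| * |z (j, k)| := mul_nonneg (abs_nonneg _) (abs_nonneg _)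
  have hz1 : -(|z (i, k)| * |z (j, k)|) ≤ z (i, k) * z (j, k) := by
    rw [← abs_mul]
    exact neg_abs_le _
  unfold h72_g flexMatrix
  rw [Matrix.of_apply]
  by_cases hij : i = j
  · subst hij
    rw [if_pos rfl, if_pos rfl]
    have := abs_mul_abs_self (z (i, k))
    nlinarith
  · rw [if_neg hij, if_neg hij]
    have hlt : min i j < max i j := by
      rcases lt_or_gt_of_ne hij with h | h
      · rw [min_eq_left h.le, max_eq_right h.le]
        exact h
      · rw [min_eq_right h.le, max_eq_left h.le]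
        exact h
    obtain ⟨hmono, hra⟩ := ha _ _ hlt
    obtain ⟨-, hrb⟩ := hb _ _ hlt
    have c1 : Real.cos (b (min i j) (max i j) k) ≤ Real.cos (a (min i j) (max i j) ⟨0, hd⟩) := by
      apply Real.cos_le_cos_of_nonneg_of_le_pi (hra _).1
      · have := (hrb k).2
        have := Real.pi_pos
        linarith
      · refine le_trans (hmono ?_) (hab _ _ hlt k)
        exact Fin.mk_le_of_le_val (Nat.zero_le _)
    have c0 : 0 ≤ Real.cos (b (min i j) (max i j) k) := by
      apply Real.cos_nonneg_of_mem_Icc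
      have := (hrb k).1
      have := (hrb k).2
      have := Real.pi_pos
      exact ⟨by linarith, by linarith⟩
    nlinarith

open scoped MatrixOrder ComplexOrder Matrix.Norms.L2Operator in
theorem h72_factor {ι : Type*} [Fintype ι] [DecidableEq ι] (G : Matrix ι ι ℝ)
    (hG : G.PosSemidef) : ∃ B : Matrix ι ι ℝ, ∀ p q, ∑ r, B r p * B r q = G p q := by
  obtain ⟨B, hB⟩ := CStarAlgebra.nonneg_iff_eq_star_mul_self.mp hG.nonneg
  refine ⟨B, fun p q => ?_⟩
  rw [hB, Matrix.star_eq_conjTranspose, Matrix.mul_apply]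
  apply Finset.sum_congr rfl
  intro r _
  rw [Matrix.conjTranspose_apply, star_trivial]

/-! ### W4 -/
theorem exists_realizes {n m d : ℕ} (hn : d * m ≤ n) (hd : 0 < d)
    (a b : Fin m → Fin m → Fin d → ℝ)
    (ha : IsAngleFamily a) (hb : IsAngleFamily b) (hab : ∀ i j, i < j → ∀ k, a i j k ≤ b i j k)
    (hflex : (flexMatrix hd a).PosSemidef) :
    ∃ P : Fin m → Submodule ℝ (Eu n), Realizes P b := by
  obtain ⟨B, hB⟩ := h72_factor (h72_G b) (h72_G_pos hd a b ha hb hab hflex)
  obtain ⟨e⟩ : Nonempty (Fin m × Fin d ↪ Fin n) := by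
    apply Function.Embedding.nonempty_of_card_le
    rw [Fintype.card_prod, Fintype.card_fin, Fintype.card_fin, Fintype.card_fin, mul_comm]
    exact hn
  have hu : Orthonormal ℝ (fun r => EuclideanSpace.basisFun (Fin n) ℝ (e r)) :=
    (EuclideanSpace.basisFun (Fin n) ℝ).orthonormal.comp e e.injective
  obtain ⟨W, hW⟩ : ∃ W : Fin m × Fin d → Eu n, ∀ p q, ⟪W p, W q⟫ = h72_G b p q := by
    refine ⟨fun p => ∑ r, B r p • EuclideanSpace.basisFun (Fin n) ℝ (e r), fun p q => ?_⟩
    rw [hu.inner_sum, ← hB]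
    simp
  have hon : ∀ i : Fin m, Orthonormal ℝ (fun k => W (i, k)) := by
    intro i
    rw [orthonormal_iff_ite]
    intro k l
    rw [hW]
    simp [h72_G, h72_g]
  refine ⟨fun i => Submodule.span ℝ (Set.range (fun k => W (i, k))), ?_, ?_⟩
  · intro i
    rw [finrank_span_eq_card (hon i).linearIndependent, Fintype.card_fin]
  · intro i j hij
    refine ⟨fun k => W (i, k), fun k => W (j, k), hon i, hon j, rfl, rfl, ?_⟩
    intro k l
    rw [hW]
    simp [h72_G, h72_g, hij.ne, min_eq_left hij.le, max_eq_right hij.le]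

end H56Mono
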