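import Pool.Agent.H56.Mono.Full
import Pool.Agent.H56.Mono.Exist
import Pool.Agent.H56.Mono.Codim

open MeasureTheory Measure Module
open scoped InnerProductSpace RealInnerProductSpace NNReal ENNReal

namespace H56Mono

theorem min_of_flex {n m d : ℕ} (hd : 0 < d) (a b : Fin m → Fin m → Fin d → ℝ)
    (ha : IsAngleFamily a) (hb : IsAngleFamily b) (hab : ∀ i j, i < j → ∀ k, a i j k ≤ b i j k)
    (hflex : (flexMatrix hd a).PosDef)
    (hmin : ∀ P : Fin m → Submodule ℝ (Eu n), Realizes P a →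
      AlmgrenMinimal d (⋃ i, (P i : Set (Eu n))))
    (P : Fin m → Submodule ℝ (Eu n)) (hP : Realizes P b) :
    AlmgrenMinimal d (⋃ i, (P i : Set (Eu n))) :=
  min_of_flex_of (fun n d i k _ _ P hP l l2 hl x0 c hx0 hpos hmin =>
    box P hP l l2 hl x0 c hx0 hpos hmin) hd a b ha hb hab hflex hmin P hP

/-- Monotonicity for `m` planes with flexible angles. -/
theorem flex_monotone {n m d : ℕ} (hd : 0 < d) (hn : d * m ≤ n)
    (a b : Fin m → Fin m → Fin d → ℝ)
    (hb : IsAngleFamily b) (hab : ∀ i j, i < j → ∀ k, a i j k ≤ b i j k)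
    (hflex : (flexMatrix hd a).PosDef) (h : AlmgrenMinimalAngle n a) :
    AlmgrenMinimalAngle n b :=
  ⟨hb, exists_realizes hn hd a b h.1 hb hab hflex.posSemidef,
    fun P hP => min_of_flex hd a b h.1 hb hab hflex h.2.2 P hP⟩

theorem HasAngles.finrank_eq {n d : ℕ} {P Q : Submodule ℝ (Eu n)} {a : Fin d → ℝ}
    (h : HasAngles P Q a) : finrank ℝ P = d ∧ finrank ℝ Q = d := by
  obtain ⟨e, f, he, hf, hP, hQ, -⟩ := h
  constructor
  · rw [← hP, finrank_span_eq_card he.linearIndependent]
    simp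
  · rw [← hQ, finrank_span_eq_card hf.linearIndependent]
    simp

theorem flexMatrix_two_posSemidef {d : ℕ} (hd : 0 < d) (b : Fin 2 → Fin 2 → Fin d → ℝ)
    (hb : IsAngleFamily b) : (flexMatrix hd b).PosSemidef := by
  have hpi := Real.pi_pos
  refine Matrix.PosSemidef.of_dotProduct_mulVec_nonneg ?_ ?_
  · ext i j
    simp only [flexMatrix, Matrix.conjTranspose_apply, Matrix.of_apply, star_trivial]
    rw [min_comm, max_comm]
    by_cases hij : i = j
    · simp [hij]
    · simp [hij, Ne.symm hij]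
  · intro x
    have h1 : flexMatrix hd b 0 0 = 1 := by simp [flexMatrix]
    have h2 : flexMatrix hd b 1 1 = 1 := by simp [flexMatrix]
    have h3 : flexMatrix hd b 0 1 = - Real.cos (b 0 1 ⟨0, hd⟩) := by simp [flexMatrix]
    have h4 : flexMatrix hd b 1 0 = - Real.cos (b 0 1 ⟨0, hd⟩) := by
      simp [flexMatrix]
    have e : star x ⬝ᵥ (flexMatrix hd b).mulVec x =
        x 0 ^ 2 + x 1 ^ 2 - 2 * Real.cos (b 0 1 ⟨0, hd⟩) * x 0 * x 1 := by
      simp only [dotProduct, Matrix.mulVec, Fin.sum_univ_two, h1, h2, h3, h4, Pi.star_apply,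
        star_trivial]
      ring
    rw [e]
    have hc1 := Real.cos_le_one (b 0 1 ⟨0, hd⟩)
    have hc2 := Real.neg_one_le_cos (b 0 1 ⟨0, hd⟩)
    nlinarith [mul_nonneg (sub_nonneg.2 hc1) (sq_nonneg (x 0 + x 1)),
      mul_nonneg (by linarith : 0 ≤ 1 + Real.cos (b 0 1 ⟨0, hd⟩)) (sq_nonneg (x 0 - x 1))]

/-- Monotonicity for two planes: complete. -/
theorem two_monotone {n d : ℕ} (hd : 0 < d) (hn : d * 2 ≤ n)
    (a b : Fin 2 → Fin 2 → Fin d → ℝ)
    (hb : IsAngleFamily b) (hab : ∀ k, a 0 1 k ≤ b 0 1 k) (hne : ∃ k, a 0 1 k ≠ 0)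
    (h : AlmgrenMinimalAngle n a) : AlmgrenMinimalAngle n b := by
  classical
  have h01 : (0 : Fin 2) < 1 := by decide
  have hU : ∀ P : Fin 2 → Submodule ℝ (Eu n), (⋃ i, (P i : Set (Eu n))) =
      (P 0 : Set (Eu n)) ∪ (P 1 : Set (Eu n)) := by
    intro P
    ext z
    simp [Set.mem_iUnion]
  have hreal : ∀ (c : Fin 2 → Fin 2 → Fin d → ℝ) (P : Fin 2 → Submodule ℝ (Eu n)),
      HasAngles (P 0) (P 1) (c 0 1) → Realizes P c := by
    intro c P hP
    refine ⟨?_, ?_⟩
    · intro i
      fin_cases i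
      · exact hP.finrank_eq.1
      · exact hP.finrank_eq.2
    · intro i j hij
      have hi : i = 0 := by
        fin_cases i
        · rfl
        · fin_cases j <;> simp at hij
      have hj : j = 1 := by
        subst hi
        fin_cases j
        · simp at hij
        · rfl
      subst hi hj
      exact hP
  have ha := h.1
  have hmin : ∀ P Q : Submodule ℝ (Eu n), HasAngles P Q (a 0 1) →
      AlmgrenMinimal d ((P : Set (Eu n)) ∪ (Q : Set (Eu n))) := by
    intro P Q hPQ
    have := h.2.2 ![P, Q] (hreal a ![P, Q] (by simpa using hPQ))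
    rw [hU] at this
    simpa using this
  -- number of zero angles
  have hz : (Finset.univ.filter (fun k => a 0 1 k = 0)).card + 2 ≤ d := by
    have hlt : (Finset.univ.filter (fun k => a 0 1 k = 0)).card < d := by
      obtain ⟨k, hk⟩ := hne
      have : (Finset.univ.filter (fun k => a 0 1 k = 0)).card < (Finset.univ : Finset (Fin d)).card := by
        apply Finset.card_lt_card
        rw [Finset.filter_ssubset]
        exact ⟨k, Finset.mem_univ _, hk⟩
      simpa using this
    by_contra hcon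
    have heq : (Finset.univ.filter (fun k => a 0 1 k = 0)).card + 1 = d := by omega
    obtain ⟨P, hP⟩ := h.2.1
    have hang := hP.2 0 1 h01
    have hdim := finrank_inf_le (P 0) (P 1) (a 0 1) (ha 0 1 h01).2 hang
    exact not_minimal_codim_one (P 0) (P 1) hang.finrank_eq.1 hang.finrank_eq.2
      (by rw [hdim]; exact heq) (hmin _ _ hang)
  refine ⟨hb, ?_, ?_⟩
  · exact exists_realizes hn hd b b hb hb (fun _ _ _ _ => le_rfl)
      (flexMatrix_two_posSemidef hd b hb)
  · intro P hP
    rw [hU]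
    exact min_two_full (a 0 1) (b 0 1) (ha 0 1 h01).2 (hb 0 1 h01).2 hab hz hmin _ _
      (hP.2 0 1 h01)

end H56Mono
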