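import Pool.Agent.H56.Mono.Defs

/-!
# Monotonicity for flexible families of planes
-/

open MeasureTheory Measure Module
open scoped InnerProductSpace RealInnerProductSpace NNReal ENNReal

namespace H56Mono

/-- The statement of `box` (file `Box.lean`). -/
def BoxStmt : Prop :=
  ∀ (n d : ℕ) (ι κ : Type) [Finite ι] [Fintype κ]
    (P : ι → Submodule ℝ (Eu n)) (_hP : ∀ i, finrank ℝ (P i) = d)
    (l l' : κ → Eu n →ₗ[ℝ] ℝ) (_hl : ∀ k i, ∀ z ∈ P i, l k z * l' k z = 0)
    (x0 c : κ → ℝ) (_hx0 : ∀ k, |x0 k| ≤ c k)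
    (_hpos : ∀ x : κ → ℝ, (∀ k, |x k| ≤ c k) → ∀ z : Eu n, z ≠ 0 →
      0 < ⟪z, z⟫ + 2 * ∑ k, (x k - x0 k) * (l k z * l' k z))
    (_hmin : ∀ x : κ → ℝ, (∀ k, |x k| = c k) → ∀ T : Eu n →ₗ[ℝ] Eu n,
      (∀ z w, ⟪T z, T w⟫ = ⟪z, w⟫ +
        ∑ k, (x k - x0 k) * (l k z * l' k w + l' k z * l k w)) →
      AlmgrenMinimal d (⋃ i, (((P i).map T : Submodule ℝ (Eu n)) : Set (Eu n)))),
    AlmgrenMinimal d (⋃ i, (P i : Set (Eu n)))

theorem fx_sum_sym {m : ℕ} (g : Fin m → Fin m → ℝ) (hg : ∀ i j, g i j = g j i) :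
    ∑ i, ∑ j, g i j = ∑ i, g i i + 2 * ∑ i, ∑ j, if i < j then g i j else 0 := by
  have h1 : ∀ i j, g i j = (if i = j then g i j else 0) + (if i < j then g i j else 0) +
      (if j < i then g i j else 0) := by
    intro i j
    rcases lt_trichotomy i j with h | h | h
    · simp [h, h.ne, h.not_gt]
    · subst h; simp
    · simp [h, h.ne', h.not_gt]
  have h2 : ∑ i, ∑ j, (if j < i then g i j else 0) = ∑ i, ∑ j, if i < j then g i j else 0 := by
    rw [Finset.sum_comm]
    refine Finset.sum_congr rfl fun i _ => Finset.sum_congr rfl fun j _ => ?_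
    rw [hg]
  calc ∑ i, ∑ j, g i j = ∑ i, ∑ j, ((if i = j then g i j else 0) + (if i < j then g i j else 0) +
      (if j < i then g i j else 0)) :=
        Finset.sum_congr rfl fun i _ => Finset.sum_congr rfl fun j _ => h1 i j
    _ = _ := by
        simp only [Finset.sum_add_distrib, h2]
        simp
        ring

theorem fx_repr {n d : ℕ} {e : Fin d → Eu n} (he : Orthonormal ℝ e) {P : Submodule ℝ (Eu n)}
    (hs : Submodule.span ℝ (Set.range e) = P) {z : Eu n} (hz : z ∈ P) :
    z = ∑ k, ⟪e k, z⟫ • e k := by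
  rw [← hs] at hz
  obtain ⟨c, rfl⟩ := (Submodule.mem_span_range_iff_exists_fun ℝ).1 hz
  refine Finset.sum_congr rfl fun k _ => ?_
  rw [he.inner_right_fintype]

theorem fx_inner {n d : ℕ} {e f : Fin d → Eu n} (he : Orthonormal ℝ e) (hf : Orthonormal ℝ f)
    {P Q : Submodule ℝ (Eu n)} (hs : Submodule.span ℝ (Set.range e) = P)
    (hsf : Submodule.span ℝ (Set.range f) = Q) (b : Fin d → ℝ)
    (hef : ∀ k l, ⟪e k, f l⟫ = if k = l then Real.cos (b k) else 0) {z w : Eu n} (hz : z ∈ P)
    (hw : w ∈ Q) :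
    ⟪z, w⟫ = ∑ k, Real.cos (b k) * (⟪e k, z⟫ * ⟪f k, w⟫) := by
  conv_lhs => rw [fx_repr he hs hz, fx_repr hf hsf hw]
  rw [sum_inner]
  refine Finset.sum_congr rfl fun k _ => ?_
  rw [inner_sum]
  simp only [inner_smul_left, inner_smul_right, hef]
  simp
  ring

theorem fx_norm {n d : ℕ} {e : Fin d → Eu n} (he : Orthonormal ℝ e)
    {P : Submodule ℝ (Eu n)} (hs : Submodule.span ℝ (Set.range e) = P) {z : Eu n} (hz : z ∈ P) :
    ‖z‖ ^ 2 = ∑ k, ⟪e k, z⟫ ^ 2 := by
  rw [← real_inner_self_eq_norm_sq]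
  conv_lhs => rw [fx_repr he hs hz]
  rw [sum_inner]
  refine Finset.sum_congr rfl fun k _ => ?_
  rw [inner_smul_left, ← fx_repr he hs hz]
  simp [sq]

theorem fx_cs {n d : ℕ} {e f : Fin d → Eu n} (he : Orthonormal ℝ e) (hf : Orthonormal ℝ f)
    {P Q : Submodule ℝ (Eu n)} (hs : Submodule.span ℝ (Set.range e) = P)
    (hsf : Submodule.span ℝ (Set.range f) = Q) (x : Fin d → ℝ) (C : ℝ) (hC0 : 0 ≤ C)
    (hC : ∀ k, |x k| ≤ C) {z w : Eu n} (hz : z ∈ P) (hw : w ∈ Q) :
    -(C * (‖z‖ * ‖w‖)) ≤ ∑ k, x k * (⟪e k, z⟫ * ⟪f k, w⟫) := by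
  have h1 : ∑ k, |⟪e k, z⟫| * |⟪f k, w⟫| ≤ ‖z‖ * ‖w‖ := by
    have h2 := Finset.sum_mul_sq_le_sq_mul_sq Finset.univ (fun k => |⟪e k, z⟫|)
      (fun k => |⟪f k, w⟫|)
    simp only [sq_abs] at h2
    rw [← fx_norm he hs hz, ← fx_norm hf hsf hw, ← mul_pow] at h2
    exact abs_le_of_sq_le_sq' h2 (by positivity) |>.2
  have h3 : |∑ k, x k * (⟪e k, z⟫ * ⟪f k, w⟫)| ≤ C * (‖z‖ * ‖w‖) := by
    calc |∑ k, x k * (⟪e k, z⟫ * ⟪f k, w⟫)| ≤ ∑ k, |x k * (⟪e k, z⟫ * ⟪f k, w⟫)| :=
          Finset.abs_sum_le_sum_abs _ _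
      _ ≤ ∑ k, C * (|⟪e k, z⟫| * |⟪f k, w⟫|) := by
          refine Finset.sum_le_sum fun k _ => ?_
          rw [abs_mul, abs_mul]
          exact mul_le_mul_of_nonneg_right (hC k) (by positivity)
      _ = C * ∑ k, |⟪e k, z⟫| * |⟪f k, w⟫| := by rw [Finset.mul_sum]
      _ ≤ _ := mul_le_mul_of_nonneg_left h1 hC0
  exact (abs_le.1 h3).1

theorem fx_proj {n m : ℕ} (P : Fin m → Submodule ℝ (Eu n))
    (hind : ∀ z : Fin m → Eu n, (∀ i, z i ∈ P i) → ∑ i, z i = 0 → ∀ i, z i = 0) :
    ∃ pr : Fin m → Eu n →ₗ[ℝ] Eu n, (∀ i z, pr i z ∈ P i) ∧ (∀ i, ∀ z ∈ P i, pr i z = z) ∧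
      (∀ i j, i ≠ j → ∀ z ∈ P j, pr i z = 0) ∧
      ∀ z j, ∀ w ∈ P j, ⟪z - ∑ i, pr i z, w⟫ = 0 := by
  classical
  let Φ : ((i : Fin m) → P i) →ₗ[ℝ] Eu n := ∑ i, (P i).subtype ∘ₗ LinearMap.proj i
  have hΦ : ∀ y, Φ y = ∑ i, (y i : Eu n) := by intro y; simp [Φ]
  have hker : LinearMap.ker Φ = ⊥ := by
    rw [LinearMap.ker_eq_bot']
    intro y hy
    funext i
    apply Subtype.ext
    exact hind (fun i => y i) (fun i => (y i).2) (by rw [← hΦ]; exact hy) i
  obtain ⟨Ψ, hΨ⟩ := Φ.exists_leftInverse_of_injective hker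
  have hΨ' : ∀ y, Ψ (Φ y) = y := fun y => LinearMap.congr_fun hΨ y
  let W : Submodule ℝ (Eu n) := LinearMap.range Φ
  let π : Eu n →ₗ[ℝ] Eu n := (W.starProjection : Eu n →L[ℝ] Eu n)
  have hπ : ∀ z, π z = W.starProjection z := fun z => rfl
  have hsing : ∀ j (z : Eu n) (hz : z ∈ P j), Φ (Pi.single j ⟨z, hz⟩) = z := by
    intro j z hz
    rw [hΦ, Finset.sum_eq_single j]
    · simp
    · intro i _ hij
      simp [hij]
    · simp
  have hPW : ∀ j, P j ≤ W := fun j z hz => ⟨_, hsing j z hz⟩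
  have hπP : ∀ j, ∀ z ∈ P j, π z = z := by
    intro j z hz
    rw [hπ]
    exact Submodule.starProjection_eq_self_iff.2 (hPW j hz)
  have hΨP : ∀ j (z : Eu n) (hz : z ∈ P j), Ψ (π z) = Pi.single j ⟨z, hz⟩ := by
    intro j z hz
    rw [hπP j z hz]
    conv_lhs => rw [← hsing j z hz]
    exact hΨ' _
  refine ⟨fun i => (P i).subtype ∘ₗ LinearMap.proj i ∘ₗ Ψ ∘ₗ π, ?_, ?_, ?_, ?_⟩
  · intro i z
    exact (Ψ (π z) i).2
  · intro i z hz
    show ((Ψ (π z) i : P i) : Eu n) = z
    rw [hΨP i z hz]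
    simp
  · intro i j hij z hz
    show ((Ψ (π z) i : P i) : Eu n) = 0
    rw [hΨP j z hz]
    simp [hij]
  · intro z j w hw
    have h1 : ∑ i, ((P i).subtype ∘ₗ LinearMap.proj i ∘ₗ Ψ ∘ₗ π) z = π z := by
      obtain ⟨y, hy⟩ : π z ∈ W := by rw [hπ]; exact Submodule.starProjection_apply_mem W z
      show ∑ i, ((Ψ (π z) i : P i) : Eu n) = π z
      rw [← hΦ, ← hy, hΨ']
    rw [h1]
    exact Submodule.starProjection_inner_eq_zero _ _ (hPW j hw)

theorem fx_pos {n m d : ℕ} (hd : 0 < d) (a b : Fin m → Fin m → Fin d → ℝ)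
    (ha : IsAngleFamily a) (P : Fin m → Submodule ℝ (Eu n))
    (e f : Fin m → Fin m → Fin d → Eu n)
    (he : ∀ i j, i < j → Orthonormal ℝ (e i j)) (hf : ∀ i j, i < j → Orthonormal ℝ (f i j))
    (hs : ∀ i j, i < j → Submodule.span ℝ (Set.range (e i j)) = P i)
    (hsf : ∀ i j, i < j → Submodule.span ℝ (Set.range (f i j)) = P j)
    (hef : ∀ i j, i < j → ∀ k l, ⟪e i j k, f i j l⟫ = if k = l then Real.cos (b i j k) else 0)
    (x : Fin m → Fin m → Fin d → ℝ) (hx : ∀ i j, i < j → ∀ k, |x i j k| ≤ Real.cos (a i j k))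
    (z : Fin m → Eu n) (hz : ∀ i, z i ∈ P i) :
    (fun i => ‖z i‖) ⬝ᵥ (flexMatrix hd a).mulVec (fun i => ‖z i‖) ≤
      ⟪∑ i, z i, ∑ i, z i⟫ + 2 * ∑ i, ∑ j, ∑ k, (if i < j then
        (x i j k - Real.cos (b i j k)) * (⟪e i j k, z i⟫ * ⟪f i j k, z j⟫) else 0) := by
  have h1 : (fun i => ‖z i‖) ⬝ᵥ (flexMatrix hd a).mulVec (fun i => ‖z i‖) =
      ∑ i, ‖z i‖ ^ 2 + 2 * ∑ i, ∑ j, if i < j then
        -(Real.cos (a i j ⟨0, hd⟩) * (‖z i‖ * ‖z j‖)) else 0 := by
    have h0 : (fun i => ‖z i‖) ⬝ᵥ (flexMatrix hd a).mulVec (fun i => ‖z i‖) =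
        ∑ i, ∑ j, ‖z i‖ * (flexMatrix hd a i j * ‖z j‖) := by
      simp only [dotProduct, Matrix.mulVec, Finset.mul_sum]
    rw [h0, fx_sum_sym (fun i j => ‖z i‖ * (flexMatrix hd a i j * ‖z j‖))]
    · congr 1
      · refine Finset.sum_congr rfl fun i _ => ?_
        simp [flexMatrix, sq]
      · congr 1
        refine Finset.sum_congr rfl fun i _ => Finset.sum_congr rfl fun j _ => ?_
        by_cases hij : i < j
        · simp only [hij, if_true, flexMatrix, Matrix.of_apply, hij.ne, if_false,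
            min_eq_left hij.le, max_eq_right hij.le]
          ring
        · simp [hij]
    · intro i j
      have : flexMatrix hd a i j = flexMatrix hd a j i := by
        simp only [flexMatrix, Matrix.of_apply, min_comm i j, max_comm i j, eq_comm]
      rw [this]
      ring
  have h2 : ⟪∑ i, z i, ∑ i, z i⟫ = ∑ i, ‖z i‖ ^ 2 + 2 * ∑ i, ∑ j, if i < j then
        ⟪z i, z j⟫ else 0 := by
    rw [sum_inner]
    simp only [inner_sum]
    rw [fx_sum_sym (fun i j => ⟪z i, z j⟫) (fun i j => real_inner_comm _ _)]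
    congr 1
    exact Finset.sum_congr rfl fun i _ => real_inner_self_eq_norm_sq _
  have h3 : ∑ i, ∑ j, (if i < j then -(Real.cos (a i j ⟨0, hd⟩) * (‖z i‖ * ‖z j‖)) else 0) ≤
      ∑ i, ∑ j, (if i < j then ⟪z i, z j⟫ else 0) + ∑ i, ∑ j, ∑ k, (if i < j then
        (x i j k - Real.cos (b i j k)) * (⟪e i j k, z i⟫ * ⟪f i j k, z j⟫) else 0) := by
    rw [← Finset.sum_add_distrib]
    refine Finset.sum_le_sum fun i _ => ?_
    rw [← Finset.sum_add_distrib]
    refine Finset.sum_le_sum fun j _ => ?_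
    by_cases hij : i < j
    · simp only [hij, if_true]
      have e1 : ⟪z i, z j⟫ + ∑ k, (x i j k - Real.cos (b i j k)) *
          (⟪e i j k, z i⟫ * ⟪f i j k, z j⟫) =
          ∑ k, x i j k * (⟪e i j k, z i⟫ * ⟪f i j k, z j⟫) := by
        rw [fx_inner (he i j hij) (hf i j hij) (hs i j hij) (hsf i j hij) (b i j) (hef i j hij)
          (hz i) (hz j), ← Finset.sum_add_distrib]
        exact Finset.sum_congr rfl fun k _ => by ring
      rw [e1]
      have hmono := (ha i j hij).1
      have hbd := (ha i j hij).2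
      have hpi := Real.pi_pos
      refine fx_cs (he i j hij) (hf i j hij) (hs i j hij) (hsf i j hij) (x i j) _ ?_ ?_
        (hz i) (hz j)
      · exact Real.cos_nonneg_of_neg_pi_div_two_le_of_le (by linarith [(hbd ⟨0, hd⟩).1])
          (hbd ⟨0, hd⟩).2
      · intro k
        refine (hx i j hij k).trans ?_
        refine Real.cos_le_cos_of_nonneg_of_le_pi (hbd ⟨0, hd⟩).1 (by linarith [(hbd k).2])
          (hmono (Fin.mk_le_of_le_val (Nat.zero_le _)))
    · simp [hij]
  rw [h1, h2]
  linarith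

theorem min_of_flex_of (hbox : BoxStmt) {n m d : ℕ} (hd : 0 < d) (a b : Fin m → Fin m → Fin d → ℝ)
    (ha : IsAngleFamily a) (hb : IsAngleFamily b) (hab : ∀ i j, i < j → ∀ k, a i j k ≤ b i j k)
    (hflex : (flexMatrix hd a).PosDef)
    (hmin : ∀ P : Fin m → Submodule ℝ (Eu n), Realizes P a →
      AlmgrenMinimal d (⋃ i, (P i : Set (Eu n))))
    (P : Fin m → Submodule ℝ (Eu n)) (hP : Realizes P b) :
    AlmgrenMinimal d (⋃ i, (P i : Set (Eu n))) := by
  classical
  have hpi := Real.pi_pos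
  have hP2 := hP.2
  simp only [HasAngles] at hP2
  choose! e f he hf hs hsf hef using hP2
  -- comparison of the cosines
  have hcb : ∀ i j, i < j → ∀ k, |Real.cos (b i j k)| ≤ Real.cos (a i j k) := by
    intro i j hij k
    have h1 := (ha i j hij).2 k
    have h2 := (hb i j hij).2 k
    rw [abs_of_nonneg (Real.cos_nonneg_of_neg_pi_div_two_le_of_le (by linarith [h2.1]) h2.2)]
    exact Real.cos_le_cos_of_nonneg_of_le_pi h1.1 (by linarith [h2.2]) (hab i j hij k)
  have hpd : ∀ v : Fin m → ℝ, v ≠ 0 → 0 < v ⬝ᵥ (flexMatrix hd a).mulVec v := by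
    intro v hv
    have := hflex.dotProduct_mulVec_pos hv
    simpa using this
  have hpos := fx_pos hd a b ha P e f he hf hs hsf hef
  -- independence
  have hind : ∀ z : Fin m → Eu n, (∀ i, z i ∈ P i) → ∑ i, z i = 0 → ∀ i, z i = 0 := by
    intro z hz h0
    have h1 := hpos (fun i j k => Real.cos (b i j k)) hcb z hz
    simp only [sub_self, zero_mul, ite_self, Finset.sum_const_zero, mul_zero, add_zero, h0,
      inner_zero_left] at h1
    by_contra hne
    push Not at hne
    obtain ⟨i, hi⟩ := hne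
    have hv : (fun i => ‖z i‖) ≠ 0 := by
      intro h
      apply hi
      have := congrFun h i
      simpa using this
    exact absurd (hpd _ hv) (not_lt.2 h1)
  obtain ⟨pr, hpr1, hpr2, hpr3, hpr4⟩ := fx_proj P hind
  set l : Fin m × Fin m × Fin d → Eu n →ₗ[ℝ] ℝ := fun κ =>
    if κ.1 < κ.2.1 then (innerₛₗ ℝ (e κ.1 κ.2.1 κ.2.2)) ∘ₗ pr κ.1 else 0 with hldef
  set l' : Fin m × Fin m × Fin d → Eu n →ₗ[ℝ] ℝ := fun κ =>
    if κ.1 < κ.2.1 then (innerₛₗ ℝ (f κ.1 κ.2.1 κ.2.2)) ∘ₗ pr κ.2.1 else 0 with hl'def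
  have hl1 : ∀ i j k, i < j → ∀ z, l (i, j, k) z = ⟪e i j k, pr i z⟫ := by
    intro i j k hij z
    simp [hldef, hij]
  have hl2 : ∀ i j k, i < j → ∀ z, l' (i, j, k) z = ⟪f i j k, pr j z⟫ := by
    intro i j k hij z
    simp [hl'def, hij]
  have hl3 : ∀ i j k, ¬ i < j → ∀ z, l (i, j, k) z = 0 := by
    intro i j k hij z
    simp [hldef, hij]
  have hl4 : ∀ i j k, ¬ i < j → ∀ z, l' (i, j, k) z = 0 := by
    intro i j k hij z
    simp [hl'def, hij]
  -- products vanish on every plane
  have hprod : ∀ κ i, ∀ z ∈ P i, ∀ w ∈ P i, l κ z * l' κ w = 0 := by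
    rintro ⟨i', j', k⟩ i z hz w hw
    by_cases hij : i' < j'
    · rw [hl1 _ _ _ hij, hl2 _ _ _ hij]
      by_cases h1 : i' = i
      · have h2 : j' ≠ i := by
          intro h2
          rw [h1, h2] at hij
          exact lt_irrefl _ hij
        rw [hpr3 j' i h2 w hw]
        simp
      · rw [hpr3 i' i h1 z hz]
        simp
    · rw [hl3 _ _ _ hij]
      simp
  refine hbox n d (Fin m) (Fin m × Fin m × Fin d) P hP.1 l l' (fun κ i z hz => hprod κ i z hz z hz)
    (fun κ => if κ.1 < κ.2.1 then Real.cos (b κ.1 κ.2.1 κ.2.2) else 0)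
    (fun κ => if κ.1 < κ.2.1 then Real.cos (a κ.1 κ.2.1 κ.2.2) else 0) ?_ ?_ ?_
  · rintro ⟨i, j, k⟩
    by_cases hij : i < j
    · simpa [hij] using hcb i j hij k
    · simp [hij]
  · intro x hx z hz
    have hx' : ∀ i j, i < j → ∀ k, |x (i, j, k)| ≤ Real.cos (a i j k) := by
      intro i j hij k
      have := hx (i, j, k)
      simpa [hij] using this
    have h1 := hpos (fun i j k => x (i, j, k)) hx' (fun i => pr i z) (fun i => hpr1 i z)
    have hsum : ∑ κ : Fin m × Fin m × Fin d, (x κ - if κ.1 < κ.2.1 then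
        Real.cos (b κ.1 κ.2.1 κ.2.2) else 0) * (l κ z * l' κ z) =
        ∑ i, ∑ j, ∑ k, (if i < j then (x (i, j, k) - Real.cos (b i j k)) *
          (⟪e i j k, pr i z⟫ * ⟪f i j k, pr j z⟫) else 0) := by
      rw [Fintype.sum_prod_type]
      refine Finset.sum_congr rfl fun i _ => ?_
      rw [Fintype.sum_prod_type]
      refine Finset.sum_congr rfl fun j _ => Finset.sum_congr rfl fun k _ => ?_
      by_cases hij : i < j
      · simp only [hij, if_true]
        rw [hl1 i j k hij, hl2 i j k hij]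
      · simp only [hij, if_false]
        rw [hl3 i j k hij]
        simp
    rw [hsum]
    set u := ∑ i, pr i z with hu
    have hzu : ⟪z, z⟫ = ⟪z - u, z - u⟫ + ⟪u, u⟫ := by
      have h2 : ⟪z - u, u⟫ = 0 := by
        rw [hu, inner_sum]
        exact Finset.sum_eq_zero fun j _ => hpr4 z j _ (hpr1 j z)
      have h3 : z = (z - u) + u := by abel
      conv_lhs => rw [h3]
      have h2' : ⟪u, z - u⟫ = 0 := by rw [real_inner_comm]; exact h2
      rw [inner_add_left, inner_add_right, inner_add_right, h2, h2']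
      ring
    have h4 : 0 ≤ ⟪z - u, z - u⟫ := real_inner_self_nonneg
    by_cases hv : (fun i => ‖pr i z‖) = 0
    · have hu0 : u = 0 := by
        rw [hu]
        refine Finset.sum_eq_zero fun i _ => ?_
        have := congrFun hv i
        simpa using this
      have h5 : 0 < ⟪z - u, z - u⟫ := by
        rw [hu0, sub_zero]
        exact real_inner_self_pos.2 hz
      rw [hv] at h1
      simp only [zero_dotProduct] at h1
      rw [hzu]
      linarith
    · have h5 := hpd _ hv
      rw [hzu]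
      linarith
  · intro x hx T hT
    have hiso : ∀ i, ∀ z ∈ P i, ∀ w ∈ P i, ⟪T z, T w⟫ = ⟪z, w⟫ := by
      intro i z hz w hw
      rw [hT, Finset.sum_eq_zero, add_zero]
      intro κ _
      rw [hprod κ i z hz w hw, mul_comm (l' κ z), hprod κ i w hw z hz]
      simp
    refine hmin (fun i => (P i).map T) ⟨?_, ?_⟩
    · intro i
      have h1 : Function.Injective (T.domRestrict (P i)) := by
        rw [← LinearMap.ker_eq_bot, LinearMap.ker_eq_bot']
        intro z hz
        have h2 : T z = 0 := hz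
        have h3 := hiso i z z.2 z z.2
        rw [h2, inner_zero_left] at h3
        have h4 : (z : Eu n) = 0 := inner_self_eq_zero.1 h3.symm
        exact Subtype.ext h4
      have h2 := LinearMap.finrank_range_of_inj h1
      rw [LinearMap.range_domRestrict] at h2
      rw [h2, hP.1 i]
    · intro i j hij
      set s : Fin d → ℝ := fun k => if 0 ≤ x (i, j, k) then 1 else -1 with hsdef
      have hss : ∀ k, s k * s k = 1 := by
        intro k
        simp only [hsdef]
        split_ifs <;> norm_num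
      have hsx : ∀ k, s k * x (i, j, k) = Real.cos (a i j k) := by
        intro k
        have h1 := hx (i, j, k)
        simp only [hij, if_true] at h1
        rw [← h1]
        simp only [hsdef]
        split_ifs with h
        · rw [one_mul, abs_of_nonneg h]
        · rw [abs_of_neg (not_le.1 h)]
          ring
      have hemem : ∀ k, e i j k ∈ P i := by
        intro k
        rw [← hs i j hij]
        exact Submodule.subset_span ⟨k, rfl⟩
      have hfmem : ∀ k, f i j k ∈ P j := by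
        intro k
        rw [← hsf i j hij]
        exact Submodule.subset_span ⟨k, rfl⟩
      refine ⟨fun k => T (e i j k), fun k => s k • T (f i j k), ?_, ?_, ?_, ?_, ?_⟩
      · rw [orthonormal_iff_ite]
        intro k k'
        rw [hiso i _ (hemem k) _ (hemem k')]
        exact orthonormal_iff_ite.1 (he i j hij) k k'
      · rw [orthonormal_iff_ite]
        intro k k'
        rw [inner_smul_left, inner_smul_right, hiso j _ (hfmem k) _ (hfmem k'),
          orthonormal_iff_ite.1 (hf i j hij) k k']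
        by_cases hk : k = k'
        · subst hk
          simpa using hss k
        · simp [hk]
      · show Submodule.span ℝ (Set.range fun k => T (e i j k)) = (P i).map T
        rw [← hs i j hij, Submodule.map_span, ← Set.range_comp]
        rfl
      · show Submodule.span ℝ (Set.range fun k => s k • T (f i j k)) = (P j).map T
        rw [← hsf i j hij, Submodule.map_span, ← Set.range_comp]
        apply le_antisymm
        · rw [Submodule.span_le]
          rintro _ ⟨k, rfl⟩
          exact Submodule.smul_mem _ _ (Submodule.subset_span ⟨k, rfl⟩)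
        · rw [Submodule.span_le]
          rintro _ ⟨k, rfl⟩
          have h1 : (T ∘ f i j) k = s k • (s k • T (f i j k)) := by
            rw [smul_smul, hss, one_smul]
            rfl
          rw [SetLike.mem_coe, h1]
          exact Submodule.smul_mem _ _ (Submodule.subset_span ⟨k, rfl⟩)
      · intro k k'
        rw [inner_smul_right, hT]
        have hsum : ∑ κ : Fin m × Fin m × Fin d, (x κ - if κ.1 < κ.2.1 then
            Real.cos (b κ.1 κ.2.1 κ.2.2) else 0) *
            (l κ (e i j k) * l' κ (f i j k') + l' κ (e i j k) * l κ (f i j k')) =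
            if k = k' then x (i, j, k) - Real.cos (b i j k) else 0 := by
          rw [Finset.sum_eq_single (i, j, k)]
          · simp only [hij, if_true]
            rw [hl1 i j k hij, hl2 i j k hij, hl1 i j k hij, hl2 i j k hij,
              hpr2 i _ (hemem k), hpr2 j _ (hfmem k'), hpr3 j i hij.ne' _ (hemem k),
              orthonormal_iff_ite.1 (he i j hij) k k, orthonormal_iff_ite.1 (hf i j hij) k k']
            simp
          · rintro ⟨i', j', k₁⟩ _ hne
            by_cases hij' : i' < j'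
            · rw [hl1 _ _ _ hij', hl2 _ _ _ hij', hl1 _ _ _ hij', hl2 _ _ _ hij']
              have h2 : ⟪f i' j' k₁, pr j' (e i j k)⟫ * ⟪e i' j' k₁, pr i' (f i j k')⟫ = 0 := by
                by_cases h3 : j' = i
                · have h4 : i' ≠ j := by
                    rintro rfl
                    rw [h3] at hij'
                    exact lt_asymm hij hij'
                  rw [hpr3 i' j h4 _ (hfmem k')]
                  simp
                · rw [hpr3 j' i h3 _ (hemem k)]
                  simp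
              have h1 : ⟪e i' j' k₁, pr i' (e i j k)⟫ * ⟪f i' j' k₁, pr j' (f i j k')⟫ = 0 := by
                by_cases h3 : i' = i
                · by_cases h4 : j' = j
                  · subst h3 h4
                    have h5 : k₁ ≠ k := by
                      rintro rfl
                      exact hne rfl
                    rw [hpr2 i' _ (hemem k), orthonormal_iff_ite.1 (he i' j' hij) k₁ k]
                    simp [h5]
                  · rw [hpr3 j' j h4 _ (hfmem k')]
                    simp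
                · rw [hpr3 i' i h3 _ (hemem k)]
                  simp
              rw [h1, h2]
              simp
            · rw [hl3 _ _ _ hij', hl4 _ _ _ hij', hl3 _ _ _ hij', hl4 _ _ _ hij']
              simp
          · intro h
            exact absurd (Finset.mem_univ _) h
        rw [hsum, hef i j hij k k']
        by_cases hk : k = k'
        · subst hk
          simp only [if_true]
          rw [← hsx k]
          ring
        · simp [hk]

end H56Mono
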