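import Pool.Agent.H56.Mono.Defs

/-!
Ripping two `d`-planes along their intersection when the intersection has dimension at most
`d - 2`: competitors that move the two planes independently are allowed.
-/

open MeasureTheory Measure Module
open scoped InnerProductSpace RealInnerProductSpace NNReal ENNReal

namespace H56Mono

namespace RipA

/-- Lipschitz for some constant. -/
def Lp {X Y : Type*} [PseudoMetricSpace X] [PseudoMetricSpace Y] (f : X → Y) : Prop :=
  ∃ K : ℝ≥0, LipschitzWith K f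

/-- The clamp to `[0,1]`. -/
noncomputable def cl (s : ℝ) : ℝ := max 0 (min 1 s)

theorem cl_nonneg (s : ℝ) : 0 ≤ cl s := le_max_left _ _

theorem cl_le_one (s : ℝ) : cl s ≤ 1 := max_le zero_le_one (min_le_left _ _)

theorem cl_one {s : ℝ} (h : 1 ≤ s) : cl s = 1 := by
  unfold cl; rw [min_eq_left h]; exact max_eq_right zero_le_one

theorem cl_zero {s : ℝ} (h : s ≤ 0) : cl s = 0 := by
  unfold cl; exact max_eq_left ((min_le_right _ _).trans h)

theorem cl_id {s : ℝ} (h0 : 0 ≤ s) (h1 : s ≤ 1) : cl s = s := by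
  unfold cl; rw [min_eq_right h1]; exact max_eq_right h0

section
variable {X Y Z : Type*} [PseudoMetricSpace X] [PseudoMetricSpace Y] [PseudoMetricSpace Z]

theorem lp_comp {f : Y → Z} {g : X → Y} (hf : Lp f) (hg : Lp g) : Lp (fun x => f (g x)) := by
  obtain ⟨K, hK⟩ := hf
  obtain ⟨L, hL⟩ := hg
  exact ⟨K * L, hK.comp hL⟩

theorem lp_const (c : Y) : Lp (fun _ : X => c) := ⟨0, LipschitzWith.const c⟩

theorem lp_id : Lp (fun x : X => x) := ⟨1, LipschitzWith.id⟩

theorem lp_cl {f : X → ℝ} (hf : Lp f) : Lp (fun x => cl (f x)) := by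
  obtain ⟨K, hK⟩ := hf
  exact ⟨K, (hK.const_min 1).const_max 0⟩

variable {V W : Type*} [NormedAddCommGroup V] [NormedSpace ℝ V] [NormedAddCommGroup W]
  [NormedSpace ℝ W]

omit [NormedSpace ℝ V] in
theorem lp_add {f g : X → V} (hf : Lp f) (hg : Lp g) : Lp (fun x => f x + g x) := by
  obtain ⟨K, hK⟩ := hf
  obtain ⟨L, hL⟩ := hg
  exact ⟨K + L, hK.add hL⟩

omit [NormedSpace ℝ V] in
theorem lp_sub {f g : X → V} (hf : Lp f) (hg : Lp g) : Lp (fun x => f x - g x) := by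
  obtain ⟨K, hK⟩ := hf
  obtain ⟨L, hL⟩ := hg
  exact ⟨K + L, hK.sub hL⟩

omit [NormedSpace ℝ V] in
theorem lp_norm {f : X → V} (hf : Lp f) : Lp (fun x => ‖f x‖) := by
  obtain ⟨K, hK⟩ := hf
  exact ⟨1 * K, lipschitzWith_one_norm.comp hK⟩

theorem lp_clm (A : V →L[ℝ] W) : Lp (fun x => A x) := ⟨‖A‖₊, A.lipschitz⟩

omit [NormedSpace ℝ V] in
theorem lp_of_le {f : X → V} (C : ℝ) (h : ∀ x y, ‖f x - f y‖ ≤ C * dist x y) : Lp f := by
  refine ⟨C.toNNReal, LipschitzWith.of_dist_le_mul fun x y => ?_⟩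
  rw [dist_eq_norm]
  refine (h x y).trans ?_
  exact mul_le_mul_of_nonneg_right (Real.le_coe_toNNReal C) dist_nonneg

omit [NormedSpace ℝ V] in
theorem lp_bound {f : X → V} (hf : Lp f) : ∃ C : ℝ, 0 ≤ C ∧ ∀ x y, ‖f x - f y‖ ≤ C * dist x y := by
  obtain ⟨K, hK⟩ := hf
  exact ⟨K, K.2, fun x y => by rw [← dist_eq_norm]; exact hK.dist_le_mul x y⟩

/-- The product of a bounded Lipschitz function and a Lipschitz map that is bounded on its
support. -/
theorem lp_smul {f : X → ℝ} {v : X → V} {M : ℝ} (hf : Lp f) (hv : Lp v) (h1 : ∀ x, |f x| ≤ 1)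
    (hM : ∀ x, f x ≠ 0 → ‖v x‖ ≤ M) : Lp (fun x => f x • v x) := by
  obtain ⟨A, hA0, hA⟩ := lp_bound hf
  obtain ⟨B, hB0, hB⟩ := lp_bound hv
  refine lp_of_le (B + A * max M 0) fun x y => ?_
  have hd : 0 ≤ dist x y := dist_nonneg
  have hM0 : 0 ≤ max M 0 := le_max_right _ _
  by_cases hy : f y = 0
  · by_cases hx : f x = 0
    · rw [hx, hy]; simp only [zero_smul, sub_self, norm_zero]; positivity
    · have h2 : ‖f x • v x - f y • v y‖ ≤ (A * dist x y) * max M 0 := by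
        have h3 : |f x| ≤ A * dist x y := by
          have := hA x y
          rwa [hy, sub_zero, Real.norm_eq_abs] at this
        rw [hy, zero_smul, sub_zero, norm_smul, Real.norm_eq_abs]
        exact mul_le_mul h3 ((hM x hx).trans (le_max_left _ _)) (norm_nonneg _) (by positivity)
      nlinarith
  · have e : f x • v x - f y • v y = f x • (v x - v y) + (f x - f y) • v y := by
      rw [smul_sub, sub_smul]; abel
    rw [e]
    refine (norm_add_le _ _).trans ?_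
    rw [norm_smul, norm_smul, Real.norm_eq_abs]
    have h3 : |f x| * ‖v x - v y‖ ≤ 1 * (B * dist x y) :=
      mul_le_mul (h1 x) (hB x y) (norm_nonneg _) zero_le_one
    have h4 : ‖f x - f y‖ * ‖v y‖ ≤ (A * dist x y) * max M 0 :=
      mul_le_mul (hA x y) ((hM y hy).trans (le_max_left _ _)) (norm_nonneg _) (by positivity)
    nlinarith

end

variable {n : ℕ}

/-- The swept set has measure zero. -/
theorem null_set (S : Submodule ℝ (Eu n)) (d : ℕ) (hd : finrank ℝ S + 2 ≤ d)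
    (g D : Eu n → Eu n) (hg : Lp g) (hD : Lp D) (M : ℝ) (hM : ∀ y ∈ S, ‖D y‖ ≤ M) :
    μH[(d : ℝ)] (Set.range (fun q : S × ℝ => g q.1 + cl q.2 • D q.1)) = 0 := by
  have h0 : Lp (fun q : S × ℝ => (q.1 : Eu n)) :=
    lp_comp (f := fun y : S => (y : Eu n)) ⟨1, LipschitzWith.subtype_val _⟩
      ⟨1, LipschitzWith.prod_fst⟩
  have h1 : Lp (fun q : S × ℝ => q.2) := ⟨1, LipschitzWith.prod_snd⟩
  have h2 : Lp (fun q : S × ℝ => g q.1 + cl q.2 • D q.1) := by
    refine lp_add (lp_comp hg h0) (lp_smul (M := M) (lp_cl h1) (lp_comp hD h0) (fun x => ?_)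
      fun x _ => hM _ x.1.2)
    rw [abs_of_nonneg (cl_nonneg _)]
    exact cl_le_one _
  obtain ⟨K, hK⟩ := h2
  have h3 := hK.dimH_range_le
  rw [Real.dimH_univ_eq_finrank (S × ℝ), finrank_prod, finrank_self] at h3
  have h4 : dimH (Set.range (fun q : S × ℝ => g q.1 + cl q.2 • D q.1)) < ((d : ℝ≥0) : ℝ≥0∞) := by
    refine h3.trans_lt ?_
    have : finrank ℝ S + 1 < d := by omega
    exact_mod_cast this
  have := hausdorffMeasure_of_dimH_lt h4
  simpa using this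

/-- The angle between `P` and `Q` away from the intersection. -/
theorem angle (P Q : Submodule ℝ (Eu n)) : ∃ C : ℝ, 0 ≤ C ∧ ∀ x ∈ P, ∀ y ∈ Q,
    ‖x - (P ⊓ Q).starProjection x‖ ≤ C * ‖x - y‖ ∧
      ‖(P ⊓ Q).starProjection x - y‖ ≤ C * ‖x - y‖ := by
  let U : Submodule ℝ (Eu n) := P ⊓ (P ⊓ Q)ᗮ
  let T : U × Q →ₗ[ℝ] Eu n := U.subtype.coprod (-Q.subtype)
  have hT : ∀ z : U × Q, T z = (z.1 : Eu n) - z.2 := fun z => by
    simp [T, sub_eq_add_neg]
  have hker : LinearMap.ker T = ⊥ := by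
    rw [LinearMap.ker_eq_bot']
    intro z hz
    rw [hT, sub_eq_zero] at hz
    have h1 : (z.1 : Eu n) ∈ P ⊓ Q := ⟨z.1.2.1, by rw [hz]; exact z.2.2⟩
    have h2 : (z.1 : Eu n) = 0 := by
      have h3 := (Submodule.mem_orthogonal _ _).1 z.1.2.2 _ h1
      exact inner_self_eq_zero.1 h3
    have h4 : (z.2 : Eu n) = 0 := by rw [← hz, h2]
    exact Prod.ext (Subtype.ext h2) (Subtype.ext h4)
  obtain ⟨K, -, hK⟩ := LinearMap.exists_antilipschitzWith T hker
  refine ⟨K, K.2, fun x hx y hy => ?_⟩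
  have hp : (P ⊓ Q).starProjection x ∈ P ⊓ Q := Submodule.starProjection_apply_mem _ x
  let u : U := ⟨x - (P ⊓ Q).starProjection x, P.sub_mem hx hp.1,
    Submodule.sub_starProjection_mem_orthogonal _⟩
  let v : Q := ⟨y - (P ⊓ Q).starProjection x, Q.sub_mem hy hp.2⟩
  have h1 := hK.le_mul_dist (u, v) 0
  rw [map_zero, dist_zero_right, dist_zero_right, hT] at h1
  have h2 : ((u : Eu n) - (v : Eu n)) = x - y := by simp [u, v]
  have h3 : ‖((u, v) : U × Q)‖ = max ‖u‖ ‖v‖ := rfl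
  rw [h3] at h1
  simp only [h2] at h1
  refine ⟨(le_max_left _ _).trans h1, ?_⟩
  rw [norm_sub_rev]
  exact (le_max_right _ _).trans h1

/-- The radial retraction on the ball of radius `R`. -/
noncomputable def rad (R : ℝ) (x : Eu n) : Eu n := (R / max R ‖x‖) • x

theorem rad_of_le {R : ℝ} (hR : 0 < R) {x : Eu n} (hx : ‖x‖ ≤ R) : rad R x = x := by
  unfold rad; rw [max_eq_left hx, div_self hR.ne', one_smul]

theorem rad_le {R : ℝ} (hR : 0 < R) (x : Eu n) : ‖rad R x‖ ≤ R := by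
  unfold rad
  have hm : 0 < max R ‖x‖ := lt_max_of_lt_left hR
  rw [norm_smul, Real.norm_eq_abs, abs_of_nonneg (by positivity), div_mul_eq_mul_div,
    div_le_iff₀ hm]
  exact mul_le_mul_of_nonneg_left (le_max_right _ _) hR.le

theorem lp_rad {R : ℝ} (hR : 0 < R) : Lp (rad R : Eu n → Eu n) := by
  refine lp_of_le 2 fun x y => ?_
  unfold rad
  have hm : 0 < max R ‖x‖ := lt_max_of_lt_left hR
  have hm' : 0 < max R ‖y‖ := lt_max_of_lt_left hR
  have e : (R / max R ‖x‖) • x - (R / max R ‖y‖) • y =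
      (R / max R ‖x‖) • (x - y) + (R / max R ‖x‖ - R / max R ‖y‖) • y := by
    rw [smul_sub, sub_smul]; abel
  rw [e]
  refine (norm_add_le _ _).trans ?_
  rw [norm_smul, norm_smul, Real.norm_eq_abs, Real.norm_eq_abs, dist_eq_norm]
  have h1 : |R / max R ‖x‖| ≤ 1 := by
    rw [abs_of_nonneg (by positivity), div_le_one hm]; exact le_max_left _ _
  have h2 : |R / max R ‖x‖ - R / max R ‖y‖| * ‖y‖ ≤ ‖x - y‖ := by
    have h3 : R / max R ‖x‖ - R / max R ‖y‖ =
        (R / max R ‖x‖) * (1 / max R ‖y‖) * (max R ‖y‖ - max R ‖x‖) := by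
      field_simp
    rw [h3, abs_mul, abs_mul]
    have h4 : |max R ‖y‖ - max R ‖x‖| ≤ ‖x - y‖ := by
      have := abs_max_sub_max_le_max R ‖y‖ R ‖x‖
      rw [sub_self, abs_zero] at this
      refine this.trans (max_le (norm_nonneg _) ?_)
      rw [abs_sub_comm]
      exact abs_norm_sub_norm_le x y
    have h5 : |1 / max R ‖y‖| * ‖y‖ ≤ 1 := by
      rw [abs_of_nonneg (by positivity), div_mul_eq_mul_div, one_mul, div_le_one hm']
      exact le_max_right _ _
    calc |R / max R ‖x‖| * |1 / max R ‖y‖| * |max R ‖y‖ - max R ‖x‖| * ‖y‖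
        = |R / max R ‖x‖| * (|1 / max R ‖y‖| * ‖y‖) * |max R ‖y‖ - max R ‖x‖| := by ring
      _ ≤ 1 * 1 * ‖x - y‖ := by
          refine mul_le_mul (mul_le_mul h1 h5 (by positivity) zero_le_one) h4 (abs_nonneg _)
            (by positivity)
      _ = ‖x - y‖ := by ring
  have h6 : |R / max R ‖x‖| * ‖x - y‖ ≤ 1 * ‖x - y‖ :=
    mul_le_mul_of_nonneg_right h1 (norm_nonneg _)
  linarith

/-- A Lipschitz map defined on a closed set `S`, the identity far away and with values in a ball,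
extends to a deformation. -/
theorem exists_deformation (S : Set (Eu n)) (k : Eu n → Eu n) (C : ℝ≥0)
    (hk : LipschitzOnWith C k S) (R : ℝ) (hR : 0 ≤ R) (h1 : ∀ x ∈ S, R < ‖x‖ → k x = x)
    (h2 : ∀ x ∈ S, ‖x‖ ≤ R → ‖k x‖ ≤ R) :
    ∃ F : Eu n → Eu n, IsDeformation F ∧ ∀ x ∈ S, F x = k x := by
  have he : LipschitzOnWith (C + 1) (fun x => k x - x) S := by
    exact hk.sub (LipschitzWith.id.lipschitzOnWith)
  obtain ⟨e, hel, hes⟩ := he.extend_finite_dimension
  have hLe : Lp e := ⟨_, hel⟩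
  have hR1 : 0 < R + 1 := by linarith
  let χ : Eu n → ℝ := fun x => cl (R + 1 - ‖x‖)
  have hχ : Lp χ := lp_cl (lp_sub (lp_const (R + 1)) (lp_norm lp_id))
  obtain ⟨B, hB0, hB⟩ := lp_bound hLe
  have hχe : Lp (fun x => χ x • e x) := by
    refine lp_smul (M := ‖e 0‖ + B * (R + 1)) hχ hLe (fun x => ?_) (fun x hx => ?_)
    · rw [abs_of_nonneg (cl_nonneg _)]; exact cl_le_one _
    · have h3 : ‖x‖ ≤ R + 1 := by
        by_contra hcon
        exact hx (cl_zero (by linarith))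
      have h4 := hB x 0
      rw [dist_zero_right] at h4
      have h5 : ‖e x‖ ≤ ‖e 0‖ + ‖e x - e 0‖ := by
        have := norm_add_le (e 0) (e x - e 0)
        rwa [add_sub_cancel] at this
      have h6 : B * ‖x‖ ≤ B * (R + 1) := mul_le_mul_of_nonneg_left h3 hB0
      linarith
  let F0 : Eu n → Eu n := fun x => x + χ x • e x
  have hF0 : Lp F0 := lp_add lp_id hχe
  have hF0out : ∀ x, R + 1 ≤ ‖x‖ → F0 x = x := by
    intro x hx
    simp only [F0, χ]
    rw [cl_zero (by linarith), zero_smul, add_zero]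
  have hF0S : ∀ x ∈ S, F0 x = k x := by
    intro x hx
    have h3 : e x = k x - x := (hes hx).symm
    by_cases hxR : ‖x‖ ≤ R
    · simp only [F0, χ]
      rw [cl_one (by linarith), one_smul, h3, add_sub_cancel]
    · have h4 := h1 x hx (not_le.1 hxR)
      simp only [F0]
      rw [h3, h4, sub_self, smul_zero, add_zero]
  let F : Eu n → Eu n := fun x => rad (R + 1) (F0 x) + (x - rad (R + 1) x)
  have hF : Lp F := lp_add (lp_comp (lp_rad hR1) hF0) (lp_sub lp_id (lp_rad hR1))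
  refine ⟨F, ⟨hF, 0, R + 1, fun x hx => ?_, fun x hx => ?_⟩, fun x hx => ?_⟩
  · rw [mem_closedBall_zero_iff, not_le] at hx
    simp only [F]
    rw [hF0out x hx.le]
    abel
  · rw [mem_closedBall_zero_iff] at hx ⊢
    simp only [F]
    rw [rad_of_le hR1 hx, sub_self, add_zero]
    exact rad_le hR1 _
  · simp only [F]
    rw [hF0S x hx]
    by_cases hxR : ‖x‖ ≤ R
    · rw [rad_of_le hR1 (by linarith : ‖x‖ ≤ R + 1),
        rad_of_le hR1 (by linarith [h2 x hx hxR] : ‖k x‖ ≤ R + 1), sub_self, add_zero]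
    · rw [h1 x hx (not_le.1 hxR)]
      abel

/-- The competitor that moves `P` by `g` and `Q` by `h`, up to a set of measure zero. -/
theorem exists_competitor (P Q : Submodule ℝ (Eu n)) (g h : Eu n → Eu n) (hg : Lp g) (hh : Lp h)
    (R : ℝ) (hR : 0 ≤ R) (hg1 : ∀ x ∈ P, R < ‖x‖ → g x = x) (hg2 : ∀ x ∈ P, ‖x‖ ≤ R → ‖g x‖ ≤ R)
    (hh1 : ∀ x ∈ Q, R < ‖x‖ → h x = x) (hh2 : ∀ x ∈ Q, ‖x‖ ≤ R → ‖h x‖ ≤ R) :
    ∃ F : Eu n → Eu n, IsDeformation F ∧ (∀ x ∈ P, F x ∈ g '' P ∪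
      Set.range (fun q : (P ⊓ Q : Submodule ℝ (Eu n)) × ℝ => g q.1 + cl q.2 • (h q.1 - g q.1))) ∧
      ∀ x ∈ Q, F x = h x := by
  classical
  obtain ⟨C, hC0, hC⟩ := angle P Q
  let p : Eu n →L[ℝ] Eu n := (P ⊓ Q).starProjection
  have hp : ∀ x, p x ∈ P ⊓ Q := fun x => Submodule.starProjection_apply_mem _ x
  have hpself : ∀ x ∈ P ⊓ Q, p x = x := fun x hx => Submodule.starProjection_eq_self_iff.2 hx
  have hpn : ∀ x, ‖p x‖ ≤ ‖x‖ := by
    intro x
    have h1 := p.le_opNorm x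
    have h2 : ‖p‖ ≤ 1 := Submodule.starProjection_norm_le _
    calc ‖p x‖ ≤ ‖p‖ * ‖x‖ := h1
      _ ≤ 1 * ‖x‖ := mul_le_mul_of_nonneg_right h2 (norm_nonneg _)
      _ = ‖x‖ := one_mul _
  let v : Eu n → Eu n := fun x => x - p x
  have hv : Lp v := lp_sub lp_id (lp_clm p)
  let θ : Eu n → ℝ := fun x => max (cl (‖v x‖ - 1)) (cl (‖p x‖ - R))
  have hθ : Lp θ := by
    obtain ⟨K, hK⟩ : Lp (fun x => cl (‖v x‖ - 1)) := lp_cl (lp_sub (lp_norm hv) (lp_const 1))
    obtain ⟨L, hL⟩ : Lp (fun x => cl (‖p x‖ - R)) :=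
      lp_cl (lp_sub (lp_norm (lp_clm p)) (lp_const R))
    exact ⟨max K L, hK.max hL⟩
  have hθ0 : ∀ x, 0 ≤ θ x := fun x => (cl_nonneg _).trans (le_max_left _ _)
  have hθ1 : ∀ x, θ x ≤ 1 := fun x => max_le (cl_le_one _) (cl_le_one _)
  have hθ1' : ∀ x, 2 ≤ ‖v x‖ → θ x = 1 := by
    intro x hx
    refine le_antisymm (hθ1 x) ?_
    have : cl (‖v x‖ - 1) = 1 := cl_one (by linarith)
    exact this.symm.le.trans (le_max_left _ _)
  have hθ1'' : ∀ x, R + 1 ≤ ‖p x‖ → θ x = 1 := by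
    intro x hx
    refine le_antisymm (hθ1 x) ?_
    have : cl (‖p x‖ - R) = 1 := cl_one (by linarith)
    exact this.symm.le.trans (le_max_right _ _)
  let ψ : Eu n → Eu n := fun x => x - (1 - θ x) • v x
  have hψ : Lp ψ := by
    refine lp_sub lp_id (lp_smul (M := 2) (lp_sub (lp_const 1) hθ) hv (fun x => ?_)
      fun x hx => ?_)
    · rw [abs_of_nonneg (by linarith [hθ1 x])]; linarith [hθ0 x]
    · by_contra hcon
      exact hx (by rw [hθ1' x (not_le.1 hcon).le, sub_self])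
  have hψe : ∀ x, ψ x = (1 - θ x) • p x + θ x • x := by
    intro x
    simp only [ψ, v]
    rw [smul_sub, sub_smul, sub_smul, one_smul, one_smul]
    abel
  have hψn : ∀ x, ‖ψ x‖ ≤ ‖x‖ := by
    intro x
    rw [hψe]
    refine (norm_add_le _ _).trans ?_
    rw [norm_smul, norm_smul, Real.norm_eq_abs, Real.norm_eq_abs, abs_of_nonneg (hθ0 x),
      abs_of_nonneg (by linarith [hθ1 x])]
    have := mul_le_mul_of_nonneg_left (hpn x) (by linarith [hθ1 x] : 0 ≤ 1 - θ x)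
    nlinarith
  have hψP : ∀ x ∈ P, ψ x ∈ P := by
    intro x hx
    rw [hψe]
    exact P.add_mem (P.smul_mem _ (hp x).1) (P.smul_mem _ hx)
  let D : Eu n → Eu n := fun y => h y - g y
  have hD : Lp D := lp_sub hh hg
  have hD0 : ∀ y ∈ P ⊓ Q, R < ‖y‖ → D y = 0 := by
    intro y hy hyR
    simp only [D]
    rw [hh1 y hy.2 hyR, hg1 y hy.1 hyR, sub_self]
  have hDn : ∀ y ∈ P ⊓ Q, ‖D y‖ ≤ 2 * R := by
    intro y hy
    by_cases hyR : ‖y‖ ≤ R
    · have h1 := norm_sub_le (h y) (g y)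
      have h2 := hh2 y hy.2 hyR
      have h3 := hg2 y hy.1 hyR
      simp only [D]; linarith
    · rw [hD0 y hy (not_le.1 hyR), norm_zero]; positivity
  let h1 : Eu n → Eu n := fun x => g (ψ x) + cl (1 - ‖v x‖) • D (p x)
  have hh1L : Lp h1 := by
    refine lp_add (lp_comp hg hψ) (lp_smul (M := 2 * R)
      (lp_cl (lp_sub (lp_const 1) (lp_norm hv))) (lp_comp hD (lp_clm p)) (fun x => ?_)
      fun x _ => hDn _ (hp x))
    rw [abs_of_nonneg (cl_nonneg _)]; exact cl_le_one _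
  have hgn : ∀ z ∈ P, ‖g z‖ ≤ max R ‖z‖ := by
    intro z hz
    by_cases hzR : ‖z‖ ≤ R
    · exact (hg2 z hz hzR).trans (le_max_left _ _)
    · rw [hg1 z hz (not_le.1 hzR)]; exact le_max_right _ _
  have hh1far : ∀ x ∈ P, R + 4 < ‖x‖ → h1 x = x := by
    intro x hx hxR
    have htri : ‖x‖ ≤ ‖p x‖ + ‖v x‖ := by
      have := norm_add_le (p x) (v x)
      simp only [v, add_sub_cancel] at this
      exact this
    have key : θ x = 1 ∧ cl (1 - ‖v x‖) • D (p x) = 0 := by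
      by_cases h2 : 2 ≤ ‖v x‖
      · exact ⟨hθ1' x h2, by rw [cl_zero (by linarith), zero_smul]⟩
      · have h3 : R + 1 ≤ ‖p x‖ := by linarith
        exact ⟨hθ1'' x h3, by rw [hD0 _ (hp x) (by linarith), smul_zero]⟩
    have hψx : ψ x = x := by
      simp only [ψ]; rw [key.1, sub_self, zero_smul, sub_zero]
    simp only [h1]
    rw [key.2, hψx, add_zero]
    exact hg1 x hx (by linarith)
  have hh1bd : ∀ x ∈ P, ‖x‖ ≤ R + 4 → ‖h1 x‖ ≤ 3 * R + 4 := by
    intro x hx hxR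
    have h2 := hgn (ψ x) (hψP x hx)
    have h3 : max R ‖ψ x‖ ≤ R + 4 := max_le (by linarith) ((hψn x).trans hxR)
    have h4 : ‖cl (1 - ‖v x‖) • D (p x)‖ ≤ 2 * R := by
      rw [norm_smul, Real.norm_eq_abs, abs_of_nonneg (cl_nonneg _)]
      have h5 := hDn _ (hp x)
      calc cl (1 - ‖v x‖) * ‖D (p x)‖ ≤ 1 * (2 * R) :=
            mul_le_mul (cl_le_one _) h5 (norm_nonneg _) zero_le_one
        _ = 2 * R := one_mul _
    have h6 := norm_add_le (g (ψ x)) (cl (1 - ‖v x‖) • D (p x))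
    simp only [h1]
    linarith
  have hh1S : ∀ x ∈ P ⊓ Q, h1 x = h x := by
    intro x hx
    have hvx : v x = 0 := by simp only [v]; rw [hpself x hx, sub_self]
    simp only [h1, ψ, D]
    rw [hvx, smul_zero, sub_zero, norm_zero, sub_zero, cl_one le_rfl, one_smul, hpself x hx]
    abel
  -- the map on the union
  let k : Eu n → Eu n := fun x => if x ∈ P then h1 x else h x
  have hkQ : ∀ x ∈ Q, k x = h x := by
    intro x hx
    simp only [k]
    by_cases hxP : x ∈ P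
    · rw [if_pos hxP, hh1S x ⟨hxP, hx⟩]
    · rw [if_neg hxP]
  have hkP : ∀ x ∈ P, k x = h1 x := fun x hx => if_pos hx
  obtain ⟨K1, hK10, hK1⟩ := lp_bound hh1L
  obtain ⟨K2, hK20, hK2⟩ := lp_bound hh
  have hcross : ∀ x ∈ P, ∀ y ∈ Q, dist (k x) (k y) ≤ ((K1 + K2) * C) * dist x y := by
    intro x hx y hy
    rw [hkP x hx, hkQ y hy, dist_eq_norm, dist_eq_norm]
    obtain ⟨c1, c2⟩ := hC x hx y hy
    have e : h1 x - h y = (h1 x - h1 (p x)) + (h (p x) - h y) := by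
      rw [hh1S (p x) (hp x)]; abel
    rw [e]
    refine (norm_add_le _ _).trans ?_
    have h2 := hK1 x (p x)
    have h3 := hK2 (p x) y
    rw [dist_eq_norm] at h2 h3
    have h4 : K1 * ‖x - p x‖ ≤ K1 * (C * ‖x - y‖) := mul_le_mul_of_nonneg_left c1 hK10
    have h5 : K2 * ‖p x - y‖ ≤ K2 * (C * ‖x - y‖) := mul_le_mul_of_nonneg_left c2 hK20
    nlinarith
  let K : ℝ := K1 + K2 + (K1 + K2) * C
  have hK0 : 0 ≤ K := by positivity
  have hkL : LipschitzOnWith K.toNNReal k ((P : Set (Eu n)) ∪ (Q : Set (Eu n))) := by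
    refine LipschitzOnWith.of_dist_le_mul fun x hx y hy => ?_
    rw [Real.coe_toNNReal _ hK0]
    have hd : 0 ≤ dist x y := dist_nonneg
    have hKC : 0 ≤ (K1 + K2) * C := by positivity
    rcases hx with hx | hx <;> rcases hy with hy | hy
    · have h2 := hK1 x y
      rw [hkP x hx, hkP y hy, dist_eq_norm (h1 x)]
      refine h2.trans (mul_le_mul_of_nonneg_right ?_ hd)
      simp only [K]; linarith
    · refine (hcross x hx y hy).trans (mul_le_mul_of_nonneg_right ?_ hd)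
      simp only [K]; linarith
    · rw [dist_comm, dist_comm x y]
      refine (hcross y hy x hx).trans (mul_le_mul_of_nonneg_right ?_ dist_nonneg)
      simp only [K]; linarith
    · have h2 := hK2 x y
      rw [hkQ x hx, hkQ y hy, dist_eq_norm (h x)]
      refine h2.trans (mul_le_mul_of_nonneg_right ?_ hd)
      simp only [K]; linarith
  obtain ⟨F, hF, hFk⟩ := exists_deformation ((P : Set (Eu n)) ∪ (Q : Set (Eu n))) k K.toNNReal hkL
    (3 * R + 4) (by positivity) (by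
      rintro x (hx | hx) hxR
      · rw [hkP x hx]; exact hh1far x hx (by linarith)
      · rw [hkQ x hx]; exact hh1 x hx (by linarith)) (by
      rintro x (hx | hx) hxR
      · rw [hkP x hx]
        by_cases h4 : R + 4 < ‖x‖
        · rw [hh1far x hx h4]; exact hxR
        · exact hh1bd x hx (not_lt.1 h4)
      · rw [hkQ x hx]
        by_cases h4 : ‖x‖ ≤ R
        · exact (hh2 x hx h4).trans (by linarith)
        · rw [hh1 x hx (not_le.1 h4)]; exact hxR)
  refine ⟨F, hF, fun x hx => ?_, fun x hx => ?_⟩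
  · rw [hFk x (Or.inl hx), hkP x hx]
    by_cases h2 : R < ‖p x‖
    · left
      refine ⟨ψ x, hψP x hx, ?_⟩
      simp only [h1]
      rw [hD0 _ (hp x) h2, smul_zero, add_zero]
    · by_cases h3 : 1 ≤ ‖v x‖
      · left
        refine ⟨ψ x, hψP x hx, ?_⟩
        simp only [h1]
        rw [cl_zero (by linarith), zero_smul, add_zero]
      · right
        refine ⟨(⟨p x, hp x⟩, 1 - ‖v x‖), ?_⟩
        have h4 : θ x = 0 := by
          simp only [θ]
          rw [cl_zero (by linarith), cl_zero (by linarith), max_self]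
        have h5 : ψ x = p x := by
          rw [hψe, h4, sub_zero, one_smul, zero_smul, add_zero]
        simp only [h1, D]
        rw [h5]
  · rw [hFk x (Or.inr hx), hkQ x hx]

end RipA

open RipA

/-- If `dim (P ∩ Q) ≤ d - 2` and `P ∪ Q` is Almgren minimal then competitors that move the two
planes independently are allowed. -/
theorem rip {n d : ℕ} (P Q : Submodule ℝ (Eu n)) (hP : finrank ℝ P = d) (hQ : finrank ℝ Q = d)
    (hPQ : finrank ℝ (P ⊓ Q : Submodule ℝ (Eu n)) + 2 ≤ d)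
    (hmin : AlmgrenMinimal d ((P : Set (Eu n)) ∪ (Q : Set (Eu n)))) (g h : Eu n → Eu n)
    (hg : ∃ K : NNReal, LipschitzWith K g) (hh : ∃ K : NNReal, LipschitzWith K h) (R : ℝ)
    (hg1 : ∀ x ∈ P, R < ‖x‖ → g x = x) (hg2 : ∀ x ∈ P, ‖x‖ ≤ R → ‖g x‖ ≤ R)
    (hh1 : ∀ x ∈ Q, R < ‖x‖ → h x = x) (hh2 : ∀ x ∈ Q, ‖x‖ ≤ R → ‖h x‖ ≤ R) :
    μH[(d : ℝ)] (((P : Set (Eu n)) ∪ (Q : Set (Eu n))) \ (g '' P ∪ h '' Q)) ≤
      μH[(d : ℝ)] ((g '' P ∪ h '' Q) \ ((P : Set (Eu n)) ∪ (Q : Set (Eu n)))) := by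
  rcases lt_or_ge R 0 with hR | hR
  · have e1 : g '' P = P := by
      refine Set.Subset.antisymm ?_ ?_
      · rintro _ ⟨x, hx, rfl⟩
        rw [hg1 x hx (hR.trans_le (norm_nonneg _))]; exact hx
      · intro x hx
        exact ⟨x, hx, hg1 x hx (hR.trans_le (norm_nonneg _))⟩
    have e2 : h '' Q = Q := by
      refine Set.Subset.antisymm ?_ ?_
      · rintro _ ⟨x, hx, rfl⟩
        rw [hh1 x hx (hR.trans_le (norm_nonneg _))]; exact hx
      · intro x hx
        exact ⟨x, hx, hh1 x hx (hR.trans_le (norm_nonneg _))⟩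
    rw [e1, e2]
  obtain ⟨F, hF, hFP, hFQ⟩ := exists_competitor P Q g h hg hh R hR hg1 hg2 hh1 hh2
  have hN := null_set (P ⊓ Q) d hPQ g (fun y => h y - g y) hg (lp_sub hh hg) (2 * R) (by
    intro y hy
    by_cases hyR : ‖y‖ ≤ R
    · have h1 := norm_sub_le (h y) (g y)
      have h2 := hh2 y hy.2 hyR
      have h3 := hg2 y hy.1 hyR
      linarith
    · rw [hh1 y hy.2 (not_le.1 hyR), hg1 y hy.1 (not_le.1 hyR), sub_self, norm_zero]
      positivity)
  set N : Set (Eu n) := Set.range (fun q : (P ⊓ Q : Submodule ℝ (Eu n)) × ℝ =>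
    g q.1 + cl q.2 • (h q.1 - g q.1)) with hNdef
  have hsub : F '' ((P : Set (Eu n)) ∪ (Q : Set (Eu n))) ⊆ (g '' P ∪ h '' Q) ∪ N := by
    rintro _ ⟨x, hx | hx, rfl⟩
    · rcases hFP x hx with h1 | h1
      · exact Or.inl (Or.inl h1)
      · exact Or.inr h1
    · rw [hFQ x hx]; exact Or.inl (Or.inr ⟨x, hx, rfl⟩)
  have hmF := hmin.2.2 F hF
  calc μH[(d : ℝ)] (((P : Set (Eu n)) ∪ (Q : Set (Eu n))) \ (g '' P ∪ h '' Q))
      ≤ μH[(d : ℝ)] ((((P : Set (Eu n)) ∪ (Q : Set (Eu n))) \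
          F '' ((P : Set (Eu n)) ∪ (Q : Set (Eu n)))) ∪ N) := by
        refine measure_mono fun x hx => ?_
        by_cases hxN : x ∈ N
        · exact Or.inr hxN
        · refine Or.inl ⟨hx.1, fun hxF => ?_⟩
          rcases hsub hxF with h1 | h1
          · exact hx.2 h1
          · exact hxN h1
    _ ≤ μH[(d : ℝ)] (((P : Set (Eu n)) ∪ (Q : Set (Eu n))) \
          F '' ((P : Set (Eu n)) ∪ (Q : Set (Eu n)))) + μH[(d : ℝ)] N := measure_union_le _ _
    _ = μH[(d : ℝ)] (((P : Set (Eu n)) ∪ (Q : Set (Eu n))) \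
          F '' ((P : Set (Eu n)) ∪ (Q : Set (Eu n)))) := by rw [hN, add_zero]
    _ ≤ μH[(d : ℝ)] (F '' ((P : Set (Eu n)) ∪ (Q : Set (Eu n))) \
          ((P : Set (Eu n)) ∪ (Q : Set (Eu n)))) := hmF
    _ ≤ μH[(d : ℝ)] (((g '' P ∪ h '' Q) \ ((P : Set (Eu n)) ∪ (Q : Set (Eu n)))) ∪ N) := by
        refine measure_mono fun x hx => ?_
        rcases hsub hx.1 with h1 | h1
        · exact Or.inl ⟨h1, hx.2⟩
        · exact Or.inr h1
    _ ≤ μH[(d : ℝ)] ((g '' P ∪ h '' Q) \ ((P : Set (Eu n)) ∪ (Q : Set (Eu n)))) +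
          μH[(d : ℝ)] N := measure_union_le _ _
    _ = μH[(d : ℝ)] ((g '' P ∪ h '' Q) \ ((P : Set (Eu n)) ∪ (Q : Set (Eu n)))) := by
        rw [hN, add_zero]

end H56Mono
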