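import Pool.Agent.H56.Mono.Box
import Pool.Agent.H56.Mono.Rip

open MeasureTheory Measure Module
open scoped InnerProductSpace RealInnerProductSpace NNReal ENNReal

namespace H56Mono

theorem deformation_bound {n : ℕ} {f : Eu n → Eu n} (hf : IsDeformation f) :
    ∃ R : ℝ, 0 ≤ R ∧ (∀ x, R < ‖x‖ → f x = x) ∧ (∀ x, ‖x‖ ≤ R → ‖f x‖ ≤ R) := by
  obtain ⟨-, c, r, h1, h2⟩ := hf
  have hball : ∀ x : Eu n, x ∈ Metric.closedBall c r → ‖x‖ ≤ max 0 (‖c‖ + r) := by
    intro x hx
    rw [Metric.mem_closedBall, dist_eq_norm] at hx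
    refine le_trans ?_ (le_max_right _ _)
    calc ‖x‖ = ‖c + (x - c)‖ := by congr 1; abel
      _ ≤ ‖c‖ + ‖x - c‖ := norm_add_le _ _
      _ ≤ ‖c‖ + r := by linarith
  refine ⟨max 0 (‖c‖ + r), le_max_left _ _, ?_, ?_⟩
  · intro x hx
    exact h1 x (fun h => absurd (hball x h) (not_le.2 hx))
  · intro x hx
    by_cases h : x ∈ Metric.closedBall c r
    · exact hball _ (h2 x h)
    · rw [h1 x h]; exact hx

theorem isClosed_deformation_image {n : ℕ} {f : Eu n → Eu n} (hf : IsDeformation f)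
    {S : Set (Eu n)} (hS : IsClosed S) : IsClosed (f '' S) := by
  obtain ⟨R, hR0, h1, h2⟩ := deformation_bound hf
  obtain ⟨K, hK⟩ := hf.1
  have : f '' S = f '' (S ∩ Metric.closedBall 0 (R + 1)) ∪ (S ∩ {x | R + 1 ≤ ‖x‖}) := by
    ext y
    constructor
    · rintro ⟨x, hx, rfl⟩
      by_cases h : ‖x‖ ≤ R + 1
      · left
        exact ⟨x, ⟨hx, by simpa using h⟩, rfl⟩
      · right
        rw [h1 x (by linarith)]
        exact ⟨hx, (not_le.1 h).le⟩
    · rintro (⟨x, ⟨hx, -⟩, rfl⟩ | ⟨hy, hy1⟩)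
      · exact ⟨x, hx, rfl⟩
      · refine ⟨y, hy, h1 y ?_⟩
        have : R + 1 ≤ ‖y‖ := hy1
        linarith
  rw [this]
  refine IsClosed.union ?_ ?_
  · exact (((isCompact_closedBall (0 : Eu n) (R + 1)).inter_left hS).image
      hK.continuous).isClosed
  · exact hS.inter (isClosed_le continuous_const continuous_norm)

theorem plane_inter_null {n d : ℕ} (P Q : Submodule ℝ (Eu n))
    (hPQ : finrank ℝ (P ⊓ Q : Submodule ℝ (Eu n)) < d) :
    μH[(d : ℝ)] ((P : Set (Eu n)) ∩ Q) = 0 := by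
  obtain ⟨g, hg⟩ := exists_param (P ⊓ Q) rfl
  have h1 : ((P : Set (Eu n)) ∩ Q) = Set.range g := by rw [hg]; simp
  rw [h1, ← Set.image_univ]
  have h2 : dimH (g '' Set.univ) ≤ (finrank ℝ (P ⊓ Q : Submodule ℝ (Eu n)) : ℝ≥0∞) := by
    refine (g.isometry.lipschitz.dimH_image_le _).trans ?_
    rw [Real.dimH_univ_eq_finrank]
    simp
  have h3 : dimH (g '' Set.univ) < ((d : ℝ≥0) : ℝ≥0∞) := by
    refine h2.trans_lt ?_
    exact_mod_cast hPQ
  have := hausdorffMeasure_of_dimH_lt h3
  simpa using this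

/-- The comparison at a vertex of the box: `T` is isometric on `P` and on `Q` (not necessarily
injective), `T P ∪ T Q` is minimal with a small spine. -/
theorem vertex_main {n d : ℕ} (P Q : Submodule ℝ (Eu n)) (hP : finrank ℝ P = d)
    (hQ : finrank ℝ Q = d) (T : Eu n →ₗ[ℝ] Eu n) (hTP : ∀ z ∈ P, ‖T z‖ = ‖z‖)
    (hTQ : ∀ z ∈ Q, ‖T z‖ = ‖z‖)
    (hdim : finrank ℝ ((P.map T ⊓ Q.map T : Submodule ℝ (Eu n))) + 2 ≤ d)
    (hmin : AlmgrenMinimal d (((P.map T : Submodule ℝ (Eu n)) : Set (Eu n)) ∪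
      ((Q.map T : Submodule ℝ (Eu n)) : Set (Eu n))))
    (f : Eu n → Eu n) (hf : IsDeformation f) :
    μH[(d : ℝ)] (((P : Set (Eu n)) ∪ Q) \ f '' ((P : Set (Eu n)) ∪ Q)) ≤
      μH[(d : ℝ)] (T '' (f '' ((P : Set (Eu n)) ∪ Q) \ ((P : Set (Eu n)) ∪ Q))) := by
  classical
  have hinjP : Set.InjOn T P := by
    intro x hx y hy hxy
    have := hTP (x - y) (P.sub_mem hx hy)
    rw [map_sub, hxy, sub_self, norm_zero] at this
    exact sub_eq_zero.1 (norm_eq_zero.1 this.symm)
  have hinjQ : Set.InjOn T Q := by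
    intro x hx y hy hxy
    have := hTQ (x - y) (Q.sub_mem hx hy)
    rw [map_sub, hxy, sub_self, norm_zero] at this
    exact sub_eq_zero.1 (norm_eq_zero.1 this.symm)
  -- left inverses
  have hinv : ∀ R : Submodule ℝ (Eu n), Set.InjOn T R → ∃ A : Eu n →ₗ[ℝ] Eu n,
      ∀ z ∈ R, A (T z) = z := by
    intro R hR
    have h1 : LinearMap.ker (T.domRestrict R) = ⊥ := by
      rw [LinearMap.ker_eq_bot]
      intro x y hxy
      exact Subtype.ext (hR x.2 y.2 hxy)
    obtain ⟨A, hA⟩ := LinearMap.exists_leftInverse_of_injective _ h1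
    refine ⟨R.subtype ∘ₗ A, ?_⟩
    intro z hz
    have := LinearMap.congr_fun hA ⟨z, hz⟩
    simp only [LinearMap.comp_apply, LinearMap.domRestrict_apply, LinearMap.id_apply] at this
    simp only [LinearMap.comp_apply]
    rw [this]
    rfl
  obtain ⟨A, hA⟩ := hinv P hinjP
  obtain ⟨B, hB⟩ := hinv Q hinjQ
  obtain ⟨R, hR0, hfR, hfR'⟩ := deformation_bound hf
  obtain ⟨K, hK⟩ := hf.1
  set T' : Eu n →L[ℝ] Eu n := LinearMap.toContinuousLinearMap T with hT'
  have hT'a : ∀ z, T' z = T z := fun z => rfl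
  set S : Set (Eu n) := (P : Set (Eu n)) ∪ Q with hS
  set F : Set (Eu n) := f '' S with hF
  set R' : ℝ := max 1 ‖T'‖ * R with hR'
  have hRR' : R ≤ R' := by
    rw [hR']
    have := le_max_left 1 ‖T'‖
    nlinarith
  have hTR : ∀ z : Eu n, ‖z‖ ≤ R → ‖T z‖ ≤ R' := by
    intro z hz
    calc ‖T z‖ = ‖T' z‖ := rfl
      _ ≤ ‖T'‖ * ‖z‖ := T'.le_opNorm z
      _ ≤ max 1 ‖T'‖ * R := mul_le_mul (le_max_right _ _) hz (norm_nonneg _)
          (le_trans zero_le_one (le_max_left _ _))
  have hgP : (fun x => T (f (A x))) '' ((P.map T : Submodule ℝ (Eu n)) : Set (Eu n)) =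
      T '' (f '' P) := by
    rw [Submodule.map_coe, Set.image_image, Set.image_image]
    refine Set.image_congr fun z hz => ?_
    rw [hA z hz]
  have hgQ : (fun x => T (f (B x))) '' ((Q.map T : Submodule ℝ (Eu n)) : Set (Eu n)) =
      T '' (f '' Q) := by
    rw [Submodule.map_coe, Set.image_image, Set.image_image]
    refine Set.image_congr fun z hz => ?_
    rw [hB z hz]
  have hfinP : finrank ℝ (P.map T : Submodule ℝ (Eu n)) = d := by
    have h1 : Function.Injective (T.domRestrict P) := by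
      intro x y hxy
      exact Subtype.ext (hinjP x.2 y.2 hxy)
    have h2 := LinearMap.finrank_range_of_inj h1
    rw [LinearMap.range_domRestrict] at h2
    rw [h2, hP]
  have hfinQ : finrank ℝ (Q.map T : Submodule ℝ (Eu n)) = d := by
    have h1 : Function.Injective (T.domRestrict Q) := by
      intro x y hxy
      exact Subtype.ext (hinjQ x.2 y.2 hxy)
    have h2 := LinearMap.finrank_range_of_inj h1
    rw [LinearMap.range_domRestrict] at h2
    rw [h2, hQ]
  have hrip := rip (P.map T) (Q.map T) hfinP hfinQ hdim hmin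
    (fun x => T (f (A x))) (fun x => T (f (B x)))
    ⟨_, T'.lipschitz.comp (hK.comp (LinearMap.toContinuousLinearMap A).lipschitz)⟩
    ⟨_, T'.lipschitz.comp (hK.comp (LinearMap.toContinuousLinearMap B).lipschitz)⟩ R'
    (by
      rintro _ ⟨z, hz, rfl⟩ hx
      rw [hTP z hz] at hx
      rw [hA z hz, hfR z (lt_of_le_of_lt hRR' hx)])
    (by
      rintro _ ⟨z, hz, rfl⟩ hx
      rw [hTP z hz] at hx
      rw [hA z hz]
      by_cases h : ‖z‖ ≤ R
      · exact hTR _ (hfR' z h)
      · rw [hfR z (not_le.1 h), hTP z hz]; exact hx)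
    (by
      rintro _ ⟨z, hz, rfl⟩ hx
      rw [hTQ z hz] at hx
      rw [hB z hz, hfR z (lt_of_le_of_lt hRR' hx)])
    (by
      rintro _ ⟨z, hz, rfl⟩ hx
      rw [hTQ z hz] at hx
      rw [hB z hz]
      by_cases h : ‖z‖ ≤ R
      · exact hTR _ (hfR' z h)
      · rw [hfR z (not_le.1 h), hTQ z hz]; exact hx)
  rw [hgP, hgQ, ← Set.image_union, ← Set.image_union] at hrip
  have hTS : (((P.map T : Submodule ℝ (Eu n)) : Set (Eu n)) ∪
      ((Q.map T : Submodule ℝ (Eu n)) : Set (Eu n))) = T '' S := by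
    rw [hS, Set.image_union]; simp
  rw [hTS] at hrip
  rw [← hS, ← hF] at hrip
  -- null set
  have hnull : μH[(d : ℝ)] (((P.map T : Submodule ℝ (Eu n)) : Set (Eu n)) ∩
      ((Q.map T : Submodule ℝ (Eu n)) : Set (Eu n))) = 0 :=
    plane_inter_null _ _ (by omega)
  have hScl : IsClosed S := (Submodule.closed_of_finiteDimensional P).union
    (Submodule.closed_of_finiteDimensional Q)
  have hFcl : IsClosed F := isClosed_deformation_image hf hScl
  set U := S \ F with hU
  set V := F \ S with hV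
  have hUm : MeasurableSet U := hScl.measurableSet.diff hFcl.measurableSet
  have hTc : Continuous T := T.continuous_of_finiteDimensional
  have hPm : MeasurableSet (P : Set (Eu n)) := (Submodule.closed_of_finiteDimensional P).measurableSet
  have hQm : MeasurableSet (Q : Set (Eu n)) := (Submodule.closed_of_finiteDimensional Q).measurableSet
  have hTUm : MeasurableSet (T '' U) := by
    have h1 : U = (U ∩ P) ∪ (U ∩ Q) := by
      rw [← Set.inter_union_distrib_left]
      exact (Set.inter_eq_left.2 (fun x hx => hx.1)).symm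
    rw [h1, Set.image_union]
    refine MeasurableSet.union ?_ ?_
    · exact (hUm.inter hPm).image_of_continuousOn_injOn hTc.continuousOn
        (hinjP.mono Set.inter_subset_right)
    · exact (hUm.inter hQm).image_of_continuousOn_injOn hTc.continuousOn
        (hinjQ.mono Set.inter_subset_right)
  -- step (a)
  have isoH : ∀ (R : Submodule ℝ (Eu n)), (∀ z ∈ R, ‖T z‖ = ‖z‖) → ∀ W : Set (Eu n),
      W ⊆ R → μH[(d : ℝ)] W ≤ μH[(d : ℝ)] (T '' W) := by
    intro R hTR W hW
    have := hausdorff_le_of_edist_le (fun x : Eu n => x) T W 1 (by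
      intro x hx y hy
      have h1 := hTR (x - y) (R.sub_mem (hW hx) (hW hy))
      rw [map_sub] at h1
      rw [edist_eq_enorm_sub, edist_eq_enorm_sub, enorm_eq_iff_norm_eq.2 h1]
      simp) d
    simpa using this
  have stepa : μH[(d : ℝ)] U ≤ μH[(d : ℝ)] (T '' U) := by
    have hTPm : MeasurableSet (T '' (P : Set (Eu n))) := by
      rw [← Submodule.map_coe]
      exact (Submodule.closed_of_finiteDimensional _).measurableSet
    calc μH[(d : ℝ)] U ≤ μH[(d : ℝ)] (U ∩ P) + μH[(d : ℝ)] (U \ P) :=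
          measure_le_inter_add_sdiff _ _ _
      _ ≤ μH[(d : ℝ)] (T '' (U ∩ P)) + μH[(d : ℝ)] (T '' (U \ P)) := by
          refine add_le_add (isoH P hTP _ Set.inter_subset_right) (isoH Q hTQ _ ?_)
          rintro x ⟨hx, hxP⟩
          rcases hx.1 with h | h
          · exact absurd h hxP
          · exact h
      _ ≤ μH[(d : ℝ)] (T '' U ∩ T '' P) + μH[(d : ℝ)] (T '' U \ T '' P) := by
          refine add_le_add (measure_mono ?_) ?_
          · rintro _ ⟨x, hx, rfl⟩
            exact ⟨⟨x, hx.1, rfl⟩, ⟨x, hx.2, rfl⟩⟩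
          · have hsub : T '' (U \ P) ⊆ (T '' U \ T '' P) ∪
                (((P.map T : Submodule ℝ (Eu n)) : Set (Eu n)) ∩
                ((Q.map T : Submodule ℝ (Eu n)) : Set (Eu n))) := by
              rintro _ ⟨x, ⟨hx, hxP⟩, rfl⟩
              by_cases h : T x ∈ T '' (P : Set (Eu n))
              · right
                refine ⟨by rw [Submodule.map_coe]; exact h, ?_⟩
                rw [Submodule.map_coe]
                rcases hx.1 with h' | h'
                · exact absurd h' hxP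
                · exact ⟨x, h', rfl⟩
              · left
                exact ⟨⟨x, hx, rfl⟩, h⟩
            refine (measure_mono hsub).trans ((measure_union_le _ _).trans ?_)
            rw [hnull, add_zero]
      _ = μH[(d : ℝ)] (T '' U) := measure_inter_add_sdiff _ hTPm
  have stepb : μH[(d : ℝ)] (T '' U \ T '' V) ≤ μH[(d : ℝ)] (T '' V \ T '' U) := by
    calc μH[(d : ℝ)] (T '' U \ T '' V) ≤ μH[(d : ℝ)] (T '' S \ T '' F) := by
          have hsub : T '' U \ T '' V ⊆ (T '' S \ T '' F) ∪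
                (((P.map T : Submodule ℝ (Eu n)) : Set (Eu n)) ∩
                ((Q.map T : Submodule ℝ (Eu n)) : Set (Eu n))) := by
            rintro _ ⟨⟨a, ha, rfl⟩, haV⟩
            by_cases h : T a ∈ T '' F
            · right
              obtain ⟨b, hb, hab⟩ := h
              have hbS : b ∈ S := by
                by_contra hbS
                exact haV ⟨b, ⟨hb, hbS⟩, hab⟩
              have hne : a ≠ b := by
                rintro rfl
                exact ha.2 hb
              rw [Submodule.map_coe, Submodule.map_coe]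
              rcases ha.1 with h1 | h1 <;> rcases hbS with h2 | h2
              · exact absurd (hinjP h1 h2 hab.symm) hne
              · exact ⟨⟨a, h1, rfl⟩, ⟨b, h2, hab⟩⟩
              · exact ⟨⟨b, h2, hab⟩, ⟨a, h1, rfl⟩⟩
              · exact absurd (hinjQ h1 h2 hab.symm) hne
            · left
              exact ⟨⟨a, ha.1, rfl⟩, h⟩
          refine (measure_mono hsub).trans ((measure_union_le _ _).trans ?_)
          rw [hnull, add_zero]
      _ ≤ μH[(d : ℝ)] (T '' F \ T '' S) := hrip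
      _ ≤ μH[(d : ℝ)] (T '' V \ T '' U) := by
          refine measure_mono ?_
          rintro _ ⟨⟨b, hb, rfl⟩, hbS⟩
          refine ⟨⟨b, ⟨hb, fun h => hbS ⟨b, h, rfl⟩⟩, rfl⟩, ?_⟩
          rintro ⟨a, ha, hab⟩
          exact hbS ⟨a, ha.1, hab⟩
  calc μH[(d : ℝ)] U ≤ μH[(d : ℝ)] (T '' U) := stepa
    _ ≤ μH[(d : ℝ)] (T '' U ∩ T '' V) + μH[(d : ℝ)] (T '' U \ T '' V) :=
        measure_le_inter_add_sdiff _ _ _
    _ ≤ μH[(d : ℝ)] (T '' V ∩ T '' U) + μH[(d : ℝ)] (T '' V \ T '' U) := by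
        rw [Set.inter_comm]
        gcongr
    _ = μH[(d : ℝ)] (T '' V) := measure_inter_add_sdiff _ hTUm

end H56Mono
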