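import Pool.Agent.H56.Mono.Setup
import Pool.Agent.H56.Mono.Vertex
import Pool.Agent.H56.Mono.Flex

open MeasureTheory Measure Module
open scoped InnerProductSpace RealInnerProductSpace NNReal ENNReal

namespace H56Mono

/-- The dimension of the intersection is the number of zero angles. -/
theorem finrank_inf_le {n d : ℕ} (P Q : Submodule ℝ (Eu n)) (a : Fin d → ℝ)
    (ha : ∀ k, 0 ≤ a k ∧ a k ≤ Real.pi / 2) (h : HasAngles P Q a) :
    finrank ℝ (P ⊓ Q : Submodule ℝ (Eu n)) =
      (Finset.univ.filter (fun k => a k = 0)).card := by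
  classical
  have hpi := Real.pi_pos
  obtain ⟨e, f, he, hf, hP, hQ, hef⟩ := h
  have hee := orthonormal_iff_ite.1 he
  have hff := orthonormal_iff_ite.1 hf
  have heq : (P ⊓ Q : Submodule ℝ (Eu n)) =
      Submodule.span ℝ (Set.range (fun k : {k : Fin d // a k = 0} => e k)) := by
    apply le_antisymm
    · intro z hz
      have hzP : z ∈ P := hz.1
      have hzQ : z ∈ Q := hz.2
      have r1 := fx_repr he hP hzP
      have r2 := fx_repr hf hQ hzQ
      have h1 : ∀ k, ⟪f k, z⟫ = Real.cos (a k) * ⟪e k, z⟫ := by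
        intro k
        conv_lhs => rw [r1]
        rw [inner_sum, Finset.sum_eq_single k]
        · rw [inner_smul_right, real_inner_comm (e k) (f k), hef]; simp; ring
        · intro j _ hj
          rw [inner_smul_right, real_inner_comm (e j) (f k), hef]; simp [hj]
        · simp
      have h2 : ∀ k, ⟪e k, z⟫ = Real.cos (a k) * ⟪f k, z⟫ := by
        intro k
        conv_lhs => rw [r2]
        rw [inner_sum, Finset.sum_eq_single k]
        · rw [inner_smul_right, hef]; simp; ring
        · intro j _ hj
          rw [inner_smul_right, hef]; simp [Ne.symm hj]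
        · simp
      have h3 : ∀ k, a k ≠ 0 → ⟪e k, z⟫ = 0 := by
        intro k hk
        have hk1 : 0 < a k := lt_of_le_of_ne (ha k).1 (Ne.symm hk)
        have hc : Real.cos (a k) < 1 := by
          have := Real.cos_lt_cos_of_nonneg_of_le_pi (le_refl 0) (by linarith [(ha k).2]) hk1
          simpa using this
        have hc0 : 0 ≤ Real.cos (a k) :=
          Real.cos_nonneg_of_neg_pi_div_two_le_of_le (by linarith [(ha k).1]) (ha k).2
        have h4 := h2 k
        rw [h1 k] at h4
        have h5 : (1 - Real.cos (a k) ^ 2) * ⟪e k, z⟫ = 0 := by linarith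
        rcases mul_eq_zero.1 h5 with h6 | h6
        · nlinarith
        · exact h6
      rw [r1]
      refine Submodule.sum_mem _ fun k _ => ?_
      by_cases hk : a k = 0
      · exact Submodule.smul_mem _ _ (Submodule.subset_span ⟨⟨k, hk⟩, rfl⟩)
      · rw [h3 k hk]; simp
    · rw [Submodule.span_le]
      rintro _ ⟨⟨k, hk⟩, rfl⟩
      refine ⟨?_, ?_⟩
      · rw [SetLike.mem_coe, ← hP]; exact Submodule.subset_span ⟨k, rfl⟩
      · have h1 : e k = f k := by
          have h2 := hef k k
          simp only [if_true, hk, Real.cos_zero] at h2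
          exact (inner_eq_one_iff_of_norm_eq_one (he.1 k) (hf.1 k)).1 h2
        simp only
        rw [SetLike.mem_coe, h1, ← hQ]; exact Submodule.subset_span ⟨k, rfl⟩
  rw [heq, finrank_span_eq_card]
  · exact Fintype.card_subtype _
  · exact he.linearIndependent.comp _ Subtype.val_injective

theorem min_two_full {n d : ℕ} (a b : Fin d → ℝ)
    (ha : ∀ k, 0 ≤ a k ∧ a k ≤ Real.pi / 2) (hb : ∀ k, 0 ≤ b k ∧ b k ≤ Real.pi / 2)
    (hab : ∀ k, a k ≤ b k) (hz : (Finset.univ.filter (fun k => a k = 0)).card + 2 ≤ d)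
    (hmin : ∀ P Q : Submodule ℝ (Eu n), HasAngles P Q a →
      AlmgrenMinimal d ((P : Set (Eu n)) ∪ (Q : Set (Eu n))))
    (P Q : Submodule ℝ (Eu n)) (h : HasAngles P Q b) :
    AlmgrenMinimal d ((P : Set (Eu n)) ∪ (Q : Set (Eu n))) := by
  classical
  have hpi := Real.pi_pos
  obtain ⟨e, f, he, hf, hP, hQ, hef⟩ := h
  obtain ⟨l, l', hl0, hl0', hPf, hQe, hle, hlf, hdec⟩ := two_setup b hb e f he hf hef
  rw [hP] at hPf
  rw [hQ] at hQe
  have hee := orthonormal_iff_ite.1 he
  have hff := orthonormal_iff_ite.1 hf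
  have he_mem : ∀ k, e k ∈ P := fun k => by rw [← hP]; exact Submodule.subset_span ⟨k, rfl⟩
  have hf_mem : ∀ k, f k ∈ Q := fun k => by rw [← hQ]; exact Submodule.subset_span ⟨k, rfl⟩
  have hQd : finrank ℝ Q = d := by
    rw [← hQ, finrank_span_eq_card hf.linearIndependent]
    simp
  have hPd : finrank ℝ P = d := by
    rw [← hP, finrank_span_eq_card he.linearIndependent]
    simp
  set t : Fin d → ℝ := fun k => Real.cos (b k) with ht
  have hcb0 : ∀ k, 0 ≤ t k := fun k =>
    Real.cos_nonneg_of_neg_pi_div_two_le_of_le (by linarith [(hb k).1]) (hb k).2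
  have hca0 : ∀ k, 0 ≤ Real.cos (a k) := fun k =>
    Real.cos_nonneg_of_neg_pi_div_two_le_of_le (by linarith [(ha k).1]) (ha k).2
  have hca1 : ∀ k, Real.cos (a k) ≤ 1 := fun k => Real.cos_le_one _
  have htc : ∀ k, t k ≤ Real.cos (a k) := fun k =>
    Real.cos_le_cos_of_nonneg_of_le_pi (ha k).1 (by linarith [(hb k).2]) (hab k)
  have ht1 : ∀ k, b k ≠ 0 → t k < 1 := by
    intro k hk
    have h1 : 0 < b k := lt_of_le_of_ne (hb k).1 (Ne.symm hk)
    have := Real.cos_lt_cos_of_nonneg_of_le_pi (le_refl 0) (by linarith [(hb k).2]) h1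
    simpa using this
  -- the quadratic form
  have hform : ∀ (x : Fin d → ℝ) (z : Eu n), ∃ r : Eu n,
      z = r + ∑ k, (l k z • e k + l' k z • f k) ∧
      ⟪z, z⟫ + 2 * ∑ k, (x k - t k) * (l k z * l' k z) =
      ⟪r, r⟫ + ∑ k, (l k z ^ 2 + l' k z ^ 2 + 2 * x k * l k z * l' k z) := by
    intro x z
    obtain ⟨r, hzr, hzz⟩ := hdec z
    refine ⟨r, hzr, ?_⟩
    rw [hzz, add_assoc, Finset.mul_sum, ← Finset.sum_add_distrib]
    congr 1
    refine Finset.sum_congr rfl fun k _ => ?_
    simp only [ht]
    ring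
  have hterm0 : ∀ (x : ℝ) (p q : ℝ), |x| ≤ 1 → 0 ≤ p ^ 2 + q ^ 2 + 2 * x * p * q := by
    intro x p q hx
    have h1 := abs_le.1 hx
    nlinarith [sq_nonneg (p + q), sq_nonneg (p - q), mul_nonneg (sub_nonneg.2 h1.1)
      (sq_nonneg (p + q)), mul_nonneg (sub_nonneg.2 h1.2) (sq_nonneg (p - q))]
  have hpsd : ∀ (x : Fin d → ℝ), (∀ k, |x k| ≤ 1) → ∀ z : Eu n,
      0 ≤ ⟪z, z⟫ + 2 * ∑ k, (x k - t k) * (l k z * l' k z) := by
    intro x hx z
    obtain ⟨r, -, h1⟩ := hform x z
    rw [h1]
    exact add_nonneg real_inner_self_nonneg (Finset.sum_nonneg fun k _ => hterm0 _ _ _ (hx k))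
  have hpd : ∀ (x : Fin d → ℝ), (∀ k, b k ≠ 0 → |x k| < 1) → ∀ z : Eu n, z ≠ 0 →
      0 < ⟪z, z⟫ + 2 * ∑ k, (x k - t k) * (l k z * l' k z) := by
    intro x hx z hz
    obtain ⟨r, hzr, h1⟩ := hform x z
    rw [h1]
    have hterm : ∀ k, (l k z ≠ 0 ∨ l' k z ≠ 0) →
        0 < l k z ^ 2 + l' k z ^ 2 + 2 * x k * l k z * l' k z := by
      intro k hk
      have hb0 : b k ≠ 0 := by
        intro h
        rcases hk with h2 | h2
        · exact h2 (hl0 k h z)
        · exact h2 (hl0' k h z)
      exact two_pos _ _ _ _ le_rfl (hx k hb0) hk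
    have hterm1 : ∀ k, 0 ≤ l k z ^ 2 + l' k z ^ 2 + 2 * x k * l k z * l' k z := by
      intro k
      by_cases hk : l k z ≠ 0 ∨ l' k z ≠ 0
      · exact (hterm k hk).le
      · push Not at hk
        rw [hk.1, hk.2]; simp
    by_cases hex : ∃ k, l k z ≠ 0 ∨ l' k z ≠ 0
    · obtain ⟨k, hk⟩ := hex
      have h2 : 0 < ∑ k, (l k z ^ 2 + l' k z ^ 2 + 2 * x k * l k z * l' k z) :=
        Finset.sum_pos' (fun k _ => hterm1 k) ⟨k, Finset.mem_univ _, hterm k hk⟩
      have h3 : 0 ≤ ⟪r, r⟫ := real_inner_self_nonneg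
      linarith
    · push Not at hex
      have h2 : z = r := by
        have h5 : ∑ k, (l k z • e k + l' k z • f k) = 0 := by
          refine Finset.sum_eq_zero fun k _ => ?_
          rw [(hex k).1, (hex k).2]
          simp
        rw [h5, add_zero] at hzr
        exact hzr
      have h3 : 0 < ⟪r, r⟫ := by
        rw [← h2]
        exact real_inner_self_pos.2 hz
      have h4 : 0 ≤ ∑ k, (l k z ^ 2 + l' k z ^ 2 + 2 * x k * l k z * l' k z) :=
        Finset.sum_nonneg fun k _ => hterm1 k
      linarith
  -- closedness and local finiteness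
  refine ⟨(Submodule.closed_of_finiteDimensional P).union
    (Submodule.closed_of_finiteDimensional Q), ?_, ?_⟩
  · intro c r
    rw [Set.union_inter_distrib_right]
    refine (measure_union_le _ _).trans_lt ?_
    exact ENNReal.add_lt_top.2 ⟨plane_ball_lt_top P hPd c r, plane_ball_lt_top Q hQd c r⟩
  intro φ hφ
  set S : Set (Eu n) := (P : Set (Eu n)) ∪ Q with hS
  set M := μH[(d : ℝ)] (S \ φ '' S) with hM
  -- vertices of the full box
  have vertex : ∀ x : Fin d → ℝ, (∀ k, |x k| = Real.cos (a k)) → ∀ T : Eu n →ₗ[ℝ] Eu n,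
      (∀ z w, ⟪T z, T w⟫ = ⟪z, w⟫ +
        ∑ k, (x k - t k) * (l k z * l' k w + l' k z * l k w)) →
      M ≤ μH[(d : ℝ)] (T '' (φ '' S \ S)) := by
    intro x hx T hT
    set s : Fin d → ℝ := fun k => if b k = 0 then 1 else if 0 ≤ x k then 1 else -1 with hsdef
    have hss : ∀ k, s k * s k = 1 := by
      intro k
      simp only [hsdef]
      split_ifs <;> norm_num
    have hTPP : ∀ z ∈ P, ∀ w ∈ P, ⟪T z, T w⟫ = ⟪z, w⟫ := by
      intro z hz w hw
      rw [hT, Finset.sum_eq_zero, add_zero]
      intro i _
      rw [hPf _ hz, hPf _ hw]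
      simp
    have hTQQ : ∀ z ∈ Q, ∀ w ∈ Q, ⟪T z, T w⟫ = ⟪z, w⟫ := by
      intro z hz w hw
      rw [hT, Finset.sum_eq_zero, add_zero]
      intro i _
      rw [hQe _ hz, hQe _ hw]
      simp
    have hTef : ∀ k j, ⟪T (e k), T (f j)⟫ = if k = j then (if b k = 0 then 1 else x k) else 0 := by
      intro k j
      rw [hT, hef, Finset.sum_eq_single k]
      · rw [hQe _ (hf_mem j)]
        by_cases hk : b k = 0
        · rw [hl0 k hk, hk]
          by_cases hkj : k = j
          · simp [hkj]
          · simp [hkj]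
        · rw [hle k hk, hlf k hk]
          by_cases hkj : k = j
          · subst hkj
            simp [hk, ht]
          · simp [hkj]
      · intro i _ hi
        rw [hQe _ (hf_mem j)]
        by_cases hk : b i = 0
        · rw [hl0 i hk]; simp
        · rw [hle i hk]; simp [hi]
      · simp
    have hang : HasAngles (P.map T) (Q.map T) a := by
      refine ⟨fun k => T (e k), fun k => s k • T (f k), ?_, ?_, ?_, ?_, ?_⟩
      · rw [orthonormal_iff_ite]
        intro k k'
        rw [hTPP _ (he_mem k) _ (he_mem k'), hee]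
      · rw [orthonormal_iff_ite]
        intro k k'
        rw [inner_smul_left, inner_smul_right, hTQQ _ (hf_mem k) _ (hf_mem k'), hff]
        by_cases hk : k = k'
        · subst hk
          simpa using hss k
        · simp [hk]
      · show Submodule.span ℝ (Set.range fun k => T (e k)) = P.map T
        rw [← hP, Submodule.map_span, ← Set.range_comp]
        rfl
      · show Submodule.span ℝ (Set.range fun k => s k • T (f k)) = Q.map T
        rw [← hQ, Submodule.map_span, ← Set.range_comp]
        apply le_antisymm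
        · rw [Submodule.span_le]
          rintro _ ⟨k, rfl⟩
          exact Submodule.smul_mem _ _ (Submodule.subset_span ⟨k, rfl⟩)
        · rw [Submodule.span_le]
          rintro _ ⟨k, rfl⟩
          have h1 : (T ∘ f) k = s k • (s k • T (f k)) := by
            rw [smul_smul, hss, one_smul]
            rfl
          rw [SetLike.mem_coe, h1]
          exact Submodule.smul_mem _ _ (Submodule.subset_span ⟨k, rfl⟩)
      · intro k j
        rw [inner_smul_right, hTef]
        by_cases hkj : k = j
        · subst hkj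
          simp only [if_true]
          by_cases hk : b k = 0
          · have h1 : a k = 0 := le_antisymm (by rw [← hk]; exact hab k) (ha k).1
            simp [hsdef, hk, h1]
          · have h1 := hx k
            simp only [hsdef, hk, if_false]
            rw [← h1]
            split_ifs with h
            · rw [one_mul, abs_of_nonneg h]
            · rw [abs_of_neg (not_le.1 h)]
              ring
        · simp [hkj]
    have hnP : ∀ z ∈ P, ‖T z‖ = ‖z‖ := by
      intro z hz
      have h1 := hTPP z hz z hz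
      rw [real_inner_self_eq_norm_sq, real_inner_self_eq_norm_sq] at h1
      exact (sq_eq_sq₀ (norm_nonneg _) (norm_nonneg _)).1 h1
    have hnQ : ∀ z ∈ Q, ‖T z‖ = ‖z‖ := by
      intro z hz
      have h1 := hTQQ z hz z hz
      rw [real_inner_self_eq_norm_sq, real_inner_self_eq_norm_sq] at h1
      exact (sq_eq_sq₀ (norm_nonneg _) (norm_nonneg _)).1 h1
    exact vertex_main P Q hPd hQd T hnP hnQ (by
      rw [finrank_inf_le _ _ a ha hang]; exact hz) (hmin _ _ hang) φ hφ
  -- shrunk boxes
  obtain ⟨K, hK⟩ := hφ.1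
  obtain ⟨gP, hgP⟩ := exists_param P hPd
  obtain ⟨gQ, hgQ⟩ := exists_param Q hQd
  have hScl : IsClosed S := (Submodule.closed_of_finiteDimensional P).union
    (Submodule.closed_of_finiteDimensional Q)
  have hXm : MeasurableSet (φ '' S \ S) :=
    (isClosed_deformation_image hφ hScl).measurableSet.diff hScl.measurableSet
  have shrunk : ∀ η : ℝ, 0 < η → η < 1 →
      M ≤ ENNReal.ofReal (Real.sqrt ((1 - η)⁻¹)) ^ d * μH[(d : ℝ)] (φ '' S \ S) := by
    intro η hη0 hη1
    have h1η : 0 < 1 - η := by linarith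
    set κ : ℝ := Real.sqrt ((1 - η)⁻¹) with hκ
    have hκ0 : 0 < κ := Real.sqrt_pos.2 (inv_pos.2 h1η)
    have hκ2 : κ ^ 2 = (1 - η)⁻¹ := Real.sq_sqrt (inv_pos.2 h1η).le
    set c : Fin d → ℝ := fun k => (1 - η) * Real.cos (a k) + η * t k with hc
    have hc0 : ∀ k, 0 ≤ c k := fun k =>
      add_nonneg (mul_nonneg h1η.le (hca0 k)) (mul_nonneg hη0.le (hcb0 k))
    have hcle : ∀ k, c k ≤ Real.cos (a k) := by
      intro k
      simp only [hc]
      nlinarith [htc k]
    have hclt : ∀ k, b k ≠ 0 → c k < 1 := by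
      intro k hk
      simp only [hc]
      nlinarith [ht1 k hk, hca1 k]
    have htle : ∀ k, |t k| ≤ c k := by
      intro k
      rw [abs_of_nonneg (hcb0 k)]
      simp only [hc]
      nlinarith [htc k]
    have key := box_measure l l' t c htle
      (fun x hx z hzne => hpd x (fun k hk => lt_of_le_of_lt (hx k) (hclt k hk)) z hzne)
      (fun i : Bool => fun u => φ ((if i then gP else gQ) u))
      (fun i => ⟨K * 1, hK.comp (by cases i <;> simp [LinearIsometry.isometry, Isometry.lipschitz])⟩)
      (φ '' S \ S) hXm (by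
        rintro _ ⟨⟨z, hz, rfl⟩, -⟩
        rcases hz with h | h
        · rw [← hgP] at h
          obtain ⟨u, rfl⟩ := h
          exact Set.mem_iUnion.2 ⟨true, ⟨u, rfl⟩⟩
        · rw [← hgQ] at h
          obtain ⟨u, rfl⟩ := h
          exact Set.mem_iUnion.2 ⟨false, ⟨u, rfl⟩⟩)
      ((ENNReal.ofReal κ ^ d)⁻¹ * M) (by
        intro x hx T hT
        -- the corresponding vertex of the full box
        set y : Fin d → ℝ := fun k => if 0 ≤ x k then Real.cos (a k) else - Real.cos (a k) with hy
        have hyabs : ∀ k, |y k| = Real.cos (a k) := by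
          intro k
          simp only [hy]
          split_ifs
          · exact abs_of_nonneg (hca0 k)
          · rw [abs_neg, abs_of_nonneg (hca0 k)]
        obtain ⟨T₁, hT₁⟩ := exists_T l l' (fun k => y k - t k)
          (hpsd y (fun k => by rw [hyabs]; exact hca1 k))
        have hv := vertex y hyabs T₁ hT₁
        -- comparison of the forms
        have hcomp : ∀ z : Eu n, (1 - η) * ⟪T₁ z, T₁ z⟫ ≤ ⟪T z, T z⟫ := by
          intro z
          have e1 : ⟪T₁ z, T₁ z⟫ = ⟪z, z⟫ + 2 * ∑ k, (y k - t k) * (l k z * l' k z) := by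
            rw [hT₁, Finset.mul_sum]
            congr 1
            refine Finset.sum_congr rfl fun k _ => ?_
            ring
          have e2 : ⟪T z, T z⟫ = ⟪z, z⟫ + 2 * ∑ k, (x k - t k) * (l k z * l' k z) := by
            rw [hT, Finset.mul_sum]
            congr 1
            refine Finset.sum_congr rfl fun k _ => ?_
            ring
          obtain ⟨r, hr1, hr2⟩ := hform y z
          obtain ⟨r', hr1', hr2'⟩ := hform x z
          have hrr : r = r' := by
            have := hr1.symm.trans hr1'
            exact add_right_cancel this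
          rw [e1, e2, hr2, hr2', ← hrr, mul_add, Finset.mul_sum]
          refine add_le_add ?_ (Finset.sum_le_sum fun k _ => ?_)
          · have h3 : 0 ≤ ⟪r, r⟫ := real_inner_self_nonneg
            nlinarith
          · -- termwise
            set p := l k z
            set q := l' k z
            have hxk := hx k
            have hck := hc0 k
            have hT0 := hterm0 (y k) p q (by rw [hyabs]; exact hca1 k)
            -- x k = (1-η) y k + η (sign) t k
            have hsx : x k = (1 - η) * y k + η * (if 0 ≤ x k then t k else - t k) := by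
              simp only [hy]
              by_cases h : 0 ≤ x k
              · rw [abs_of_nonneg h] at hxk
                simp only [h, if_true]
                rw [hxk]
              · rw [abs_of_neg (not_le.1 h)] at hxk
                simp only [h, if_false]
                have : x k = - c k := by linarith
                rw [this]
                simp only [hc]
                ring
            have hT1 := hterm0 (if 0 ≤ x k then t k else - t k) p q (by
              split_ifs
              · rw [abs_of_nonneg (hcb0 k)]; exact (htc k).trans (hca1 k)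
              · rw [abs_neg, abs_of_nonneg (hcb0 k)]; exact (htc k).trans (hca1 k))
            generalize (if 0 ≤ x k then t k else - t k) = τ at hsx hT1
            rw [hsx]
            nlinarith
        have hle : μH[(d : ℝ)] (T₁ '' (φ '' S \ S)) ≤
            ENNReal.ofReal κ ^ d * μH[(d : ℝ)] (T '' (φ '' S \ S)) := by
          have h1 := hausdorff_le_of_edist_le T₁ T (φ '' S \ S) κ.toNNReal (by
            intro z _ w _
            rw [edist_dist, edist_dist, dist_eq_norm, dist_eq_norm, ← map_sub, ← map_sub]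
            have h2 := hcomp (z - w)
            rw [real_inner_self_eq_norm_sq, real_inner_self_eq_norm_sq] at h2
            have h3 : ‖T₁ (z - w)‖ ≤ κ * ‖T (z - w)‖ := by
              refine le_of_sq_le_sq ?_ (mul_nonneg hκ0.le (norm_nonneg _))
              rw [mul_pow, hκ2, inv_mul_eq_div, le_div_iff₀ h1η]
              linarith
            calc ENNReal.ofReal ‖T₁ (z - w)‖ ≤ ENNReal.ofReal (κ * ‖T (z - w)‖) :=
                  ENNReal.ofReal_le_ofReal h3
              _ = _ := by rw [ENNReal.ofReal_mul hκ0.le]; rfl) d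
          exact h1
        have hne0 : ENNReal.ofReal κ ^ d ≠ 0 := by
          simp [hκ0]
        have hnet : ENNReal.ofReal κ ^ d ≠ ⊤ := by
          simp
        calc (ENNReal.ofReal κ ^ d)⁻¹ * M
            ≤ (ENNReal.ofReal κ ^ d)⁻¹ * (ENNReal.ofReal κ ^ d *
                μH[(d : ℝ)] (T '' (φ '' S \ S))) := by
              gcongr
              exact hv.trans hle
          _ = μH[(d : ℝ)] (T '' (φ '' S \ S)) := by
              rw [← mul_assoc, ENNReal.inv_mul_cancel hne0 hnet, one_mul])
    have hne0 : ENNReal.ofReal κ ^ d ≠ 0 := by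
      simp [hκ0]
    have hnet : ENNReal.ofReal κ ^ d ≠ ⊤ := by
      simp
    calc M = ENNReal.ofReal κ ^ d * ((ENNReal.ofReal κ ^ d)⁻¹ * M) := by
          rw [← mul_assoc, ENNReal.mul_inv_cancel hne0 hnet, one_mul]
      _ ≤ ENNReal.ofReal κ ^ d * μH[(d : ℝ)] (φ '' S \ S) := by gcongr
  -- limit
  have h1 : Filter.Tendsto (fun j : ℕ => ENNReal.ofReal (Real.sqrt ((1 - 1 / ((j : ℝ) + 2))⁻¹)) ^ d
      * μH[(d : ℝ)] (φ '' S \ S)) Filter.atTop
      (nhds (ENNReal.ofReal (Real.sqrt ((1 - 0)⁻¹)) ^ d * μH[(d : ℝ)] (φ '' S \ S))) := by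
    have h0 : Filter.Tendsto (fun k : ℕ => 1 / ((k : ℝ) + 2)) Filter.atTop (nhds 0) := by
      have h := tendsto_one_div_add_atTop_nhds_zero_nat (𝕜 := ℝ)
      have h2 := h.comp (Filter.tendsto_add_atTop_nat 1)
      refine h2.congr fun k => ?_
      simp only [Function.comp_apply]
      push_cast
      ring
    have h2 : Filter.Tendsto (fun k : ℕ => ENNReal.ofReal
        (Real.sqrt ((1 - 1 / ((k : ℝ) + 2))⁻¹)) ^ d) Filter.atTop
        (nhds (ENNReal.ofReal (Real.sqrt ((1 - 0)⁻¹)) ^ d)) := by
      refine ENNReal.Tendsto.pow ?_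
      refine ENNReal.tendsto_ofReal ?_
      refine (Real.continuous_sqrt.tendsto _).comp ?_
      exact (tendsto_const_nhds.sub h0).inv₀ (by norm_num)
    refine ENNReal.Tendsto.mul_const h2 ?_
    left
    simp
  have h2 : ENNReal.ofReal (Real.sqrt ((1 - 0)⁻¹)) ^ d * μH[(d : ℝ)] (φ '' S \ S) =
      μH[(d : ℝ)] (φ '' S \ S) := by
    simp
  rw [h2] at h1
  refine ge_of_tendsto' h1 fun k => ?_
  have hk : (0 : ℝ) < (k : ℝ) + 2 := by positivity
  exact shrunk _ (by positivity) (by
    rw [div_lt_one hk]
    have : (0 : ℝ) ≤ k := Nat.cast_nonneg k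
    linarith)

end H56Mono
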