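import Mathlib

/-!
A Sard type lemma for Lipschitz maps `R^d → E`: the image of the set of the points where the
derivative is not injective has `d`-dimensional Hausdorff measure zero.
-/

open MeasureTheory Measure Module
open scoped NNReal ENNReal

namespace H56Mono

namespace SardA

variable {F : Type*} [NormedAddCommGroup F] [InnerProductSpace ℝ F] [FiniteDimensional ℝ F]

/-- The squeezing map `w ↦ (κ + δ) w - κ <v,w> v`. -/
noncomputable def sq (κ δ : ℝ) (v : F) : F →ₗ[ℝ] F :=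
  (κ + δ) • LinearMap.transvection ((-(κ / (κ + δ))) • (innerSL ℝ v : F →L[ℝ] ℝ).toLinearMap) v

omit [FiniteDimensional ℝ F] in
theorem sq_apply {κ δ : ℝ} (h : κ + δ ≠ 0) (v w : F) :
    sq κ δ v w = (κ + δ) • (w - (inner ℝ v w) • v) + (δ * inner ℝ v w) • v := by
  unfold sq
  rw [LinearMap.smul_apply, LinearMap.transvection.apply]
  have : ((-(κ / (κ + δ))) • (innerSL ℝ v : F →L[ℝ] ℝ).toLinearMap) w =
      -(κ / (κ + δ)) * inner ℝ v w := by simp
  rw [this, smul_add, smul_smul, smul_sub, smul_smul, sub_add, ← sub_smul, sub_eq_add_neg,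
    ← neg_smul]
  congr 2
  field_simp
  ring

theorem sq_det {κ δ : ℝ} (h : κ + δ ≠ 0) {v : F} (hv : ‖v‖ = 1) :
    LinearMap.det (sq κ δ v) = (κ + δ) ^ (finrank ℝ F) * (δ / (κ + δ)) := by
  unfold sq
  rw [LinearMap.det_smul, LinearMap.transvection.det]
  congr 1
  have : ((-(κ / (κ + δ))) • (innerSL ℝ v : F →L[ℝ] ℝ).toLinearMap) v = -(κ / (κ + δ)) := by
    simp [hv]
  rw [this]
  field_simp
  ring

omit [FiniteDimensional ℝ F] in
/-- The norm of the squeezed vector. -/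
theorem sq_norm {κ δ : ℝ} (h : κ + δ ≠ 0) {v : F} (hv : ‖v‖ = 1) (w : F) :
    ‖sq κ δ v w‖ ^ 2 = (κ + δ) ^ 2 * ‖w - (inner ℝ v w) • v‖ ^ 2 + δ ^ 2 * (inner ℝ v w) ^ 2 := by
  have ho : inner ℝ (w - (inner ℝ v w) • v) v = 0 := by
    rw [inner_sub_left, real_inner_smul_left, real_inner_self_eq_norm_sq, hv, real_inner_comm]
    ring
  rw [sq_apply h, norm_add_sq_real, real_inner_smul_left, real_inner_smul_right, ho, norm_smul,
    norm_smul, hv, mul_pow, mul_pow, Real.norm_eq_abs, Real.norm_eq_abs, sq_abs, sq_abs]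
  ring

theorem norm_decomp {v : F} (hv : ‖v‖ = 1) (w : F) :
    ‖w‖ ^ 2 = ‖w - (inner ℝ v w) • v‖ ^ 2 + (inner ℝ v w) ^ 2 := by
  have := sq_norm (κ := 0) (δ := 1) (by norm_num) hv w
  rw [sq_apply (by norm_num)] at this
  simpa using this

theorem le_sq {κ δ : ℝ} (hκ : 0 ≤ κ) (hδ : 0 < δ) {v : F} (hv : ‖v‖ = 1) (w : F) :
    κ * ‖w - (inner ℝ v w) • v‖ ≤ ‖sq κ δ v w‖ ∧ δ * ‖w‖ ≤ ‖sq κ δ v w‖ := by
  have h0 : κ + δ ≠ 0 := by positivity
  have h1 := sq_norm h0 hv w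
  have h2 := norm_decomp hv w
  constructor
  · refine abs_le_of_sq_le_sq' ?_ (norm_nonneg _) |>.2
    rw [h1, mul_pow]
    have h3 : κ ^ 2 ≤ (κ + δ) ^ 2 := pow_le_pow_left₀ hκ (by linarith) 2
    have h4 := mul_le_mul_of_nonneg_right h3 (sq_nonneg ‖w - (inner ℝ v w) • v‖)
    have h5 : 0 ≤ δ ^ 2 * (inner ℝ v w) ^ 2 := by positivity
    linarith
  · refine abs_le_of_sq_le_sq' ?_ (norm_nonneg _) |>.2
    rw [h1, mul_pow, h2]
    have h3 : δ ^ 2 ≤ (κ + δ) ^ 2 := pow_le_pow_left₀ hδ.le (by linarith) 2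
    have h4 := mul_le_mul_of_nonneg_right h3 (sq_nonneg ‖w - (inner ℝ v w) • v‖)
    nlinarith

theorem sq_injective {κ δ : ℝ} (hκ : 0 ≤ κ) (hδ : 0 < δ) {v : F} (hv : ‖v‖ = 1) :
    Function.Injective (sq κ δ v) := by
  rw [← LinearMap.ker_eq_bot, LinearMap.ker_eq_bot']
  intro w hw
  have h1 := (le_sq hκ hδ hv w).2
  rw [hw, norm_zero] at h1
  have h2 : ‖w‖ ≤ 0 := by
    by_contra hcon
    rw [not_le] at hcon
    have := mul_pos hδ hcon
    linarith
  exact norm_le_zero_iff.1 h2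

/-- One piece of the partition. -/
theorem piece {E : Type*} [NormedAddCommGroup E] [InnerProductSpace ℝ E] [FiniteDimensional ℝ E]
    [MeasurableSpace E] [BorelSpace E] {d : ℕ} (g : EuclideanSpace ℝ (Fin d) → E) (κ : ℝ)
    (hκ : 0 ≤ κ) (δ : ℝ≥0) (hδ : 0 < δ) (L : EuclideanSpace ℝ (Fin d) →L[ℝ] E) (hL : ‖L‖ ≤ κ)
    (hinj : ¬ Function.Injective L) (s : Set (EuclideanSpace ℝ (Fin d)))
    (hs : ApproximatesLinearOn g L s δ) :
    μH[(d : ℝ)] (g '' s) ≤
      2 ^ (d : ℝ) * (ENNReal.ofReal ((κ + δ) ^ d * (δ / (κ + δ))) * μH[(d : ℝ)] s) := by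
  have hδ' : (0 : ℝ) < δ := by exact_mod_cast hδ
  have h0 : κ + δ ≠ 0 := by positivity
  obtain ⟨u, hu, hu0⟩ : ∃ u, L u = 0 ∧ u ≠ 0 := by
    by_contra hcon
    push Not at hcon
    exact hinj ((injective_iff_map_eq_zero L).2 hcon)
  let v : EuclideanSpace ℝ (Fin d) := (‖u‖⁻¹) • u
  have hv : ‖v‖ = 1 := by
    simp only [v]
    rw [norm_smul, norm_inv, norm_norm, inv_mul_cancel₀ (norm_ne_zero_iff.2 hu0)]
  have hLv : L v = 0 := by simp only [v]; rw [map_smul, hu, smul_zero]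
  let D := sq κ (δ : ℝ) v
  have hDinj : Function.Injective D := sq_injective hκ hδ' hv
  have hlip : ∀ x ∈ s, ∀ y ∈ s, ‖g x - g y‖ ≤ 2 * ‖D x - D y‖ := by
    intro x hx y hy
    have h1 := hs x hx y hy
    obtain ⟨h2, h3⟩ := le_sq hκ hδ' hv (x - y)
    have h4 : L (x - y) = L ((x - y) - (inner ℝ v (x - y)) • v) := by
      rw [map_sub L (x - y), map_smul, hLv, smul_zero, sub_zero]
    have h5 : ‖L (x - y)‖ ≤ κ * ‖(x - y) - (inner ℝ v (x - y)) • v‖ := by
      rw [h4]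
      exact (L.le_opNorm _).trans (mul_le_mul_of_nonneg_right hL (norm_nonneg _))
    have h6 : ‖g x - g y‖ ≤ ‖g x - g y - L (x - y)‖ + ‖L (x - y)‖ := by
      have := norm_add_le (g x - g y - L (x - y)) (L (x - y))
      rwa [sub_add_cancel] at this
    have h7 : D x - D y = sq κ (δ : ℝ) v (x - y) := (map_sub _ _ _).symm
    rw [h7]
    linarith
  have hg : g '' s = (g ∘ Function.invFun D) '' (D '' s) := by
    rw [Set.image_image]
    refine Set.image_congr fun x _ => ?_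
    rw [Function.comp_apply, Function.leftInverse_invFun hDinj x]
  have hl : LipschitzOnWith 2 (g ∘ Function.invFun D) (D '' s) := by
    refine LipschitzOnWith.of_dist_le_mul ?_
    rintro _ ⟨x, hx, rfl⟩ _ ⟨y, hy, rfl⟩
    rw [Function.comp_apply, Function.comp_apply, Function.leftInverse_invFun hDinj x,
      Function.leftInverse_invFun hDinj y, dist_eq_norm, dist_eq_norm]
    exact hlip x hx y hy
  have h8 := hl.hausdorffMeasure_image_le (d := (d : ℝ)) (by positivity)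
  rw [← hg] at h8
  refine h8.trans ?_
  have hd : (d : ℝ) = (finrank ℝ (EuclideanSpace ℝ (Fin d)) : ℝ) := by simp
  have h9 : μH[(d : ℝ)] (D '' s) = ENNReal.ofReal |LinearMap.det D| * μH[(d : ℝ)] s := by
    rw [hd]
    exact addHaar_image_linearMap _ D s
  rw [h9]
  have h10 : LinearMap.det D = (κ + δ) ^ d * (δ / (κ + δ)) := by
    have := sq_det h0 hv
    simpa using this
  rw [h10, abs_of_nonneg (by positivity)]
  exact le_of_eq rfl

end SardA

open SardA

/-- The image of the set of the points where the derivative of a Lipschitz map on `R^d` is not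
injective is a null set for the Hausdorff measure of dimension `d`. -/
theorem hausdorff_image_noninj {E : Type*} [NormedAddCommGroup E] [InnerProductSpace ℝ E]
    [FiniteDimensional ℝ E] [MeasurableSpace E] [BorelSpace E] {d : ℕ}
    (g : EuclideanSpace ℝ (Fin d) → E) (K : ℝ≥0) (hg : LipschitzWith K g) :
    μH[(d : ℝ)] (g '' {x | DifferentiableAt ℝ g x ∧ ¬ Function.Injective (fderiv ℝ g x)}) = 0 := by
  set Z0 : Set (EuclideanSpace ℝ (Fin d)) :=
    {x | DifferentiableAt ℝ g x ∧ ¬ Function.Injective (fderiv ℝ g x)} with hZ0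
  have hcov : g '' Z0 ⊆ ⋃ R : ℕ, g '' (Z0 ∩ Metric.closedBall 0 (R : ℝ)) := by
    rintro _ ⟨x, hx, rfl⟩
    obtain ⟨R, hR⟩ := exists_nat_ge ‖x‖
    exact Set.mem_iUnion.2 ⟨R, x, ⟨hx, by simpa using hR⟩, rfl⟩
  refine measure_mono_null hcov (measure_iUnion_null fun R => ?_)
  set Z : Set (EuclideanSpace ℝ (Fin d)) := Z0 ∩ Metric.closedBall 0 (R : ℝ) with hZ
  set B : Set (EuclideanSpace ℝ (Fin d)) := Metric.closedBall 0 (R : ℝ) with hB
  have hBfin : μH[(d : ℝ)] B < ⊤ := by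
    have hd : (d : ℝ) = (finrank ℝ (EuclideanSpace ℝ (Fin d)) : ℝ) := by simp
    rw [hd]
    exact (isCompact_closedBall _ _).measure_lt_top
  set κ : ℝ := (K : ℝ) + 1 with hκ
  have hκ1 : 1 ≤ κ := by
    have : (0 : ℝ) ≤ K := K.2
    linarith
  -- the bound for every `δ`
  have key : ∀ δ : ℝ≥0, 0 < δ → δ ≤ 1 → μH[(d : ℝ)] (g '' Z) ≤
      (2 ^ (d : ℝ) * (ENNReal.ofReal ((κ + 1) ^ d) * μH[(d : ℝ)] B)) * (δ : ℝ≥0∞) := by
    intro δ hδ hδ1
    have hδ' : (0 : ℝ) < δ := by exact_mod_cast hδ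
    have hδ1' : (δ : ℝ) ≤ 1 := by exact_mod_cast hδ1
    rcases Z.eq_empty_or_nonempty with hZe | hZne
    · rw [hZe]; simp
    obtain ⟨t, A, ht1, ht2, ht3, ht4, ht5⟩ :=
      exists_partition_approximatesLinearOn_of_hasFDerivWithinAt g Z (fun x => fderiv ℝ g x)
        (fun x hx => hx.1.1.hasFDerivAt.hasFDerivWithinAt) (fun _ => δ) (fun _ => hδ.ne')
    have h1 : g '' Z ⊆ ⋃ n, g '' (Z ∩ t n) := by
      rintro _ ⟨x, hx, rfl⟩
      obtain ⟨n, hn⟩ := Set.mem_iUnion.1 (ht3 hx)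
      exact Set.mem_iUnion.2 ⟨n, x, ⟨hx, hn⟩, rfl⟩
    have h2 : ∀ n, μH[(d : ℝ)] (g '' (Z ∩ t n)) ≤
        (2 ^ (d : ℝ) * ENNReal.ofReal ((κ + 1) ^ d * δ)) * μH[(d : ℝ)] (B ∩ t n) := by
      intro n
      obtain ⟨y, hy, hAy⟩ := ht5 hZne n
      have h3 : ‖A n‖ ≤ κ := by
        rw [hAy]
        have := norm_fderiv_le_of_lipschitz ℝ (x₀ := y) hg
        linarith
      have h4 : ¬ Function.Injective (A n) := by rw [hAy]; exact hy.1.2
      have h5 := piece g κ (by linarith) δ hδ (A n) h3 h4 (Z ∩ t n) (ht4 n)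
      refine h5.trans ?_
      rw [mul_assoc]
      refine mul_le_mul_right ?_ _
      refine mul_le_mul' (ENNReal.ofReal_le_ofReal ?_)
        (measure_mono (Set.inter_subset_inter_left _ Set.inter_subset_right))
      have h6 : (κ + δ) ^ d ≤ (κ + 1) ^ d := pow_le_pow_left₀ (by positivity) (by linarith) d
      have h7 : (δ : ℝ) / (κ + δ) ≤ δ := div_le_self hδ'.le (by linarith)
      exact mul_le_mul h6 h7 (by positivity) (by positivity)
    calc μH[(d : ℝ)] (g '' Z) ≤ μH[(d : ℝ)] (⋃ n, g '' (Z ∩ t n)) := measure_mono h1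
      _ ≤ ∑' n, μH[(d : ℝ)] (g '' (Z ∩ t n)) := measure_iUnion_le _
      _ ≤ ∑' n, (2 ^ (d : ℝ) * ENNReal.ofReal ((κ + 1) ^ d * δ)) * μH[(d : ℝ)] (B ∩ t n) :=
          ENNReal.tsum_le_tsum h2
      _ = (2 ^ (d : ℝ) * ENNReal.ofReal ((κ + 1) ^ d * δ)) * ∑' n, μH[(d : ℝ)] (B ∩ t n) :=
          ENNReal.tsum_mul_left
      _ = (2 ^ (d : ℝ) * ENNReal.ofReal ((κ + 1) ^ d * δ)) * μH[(d : ℝ)] (⋃ n, B ∩ t n) := by
          rw [measure_iUnion]
          · intro i j hij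
            exact (ht1 hij).mono Set.inter_subset_right Set.inter_subset_right
          · intro n
            exact measurableSet_closedBall.inter (ht2 n)
      _ ≤ (2 ^ (d : ℝ) * ENNReal.ofReal ((κ + 1) ^ d * δ)) * μH[(d : ℝ)] B := by
          refine mul_le_mul_right (measure_mono ?_) _
          exact Set.iUnion_subset fun n => Set.inter_subset_left
      _ = (2 ^ (d : ℝ) * (ENNReal.ofReal ((κ + 1) ^ d) * μH[(d : ℝ)] B)) * (δ : ℝ≥0∞) := by
          rw [ENNReal.ofReal_mul (by positivity), ENNReal.ofReal_coe_nnreal]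
          ring
  set C : ℝ≥0∞ := 2 ^ (d : ℝ) * (ENNReal.ofReal ((κ + 1) ^ d) * μH[(d : ℝ)] B) with hC
  have hCfin : C ≠ ⊤ := by
    rw [hC]
    refine ENNReal.mul_ne_top ?_ (ENNReal.mul_ne_top ENNReal.ofReal_ne_top hBfin.ne)
    exact ENNReal.rpow_ne_top_of_nonneg (by positivity) (by norm_num)
  have hlim : Filter.Tendsto (fun m : ℕ => C * (((1 / ((m : ℝ≥0) + 1) : ℝ≥0)) : ℝ≥0∞))
      Filter.atTop (nhds (C * 0)) := by
    refine ENNReal.Tendsto.const_mul ?_ (Or.inr hCfin)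
    have : Filter.Tendsto (fun m : ℕ => (1 / ((m : ℝ≥0) + 1) : ℝ≥0)) Filter.atTop (nhds 0) :=
      tendsto_one_div_add_atTop_nhds_zero_nat
    have h2 := ENNReal.tendsto_coe.2 this
    rw [ENNReal.coe_zero] at h2
    exact h2
  rw [mul_zero] at hlim
  refine le_antisymm (ge_of_tendsto' hlim fun m => key _ (by positivity) ?_) zero_le
  rw [div_le_one (by positivity)]
  simp

end H56Mono
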