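import Pool.Agent.H56.Mono.Box

open MeasureTheory Measure Module
open scoped InnerProductSpace RealInnerProductSpace NNReal ENNReal

namespace H56Mono

theorem two_pos (p q x c : ℝ) (hx : |x| ≤ c) (hc : c < 1) (hpq : p ≠ 0 ∨ q ≠ 0) :
    0 < p ^ 2 + q ^ 2 + 2 * x * p * q := by
  have h1 := abs_le.1 hx
  have hs : 0 < p ^ 2 + q ^ 2 := by
    rcases hpq with h | h
    · positivity
    · positivity
  have h2 : 2 * |p * q| ≤ p ^ 2 + q ^ 2 := by
    have := two_mul_le_add_sq |p| |q|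
    rw [abs_mul]
    simpa [sq_abs, mul_assoc] using this
  have h3 : |x * (p * q)| ≤ c * |p * q| := by
    rw [abs_mul]
    exact mul_le_mul_of_nonneg_right hx (abs_nonneg _)
  have h4 := (abs_le.1 h3).1
  have h5 : 0 ≤ |p * q| := abs_nonneg _
  have hc0 : 0 ≤ c := (abs_nonneg _).trans hx
  nlinarith

theorem two_setup {n d : ℕ} (b : Fin d → ℝ) (hb : ∀ k, 0 ≤ b k ∧ b k ≤ Real.pi / 2)
    (e f : Fin d → Eu n) (he : Orthonormal ℝ e) (hf : Orthonormal ℝ f)
    (hef : ∀ k l, ⟪e k, f l⟫ = if k = l then Real.cos (b k) else 0) :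
    ∃ l l' : Fin d → Eu n →ₗ[ℝ] ℝ,
      (∀ k, b k = 0 → ∀ z, l k z = 0) ∧ (∀ k, b k = 0 → ∀ z, l' k z = 0) ∧
      (∀ z ∈ Submodule.span ℝ (Set.range e), ∀ k, l' k z = 0) ∧
      (∀ z ∈ Submodule.span ℝ (Set.range f), ∀ k, l k z = 0) ∧
      (∀ k, b k ≠ 0 → ∀ j, l k (e j) = if k = j then 1 else 0) ∧
      (∀ k, b k ≠ 0 → ∀ j, l' k (f j) = if k = j then 1 else 0) ∧
      (∀ z : Eu n, ∃ r : Eu n, z = r + ∑ k, (l k z • e k + l' k z • f k) ∧
        ⟪z, z⟫ = ⟪r, r⟫ +
          ∑ k, (l k z ^ 2 + l' k z ^ 2 + 2 * Real.cos (b k) * l k z * l' k z)) := by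
  classical
  have hpi := Real.pi_pos
  obtain ⟨P, hP⟩ : ∃ P, P = Submodule.span ℝ (Set.range e) := ⟨_, rfl⟩
  obtain ⟨Q, hQ⟩ : ∃ Q, Q = Submodule.span ℝ (Set.range f) := ⟨_, rfl⟩
  have hP := hP.symm
  have hQ := hQ.symm
  have hee := orthonormal_iff_ite.1 he
  have hff := orthonormal_iff_ite.1 hf
  have hfe : ∀ k l, ⟪f k, e l⟫ = if k = l then Real.cos (b k) else 0 := by
    intro k l
    rw [real_inner_comm, hef]
    by_cases hkl : k = l
    · subst hkl; simp
    · simp [hkl, Ne.symm hkl]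
  set t : Fin d → ℝ := fun k => Real.cos (b k) with ht
  have ht1 : ∀ k, b k ≠ 0 → 0 < 1 - t k ^ 2 := by
    intro k hk
    have h1 : 0 < b k := lt_of_le_of_ne (hb k).1 (Ne.symm hk)
    have h2 : Real.cos (b k) < 1 := by
      have := Real.cos_lt_cos_of_nonneg_of_le_pi (le_refl 0) (by linarith [(hb k).2]) h1
      simpa using this
    have h3 : 0 ≤ Real.cos (b k) :=
      Real.cos_nonneg_of_neg_pi_div_two_le_of_le (by linarith [(hb k).1]) (hb k).2
    have h4 : t k = Real.cos (b k) := rfl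
    rw [h4]
    nlinarith
  -- functionals
  set l : Fin d → Eu n →ₗ[ℝ] ℝ := fun k => if b k = 0 then 0 else
    (1 - t k ^ 2)⁻¹ • (innerₛₗ ℝ (e k) - t k • innerₛₗ ℝ (f k)) with hldef
  set l' : Fin d → Eu n →ₗ[ℝ] ℝ := fun k => if b k = 0 then 0 else
    (1 - t k ^ 2)⁻¹ • (innerₛₗ ℝ (f k) - t k • innerₛₗ ℝ (e k)) with hl'def
  have hl0 : ∀ k, b k = 0 → ∀ z, l k z = 0 := fun k hk z => by simp [hldef, hk]
  have hl0' : ∀ k, b k = 0 → ∀ z, l' k z = 0 := fun k hk z => by simp [hl'def, hk]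
  have hl1 : ∀ k, b k ≠ 0 → ∀ z, l k z = (1 - t k ^ 2)⁻¹ * (⟪e k, z⟫ - t k * ⟪f k, z⟫) :=
    fun k hk z => by simp [hldef, hk]
  have hl1' : ∀ k, b k ≠ 0 → ∀ z, l' k z = (1 - t k ^ 2)⁻¹ * (⟪f k, z⟫ - t k * ⟪e k, z⟫) :=
    fun k hk z => by simp [hl'def, hk]
  have he_mem : ∀ k, e k ∈ P := fun k => by rw [← hP]; exact Submodule.subset_span ⟨k, rfl⟩
  have hf_mem : ∀ k, f k ∈ Q := fun k => by rw [← hQ]; exact Submodule.subset_span ⟨k, rfl⟩
  have hPf : ∀ z ∈ P, ∀ k, l' k z = 0 := by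
    intro z hz k
    have hsub : P ≤ LinearMap.ker (l' k) := by
      rw [← hP, Submodule.span_le]
      rintro _ ⟨j, rfl⟩
      rw [SetLike.mem_coe, LinearMap.mem_ker]
      by_cases hk : b k = 0
      · exact hl0' k hk _
      · rw [hl1' k hk, hfe, hee]
        by_cases hkj : k = j
        · simp [hkj, ht]
        · simp [hkj]
    exact hsub hz
  have hQe : ∀ z ∈ Q, ∀ k, l k z = 0 := by
    intro z hz k
    have hsub : Q ≤ LinearMap.ker (l k) := by
      rw [← hQ, Submodule.span_le]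
      rintro _ ⟨j, rfl⟩
      rw [SetLike.mem_coe, LinearMap.mem_ker]
      by_cases hk : b k = 0
      · exact hl0 k hk _
      · rw [hl1 k hk, hef, hff]
        by_cases hkj : k = j
        · simp [hkj, ht]
        · simp [hkj]
    exact hsub hz
  have hle : ∀ k, b k ≠ 0 → ∀ j, l k (e j) = if k = j then 1 else 0 := by
    intro k hk j
    have h1 := ht1 k hk
    rw [hl1 k hk, hfe, hee]
    by_cases hkj : k = j
    · simp only [hkj, if_true]
      subst hkj
      have : (1 : ℝ) - t k * Real.cos (b k) = 1 - t k ^ 2 := by rw [ht]; ring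
      rw [this, inv_mul_cancel₀ h1.ne']
    · simp [hkj]
  have hlf : ∀ k, b k ≠ 0 → ∀ j, l' k (f j) = if k = j then 1 else 0 := by
    intro k hk j
    have h1 := ht1 k hk
    rw [hl1' k hk, hef, hff]
    by_cases hkj : k = j
    · simp only [hkj, if_true]
      subst hkj
      have : (1 : ℝ) - t k * Real.cos (b k) = 1 - t k ^ 2 := by rw [ht]; ring
      rw [this, inv_mul_cancel₀ h1.ne']
    · simp [hkj]
  -- recover inner products
  have hα : ∀ k, b k ≠ 0 → ∀ z, ⟪e k, z⟫ = l k z + t k * l' k z := by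
    intro k hk z
    have h1 := (ht1 k hk).ne'
    rw [hl1 k hk, hl1' k hk]
    field_simp
    ring
  have hβ : ∀ k, b k ≠ 0 → ∀ z, ⟪f k, z⟫ = l' k z + t k * l k z := by
    intro k hk z
    have h1 := (ht1 k hk).ne'
    rw [hl1 k hk, hl1' k hk]
    field_simp
    ring
  -- orthogonal decomposition
  have hdec : ∀ z : Eu n, ∃ r : Eu n, z = r + ∑ k, (l k z • e k + l' k z • f k) ∧
      ⟪z, z⟫ = ⟪r, r⟫ + ∑ k, (l k z ^ 2 + l' k z ^ 2 + 2 * t k * l k z * l' k z) := by
    intro z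
    set y := ∑ k, (l k z • e k + l' k z • f k) with hy
    refine ⟨z - y, by abel, ?_⟩
    have hye : ∀ k, b k ≠ 0 → ⟪e k, y⟫ = l k z + t k * l' k z := by
      intro k hk
      rw [hy, inner_sum]
      rw [Finset.sum_eq_single k]
      · rw [inner_add_right, inner_smul_right, inner_smul_right, hee, hef]
        simp [ht]
        ring
      · intro j _ hj
        rw [inner_add_right, inner_smul_right, inner_smul_right, hee, hef]
        simp [Ne.symm hj]
      · simp
    have hyf : ∀ k, b k ≠ 0 → ⟪f k, y⟫ = l' k z + t k * l k z := by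
      intro k hk
      rw [hy, inner_sum]
      rw [Finset.sum_eq_single k]
      · rw [inner_add_right, inner_smul_right, inner_smul_right, hff, hfe]
        simp [ht]
        ring
      · intro j _ hj
        rw [inner_add_right, inner_smul_right, inner_smul_right, hff, hfe]
        simp [Ne.symm hj]
      · simp
    have hyw : ∀ w : Eu n, ⟪y, w⟫ = ∑ k, (l k z * ⟪e k, w⟫ + l' k z * ⟪f k, w⟫) := by
      intro w
      rw [hy, sum_inner]
      refine Finset.sum_congr rfl fun k _ => ?_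
      rw [inner_add_left, inner_smul_left, inner_smul_left]
      simp
    have hyy : ⟪y, y⟫ = ∑ k, (l k z ^ 2 + l' k z ^ 2 + 2 * t k * l k z * l' k z) := by
      rw [hyw]
      refine Finset.sum_congr rfl fun k _ => ?_
      by_cases hk : b k = 0
      · rw [hl0 k hk, hl0' k hk]; ring
      · rw [hye k hk, hyf k hk]; ring
    have hyz : ⟪y, z⟫ = ∑ k, (l k z ^ 2 + l' k z ^ 2 + 2 * t k * l k z * l' k z) := by
      rw [hyw]
      refine Finset.sum_congr rfl fun k _ => ?_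
      by_cases hk : b k = 0
      · rw [hl0 k hk, hl0' k hk]; ring
      · rw [hα k hk z, hβ k hk z]; ring
    rw [inner_sub_left, inner_sub_right, inner_sub_right, real_inner_comm y z, hyz, hyy]
    ring
  rw [hP, hQ]
  exact ⟨l, l', hl0, hl0', hPf, hQe, hle, hlf, hdec⟩

end H56Mono
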